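import Pool.Agent.Y18.GX.Gen

/-!
# A prime dividing a norm from a cyclotomic field divides it with multiplicity at least its residue degree
-/

set_option autoImplicit false

namespace Pool.Agent.Y18.GX

open Finset Polynomial NumberField

/-- the norm as a norm of an algebraic integer -/
lemma norm_eq' {d : ℕ} (hd : 0 < d) (P : ℤ[X]) (K : Type) [Field K] [NumberField K] [NeZero d]
    [IsCyclotomicExtension {d} ℚ K] : ∃ ζ : 𝓞 K, IsPrimitiveRoot ζ d ∧
      Algebra.norm ℤ (aeval ζ P) = (Pool.Agent.TH487.RP.MM d P).det := by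
  have hζ := IsCyclotomicExtension.zeta_spec d ℚ K
  have hζ' := hζ.toInteger_isPrimitiveRoot
  refine ⟨hζ.toInteger, hζ', ?_⟩
  have h1 : (((Algebra.norm ℤ (aeval hζ.toInteger P) : ℤ) : ℚ) : ℂ) =
      (((Pool.Agent.TH487.RP.MM d P).det : ℤ) : ℂ) := by
    rw [Pool.Agent.TH487.RP.det_MM d hd P]
    have h2 := Algebra.coe_norm_int (K := K) (aeval hζ.toInteger P)
    rw [h2]
    have h3 := Algebra.norm_eq_prod_embeddings ℚ ℂ ((aeval hζ.toInteger P : 𝓞 K) : K)
    rw [eq_ratCast] at h3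
    rw [h3]
    have hirr : Irreducible (cyclotomic d ℚ) := cyclotomic.irreducible_rat hd
    rw [← Finset.prod_attach (primitiveRoots d ℂ)]
    refine Fintype.prod_equiv (hζ.embeddingsEquivPrimitiveRoots ℂ hirr) _ _ fun σ => ?_
    rw [IsPrimitiveRoot.embeddingsEquivPrimitiveRoots_apply_coe]
    have h4 : ((aeval hζ.toInteger P : 𝓞 K) : K) = aeval (IsCyclotomicExtension.zeta d ℚ K) P := by
      have := aeval_algebraMap_apply K hζ.toInteger P
      exact this.symm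
    rw [h4]
    have h5 : σ (aeval (IsCyclotomicExtension.zeta d ℚ K) P) =
        aeval (σ (IsCyclotomicExtension.zeta d ℚ K)) P := by
      exact (aeval_algHom_apply (σ.restrictScalars ℤ) (IsCyclotomicExtension.zeta d ℚ K) P).symm
    rw [h5]
    rfl
  have h6 : (((Algebra.norm ℤ (aeval hζ.toInteger P) : ℤ) : ℂ)) =
      (((Pool.Agent.TH487.RP.MM d P).det : ℤ) : ℂ) := by
    rw [← h1]
    push_cast
    rfl
  exact_mod_cast h6

lemma norm_pow {d p : ℕ} (hd : 0 < d) (hp : p.Prime) (hpd : ¬ p ∣ d) (P : ℤ[X])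
    (h : p ∣ (Pool.Agent.TH487.RP.MM d P).det.natAbs) :
    ∃ f : ℕ, 0 < f ∧ p ^ f ∣ (Pool.Agent.TH487.RP.MM d P).det.natAbs ∧ d ∣ p ^ f - 1 := by
  have : NeZero d := ⟨hd.ne'⟩
  have hne : NeZero ((d : ℕ) : ℚ) := ⟨by exact_mod_cast hd.ne'⟩
  have hcyc : IsCyclotomicExtension {d} ℚ (CyclotomicField d ℚ) := CyclotomicField.isCyclotomicExtension d ℚ
  obtain ⟨ζ, hζ, hn⟩ := norm_eq' hd P (CyclotomicField d ℚ)
  have habs : Ideal.absNorm (Ideal.span {aeval ζ P}) = (Pool.Agent.TH487.RP.MM d P).det.natAbs := by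
    rw [Ideal.absNorm_span_singleton, hn]
  rw [← habs] at h ⊢
  obtain ⟨Q, hQ, hQu, hQd⟩ := Ideal.exists_isMaximal_dvd_of_dvd_absNorm' hp _ h
  obtain ⟨q, f, hf, hqQ, hq, hQn⟩ := Ideal.exists_prime_and_absNorm_eq_pow Q
  have hqp : q = p := by
    have h1 : ((q : ℕ) : ℤ) ∈ Q.under ℤ := by
      rw [Ideal.mem_comap]
      simpa using hqQ
    rw [hQu, Ideal.mem_span_singleton] at h1
    have h2 : p ∣ q := by exact_mod_cast h1
    exact ((Nat.prime_dvd_prime_iff_eq hp hq).1 h2).symm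
  subst hqp
  refine ⟨f, hf, ?_, ?_⟩
  · rw [← hQn]
    exact map_dvd Ideal.absNorm hQd
  · have hc : (Ideal.absNorm Q).Coprime d := by
      rw [hQn]
      exact Nat.Coprime.pow_left _ ((Nat.Prime.coprime_iff_not_dvd hp).2 hpd)
    have h1 : Ideal.absNorm Q ≠ 1 := by
      rw [hQn]
      exact (Nat.one_lt_pow hf.ne' hp.one_lt).ne'
    have h2 := hζ.idealQuotient_mk h1 hc
    let _ := Ideal.Quotient.field Q
    have h3 : (Ideal.Quotient.mk Q ζ) ≠ 0 := h2.ne_zero hd.ne'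
    have h4 : Nat.card (𝓞 (CyclotomicField d ℚ) ⧸ Q) = q ^ f := by
      rw [← hQn, Ideal.absNorm_apply, Submodule.cardQuot_apply]
    have h5 : IsPrimitiveRoot (Units.mk0 (Ideal.Quotient.mk Q ζ) h3) d := by
      rw [← IsPrimitiveRoot.coe_units_iff]
      exact h2
    have h6 : d ∣ Nat.card (𝓞 (CyclotomicField d ℚ) ⧸ Q)ˣ :=
      (dvd_of_eq h5.eq_orderOf).trans (orderOf_dvd_natCard _)
    rw [Nat.card_units, h4] at h6
    exact h6

end Pool.Agent.Y18.GX
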