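import Pool.Agent.Y18.GX.Lte

/-!
# The orders of the values of a primitive character
-/

set_option autoImplicit false

namespace Pool.Agent.Y18.GX

open Finset

/-- if the values of a primitive `ψ` modulo `ℓ ^ K` have order prime to `s`, then `ℓ ^ (K - 2)` divides `s` -/
lemma pow_dvd_of_values {ℓ K : ℕ} (hℓ : ℓ = 2 ∨ ℓ = 3) (hK : 3 ≤ K) (ψ : MulChar (ZMod (ℓ ^ K)) ℂ)
    (hprim : ψ ((1 + ℓ ^ (K - 1) : ℕ) : ZMod (ℓ ^ K)) ≠ 1) {s : ℕ} (hs : s ≠ 0)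
    (h : ψ ((1 + ℓ ^ 2 : ℕ) : ZMod (ℓ ^ K)) ^ s = 1) : ℓ ^ (K - 2) ∣ s := by
  have hℓp : ℓ.Prime := by rcases hℓ with rfl | rfl <;> norm_num
  have hfact : Fact ℓ.Prime := ⟨hℓp⟩
  by_contra hcon
  obtain ⟨v, u, hu, huv⟩ := Nat.exists_eq_pow_mul_and_not_dvd hs ℓ hℓp.ne_one
  have hv : v < K - 2 := by
    by_contra hc
    exact hcon ((pow_dvd_pow ℓ (not_lt.1 hc)).trans ⟨u, huv⟩)
  have huc : u.Coprime ℓ := (Nat.coprime_comm.1 ((Nat.Prime.coprime_iff_not_dvd hℓp).2 hu))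
  have hA : Adm ℓ (1 + ℓ ^ 2) := by
    rcases hℓ with rfl | rfl
    · exact Or.inr ⟨rfl, by norm_num⟩
    · exact Or.inl ⟨rfl, by norm_num⟩
  obtain ⟨y, hy, hyc⟩ := pow_iter (r := 2) (x := 1) hA (by ring) (Nat.coprime_one_left _) (K - 3)
  have hK1 : 2 + (K - 3) = K - 1 := by omega
  rw [hK1] at hy
  -- `ψ (1 + ℓ ^ (K - 1)) ^ (y u) = 1`
  have h1 : ψ (((1 + ℓ ^ 2) ^ ℓ ^ (K - 3) : ℕ) : ZMod (ℓ ^ K)) ^ u = 1 := by
    have h2 : ℓ ^ (K - 3) * u = s * ℓ ^ (K - 3 - v) := by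
      rw [huv]
      have : ℓ ^ (K - 3) = ℓ ^ v * ℓ ^ (K - 3 - v) := by
        rw [← pow_add]
        congr 1
        omega
      rw [this]
      ring
    rw [Nat.cast_pow, map_pow, ← pow_mul, h2, pow_mul, h, one_pow]
  rw [hy, psi_one_add ψ (n := 1) (by omega) y, ← pow_mul] at h1
  have hτ : ψ ((1 + ℓ ^ (K - 1) : ℕ) : ZMod (ℓ ^ K)) ^ ℓ = 1 := by
    have := psi_M_pow ψ (n := 1) (by omega)
    rwa [pow_one] at this
  exact ne_one_of_coprime hprim hτ (Nat.Coprime.mul_left hyc huc) h1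

/-- the residue degree -/
lemma degree_large {p ℓ K n₁ N₁ f : ℕ} (hp : p.Prime) (h5 : 5 ≤ p) (hℓ : ℓ = 2 ∨ ℓ = 3) (hK : 3 ≤ K)
    (hcop : N₁.Coprime (ℓ ^ K)) (hN0 : N₁ ≠ 0) (ψ : DirichletCharacter ℂ (N₁ * ℓ ^ K)) (hc : ℓ ^ K ∣ ψ.conductor)
    (h1 : ¬ ℓ ^ (n₁ + 1) ∣ p ^ 2 - 1) (hf : 0 < f) (hd : orderOf ψ ∣ p ^ f - 1) :
    ℓ ^ (K - 2) ≤ ℓ ^ n₁ * f := by
  have hℓp : ℓ.Prime := by rcases hℓ with rfl | rfl <;> norm_num
  have hprim := snd_prim hcop hℓp (by omega) hN0 ψ hc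
  have hpos : p ^ f - 1 ≠ 0 := by
    have : 1 < p ^ f := Nat.one_lt_pow hf.ne' hp.one_lt
    omega
  have hdvd : ℓ ^ (K - 2) ∣ p ^ f - 1 := by
    refine pow_dvd_of_values hℓ hK (snd hcop ψ) hprim hpos ?_
    -- a value of `ψ`
    obtain ⟨a, ha1, ha2⟩ := Nat.chineseRemainder hcop 1 (1 + ℓ ^ 2)
    have e1 : ψ (a : ZMod (N₁ * ℓ ^ K)) = snd hcop ψ ((1 + ℓ ^ 2 : ℕ) : ZMod (ℓ ^ K)) := by
      rw [dec_nat hcop ψ a]
      have e2 : (a : ZMod N₁) = 1 := by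
        have := (ZMod.natCast_eq_natCast_iff _ _ _).2 ha1
        rw [this, Nat.cast_one]
      have e3 : (a : ZMod (ℓ ^ K)) = ((1 + ℓ ^ 2 : ℕ) : ZMod (ℓ ^ K)) :=
        (ZMod.natCast_eq_natCast_iff _ _ _).2 ha2
      rw [e2, e3, map_one, one_mul]
    rw [← e1]
    have hu : IsUnit (a : ZMod (N₁ * ℓ ^ K)) := by
      rw [ZMod.isUnit_iff_coprime]
      refine Nat.Coprime.mul_right ?_ ?_
      · have := ha1.gcd_eq
        rw [Nat.gcd_one_left] at this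
        exact this
      · have := ha2.gcd_eq
        have h3 : Nat.Coprime (1 + ℓ ^ 2) (ℓ ^ K) := by
          refine Nat.Coprime.pow_right _ ?_
          rw [Nat.coprime_comm, Nat.Prime.coprime_iff_not_dvd hℓp]
          intro h4
          rcases hℓ with rfl | rfl <;> norm_num at h4
        exact this.trans h3
    obtain ⟨U, hU⟩ := hu
    obtain ⟨w, hw⟩ := hd
    rw [← hU, ← MulChar.pow_apply_coe, hw, pow_mul, pow_orderOf_eq_one, one_pow, MulChar.one_apply_coe]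
  have h2 : ℓ ^ (K - 2) ∣ p ^ (2 * f) - 1 := by
    refine hdvd.trans ?_
    rw [mul_comm, pow_mul]
    have := Nat.sub_dvd_pow_sub_pow (p ^ f) 1 2
    rwa [one_pow] at this
  have h3 := lte hp h5 hℓ hf h1 h2
  rwa [Nat.add_sub_cancel] at h3

end Pool.Agent.Y18.GX
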