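import Mathlib

/-!
# Integral multiples of the Bernoulli polynomials without constant term
-/

set_option autoImplicit false

namespace Pool.Agent.Y18.GX

open Finset Polynomial

/-- `(i + 1)! B_i` is an integer -/
lemma bern_int (i : ℕ) : ∃ z : ℤ, (((i + 1).factorial : ℕ) : ℚ) * _root_.bernoulli i = z := by
  induction i using Nat.strong_induction_on with
  | _ i ih =>
    rcases Nat.eq_zero_or_pos i with h0 | h0
    · subst h0
      exact ⟨1, by simp⟩
    · have h1 := _root_.sum_bernoulli (i + 1)
      rw [if_neg (by omega), Finset.sum_range_succ] at h1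
      have h2 : ((i + 1).choose i : ℚ) = (i + 1 : ℕ) := by
        rw [Nat.choose_succ_self_right]
      rw [h2] at h1
      choose! z hz using ih
      have h3 : (((i + 1).factorial : ℕ) : ℚ) * _root_.bernoulli i =
          - ∑ j ∈ range i, (i.factorial : ℚ) * (((i + 1).choose j : ℚ) * _root_.bernoulli j) := by
        rw [← Finset.mul_sum, Nat.factorial_succ]
        push_cast at h1 ⊢
        linear_combination (i.factorial : ℚ) * h1
      have hw' : ∀ j, ∃ w : ℕ, j < i → i.factorial = (j + 1).factorial * w := by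
        intro j
        by_cases hj : j < i
        · obtain ⟨w, hw⟩ := Nat.factorial_dvd_factorial (show j + 1 ≤ i from hj)
          exact ⟨w, fun _ => hw⟩
        · exact ⟨0, fun h => absurd h hj⟩
      choose w hw using hw'
      refine ⟨- ∑ j ∈ range i, (w j : ℤ) * ((i + 1).choose j : ℤ) * z j, ?_⟩
      rw [h3]
      push_cast
      congr 1
      refine Finset.sum_congr rfl fun j hj => ?_
      have hj' := mem_range.1 hj
      rw [← hz j hj', hw j hj']
      push_cast
      ring

lemma bern_int' {i m : ℕ} (h : i < m) : ∃ z : ℤ, ((m.factorial : ℕ) : ℚ) * (_root_.bernoulli i * (m.choose i : ℚ)) = z := by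
  obtain ⟨z, hz⟩ := bern_int i
  obtain ⟨w, hw⟩ := Nat.factorial_dvd_factorial (show i + 1 ≤ m by omega)
  refine ⟨w * z * (m.choose i), ?_⟩
  push_cast
  rw [← hz, hw]
  push_cast
  ring

/-- the coefficients -/
noncomputable def zc (m i : ℕ) : ℤ :=
  (((m.factorial : ℕ) : ℚ) * (_root_.bernoulli i * (m.choose i : ℚ))).num

lemma zc_spec {i m : ℕ} (h : i < m) :
    (zc m i : ℚ) = ((m.factorial : ℕ) : ℚ) * (_root_.bernoulli i * (m.choose i : ℚ)) := by
  obtain ⟨z, hz⟩ := bern_int' h
  unfold zc
  rw [hz]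
  simp

/-- `m! (B_m(x) - B_m)` -/
noncomputable def FF (m : ℕ) : ℤ[X] := ∑ i ∈ range m, monomial (m - i) (zc m i)

lemma FF_map (m : ℕ) : (FF m).map (Int.castRingHom ℚ) =
    C ((m.factorial : ℕ) : ℚ) * (Polynomial.bernoulli m - C (_root_.bernoulli m)) := by
  have h1 : Polynomial.bernoulli m - C (_root_.bernoulli m) =
      ∑ i ∈ range m, monomial (m - i) (_root_.bernoulli i * (m.choose i : ℚ)) := by
    rw [Polynomial.bernoulli, Finset.sum_range_succ, Nat.sub_self, Nat.choose_self, Nat.cast_one, mul_one,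
      monomial_zero_left, add_sub_cancel_right]
  rw [h1, FF, Polynomial.map_sum, Finset.mul_sum]
  refine Finset.sum_congr rfl fun i hi => ?_
  rw [map_monomial, C_mul_monomial]
  congr 1
  exact zc_spec (mem_range.1 hi)

lemma FF_natDegree (m : ℕ) : (FF m).natDegree ≤ m := by
  apply natDegree_sum_le_of_forall_le
  intro i _
  exact (natDegree_monomial_le _).trans (Nat.sub_le _ _)

lemma FF_coeff (m : ℕ) (hm : 1 ≤ m) : (FF m).coeff m = (m.factorial : ℤ) := by
  have h1 : ((FF m).map (Int.castRingHom ℚ)).coeff m = (m.factorial : ℚ) := by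
    rw [FF_map, coeff_C_mul, coeff_sub, coeff_bernoulli, if_pos le_rfl, coeff_C_ne_zero (by omega)]
    simp
  rw [coeff_map, eq_intCast] at h1
  exact_mod_cast h1

lemma FF_eval (m : ℕ) (x : ℚ) : aeval (x : ℂ) (FF m) =
    ((m.factorial : ℕ) : ℂ) * (((Polynomial.bernoulli m).eval x : ℚ) - ((_root_.bernoulli m : ℚ) : ℂ)) := by
  have h1 : (aeval x (FF m) : ℚ) = ((m.factorial : ℕ) : ℚ) *
      ((Polynomial.bernoulli m).eval x - _root_.bernoulli m) := by
    have h2 := congrArg (fun f => f.eval x) (FF_map m)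
    simp only [eval_mul, eval_C, eval_sub] at h2
    rw [← h2, eval_map, aeval_def]
    rfl
  have h3 : aeval (x : ℂ) (FF m) = ((aeval x (FF m) : ℚ) : ℂ) := by
    have := aeval_algebraMap_apply ℂ x (FF m)
    simpa using this
  rw [h3, h1]
  push_cast
  ring

lemma FF_refl (m : ℕ) : (FF m).comp (1 - X) = (-1) ^ m * FF m + C ((FF m).eval 1) := by
  have hinj : Function.Injective (Polynomial.map (Int.castRingHom ℚ)) :=
    Polynomial.map_injective _ (Int.castRingHom ℚ).injective_int
  apply hinj
  have e1 : (FF m).eval 0 = 0 := by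
    rw [FF, eval_finset_sum]
    refine Finset.sum_eq_zero fun i hi => ?_
    rw [eval_monomial, zero_pow, mul_zero]
    have := mem_range.1 hi
    omega
  -- a constant polynomial
  have h1 : ∃ c : ℚ, ((FF m).comp (1 - X)).map (Int.castRingHom ℚ) =
      ((-1) ^ m * FF m).map (Int.castRingHom ℚ) + C c := by
    refine ⟨((m.factorial : ℕ) : ℚ) * ((-1) ^ m * _root_.bernoulli m - _root_.bernoulli m), ?_⟩
    rw [Polynomial.map_comp, Polynomial.map_mul, FF_map, Polynomial.map_sub, Polynomial.map_one, map_X,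
      mul_comp, C_comp, sub_comp, C_comp, bernoulli_comp_one_sub_X, Polynomial.map_pow, Polynomial.map_neg,
      Polynomial.map_one]
    simp only [map_mul, map_sub, map_pow, map_neg, map_one]
    ring
  obtain ⟨c, hc⟩ := h1
  have h2 : c = (((FF m).eval 1 : ℤ) : ℚ) := by
    have h3 := congrArg (fun f => f.eval 0) hc
    simp only [eval_add, eval_C, eval_map] at h3
    rw [← Int.cast_zero, eval₂_at_intCast, eval₂_at_intCast] at h3
    simp only [eval_comp, eval_sub, eval_one, eval_X, eval_mul, e1, mul_zero, sub_zero, Int.cast_zero,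
      zero_add, Int.cast_id, eq_intCast] at h3
    exact h3.symm
  rw [hc, h2, Polynomial.map_add, map_C]
  rfl

lemma FF_aeval_refl {k : Type*} [CommRing k] (m : ℕ) (x : k) :
    aeval (1 - x) (FF m) = (-1) ^ m * aeval x (FF m) + (((FF m).eval 1 : ℤ) : k) := by
  have h1 := congrArg (fun f => aeval x f) (FF_refl m)
  simp only [aeval_comp, map_sub, map_one, aeval_X, map_add, map_mul, map_pow, map_neg, aeval_C] at h1
  rw [h1]
  rfl

end Pool.Agent.Y18.GX
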