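import Pool.Agent.Y18.GX.Gen

/-!
# Counting the exceptional primes with multiplicity
-/

set_option autoImplicit false

namespace Pool.Agent.Y18.GX

open Finset Polynomial

/-- the primes whose `r`-th power divides `n` -/
lemma card_pf_pow {n L r : ℕ} (hn : n ≠ 0) (h : n ≤ 2 ^ L) :
    r * (n.primeFactors.filter fun p => p ^ r ∣ n).card ≤ L := by
  set S := n.primeFactors.filter (fun p => p ^ r ∣ n) with hS
  have h1 : 2 ^ (r * S.card) ≤ ∏ p ∈ S, p ^ r := by
    rw [pow_mul, ← Finset.prod_const]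
    exact Finset.prod_le_prod' fun p hp =>
      Nat.pow_le_pow_left (Nat.prime_of_mem_primeFactors (mem_filter.1 hp).1).two_le r
  have h2 : ∏ p ∈ S, p ^ r ∣ n := by
    refine Finset.prod_dvd_of_isRelPrime ?_ fun p hp => (mem_filter.1 hp).2
    intro p hp q hq hpq
    have hp' := Nat.prime_of_mem_primeFactors (mem_filter.1 (mem_coe.1 hp)).1
    have hq' := Nat.prime_of_mem_primeFactors (mem_filter.1 (mem_coe.1 hq)).1
    exact Nat.coprime_iff_isRelPrime.1 (((Nat.coprime_primes hp' hq').2 hpq).pow r r)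
  exact (Nat.pow_le_pow_iff_right (by norm_num : 1 < 2)).1
    (h1.trans ((Nat.le_of_dvd (Nat.pos_of_ne_zero hn) h2).trans h))

open Classical in
/-- the exceptional primes for the conductor `N` and the index `m`, with multiplicity at least `r` -/
noncomputable def badR (N m r : ℕ) : Finset ℕ :=
  if h : N = 0 then ∅ else
    have : NeZero N := ⟨h⟩
    (PP N m).biUnion fun ψ => (DG m ψ).natAbs.primeFactors.filter fun p => p ^ r ∣ (DG m ψ).natAbs

lemma badR_eq {N m r : ℕ} [hN : NeZero N] :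
    badR N m r = (PP N m).biUnion
      fun ψ => (DG m ψ).natAbs.primeFactors.filter fun p => p ^ r ∣ (DG m ψ).natAbs := by
  unfold badR
  rw [dif_neg hN.out]

lemma card_badR {N m s r : ℕ} (hN1 : 1 < N) (hm2 : 2 ≤ m) (hN : N ≤ 2 ^ s) (hm : m ≤ 2 ^ s) :
    r * (badR N m r).card ≤ N * (s * (3 * m + 2)) := by
  classical
  have : NeZero N := ⟨by omega⟩
  rw [badR_eq]
  set T : DirichletCharacter ℂ N → Finset ℕ :=
    fun ψ => (DG m ψ).natAbs.primeFactors.filter fun p => p ^ r ∣ (DG m ψ).natAbs with hT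
  set U := (PP N m).biUnion T with hU
  set L := s * (3 * m + 2) with hL
  have hone : ∀ p ∈ U, (1 : ℚ) ≤ ∑ ψ ∈ PP N m,
      if p ∈ T ψ then (((orderOf ψ).totient : ℕ) : ℚ)⁻¹ else 0 := by
    intro p hp
    rw [hU, mem_biUnion] at hp
    obtain ⟨ψ, hψ, hpψ⟩ := hp
    have hψ' := (mem_filter.1 hψ).2
    have hd0 := order_pos ψ
    set J := (range (orderOf ψ)).filter (fun j => (orderOf ψ).Coprime j) with hJ
    have hJc : J.card = (orderOf ψ).totient := by
      rw [hJ, Nat.totient_eq_card_coprime]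
    set S := J.image (fun j => ψ ^ j) with hS
    have hSc : S.card = (orderOf ψ).totient := by
      rw [hS, card_image_of_injOn, hJc]
      intro i hi j hj hij
      have hi' := mem_range.1 (mem_filter.1 (mem_coe.1 hi)).1
      have hj' := mem_range.1 (mem_filter.1 (mem_coe.1 hj)).1
      exact pow_injOn_Iio_orderOf hi' hj' hij
    have hSsub : S ⊆ PP N m := by
      intro χ hχ
      obtain ⟨j, hj, rfl⟩ := mem_image.1 hχ
      exact mem_filter.2 ⟨mem_univ _, pow_good ψ hψ'.1 hψ'.2 (mem_filter.1 hj).2.symm⟩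
    calc (1 : ℚ) = ∑ χ ∈ S, (((orderOf ψ).totient : ℕ) : ℚ)⁻¹ := by
          rw [sum_const, hSc, nsmul_eq_mul, mul_inv_cancel₀]
          exact_mod_cast (Nat.totient_pos.2 hd0).ne'
      _ = ∑ χ ∈ S, if p ∈ T χ then (((orderOf χ).totient : ℕ) : ℚ)⁻¹ else 0 := by
          refine sum_congr rfl fun χ hχ => ?_
          obtain ⟨j, hj, rfl⟩ := mem_image.1 hχ
          have hj' := (mem_filter.1 hj).2
          have hTT : T (ψ ^ j) = T ψ := by
            simp only [hT]
            rw [DG_pow m ψ hj'.symm]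
          rw [hTT, if_pos hpψ, Nat.Coprime.orderOf_pow hj']
      _ ≤ ∑ χ ∈ PP N m, if p ∈ T χ then (((orderOf χ).totient : ℕ) : ℚ)⁻¹ else 0 := by
          refine sum_le_sum_of_subset_of_nonneg hSsub fun χ _ _ => ?_
          split_ifs
          · positivity
          · exact le_rfl
  have h1 : (r : ℚ) * (U.card : ℚ) ≤ ((PP N m).card : ℚ) * L := by
    calc (r : ℚ) * (U.card : ℚ) = r * ∑ p ∈ U, (1 : ℚ) := by simp
      _ ≤ r * ∑ p ∈ U, ∑ ψ ∈ PP N m,
          (if p ∈ T ψ then (((orderOf ψ).totient : ℕ) : ℚ)⁻¹ else 0) :=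
          mul_le_mul_of_nonneg_left (sum_le_sum hone) (by positivity)
      _ = ∑ ψ ∈ PP N m, r * ∑ p ∈ U,
          (if p ∈ T ψ then (((orderOf ψ).totient : ℕ) : ℚ)⁻¹ else 0) := by rw [sum_comm, mul_sum]
      _ ≤ ∑ ψ ∈ PP N m, (L : ℚ) := by
          refine sum_le_sum fun ψ hψ => ?_
          have hψ' := (mem_filter.1 hψ).2
          have hd0 := order_pos ψ
          have ht : (0 : ℚ) < (((orderOf ψ).totient : ℕ) : ℚ) := by exact_mod_cast Nat.totient_pos.2 hd0
          obtain ⟨hne, -⟩ := DG_ne_zero hN1 ψ hψ'.1 hm2 hψ'.2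
          have h2 : r * (T ψ).card ≤ L * (orderOf ψ).totient := by
            refine card_pf_pow (Int.natAbs_ne_zero.2 hne) ?_
            calc (DG m ψ).natAbs ≤ (BB m N) ^ (orderOf ψ).totient := DG_le m ψ
              _ ≤ (2 ^ L) ^ (orderOf ψ).totient := Nat.pow_le_pow_left (BB_le' hN hm) _
              _ = 2 ^ (L * (orderOf ψ).totient) := by rw [← pow_mul]
          rw [← sum_filter, sum_const, nsmul_eq_mul]
          have h3 : (r : ℚ) * ((U.filter fun p => p ∈ T ψ).card : ℚ) ≤ L * (orderOf ψ).totient := by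
            have h4 : r * (U.filter fun p => p ∈ T ψ).card ≤ L * (orderOf ψ).totient :=
              (Nat.mul_le_mul_left r (card_le_card fun p hp => (mem_filter.1 hp).2)).trans h2
            exact_mod_cast h4
          calc (r : ℚ) * (((U.filter fun p => p ∈ T ψ).card : ℚ) * (((orderOf ψ).totient : ℕ) : ℚ)⁻¹)
              = ((r : ℚ) * ((U.filter fun p => p ∈ T ψ).card : ℚ)) * (((orderOf ψ).totient : ℕ) : ℚ)⁻¹ := by ring
            _ ≤ (L * (orderOf ψ).totient) * (((orderOf ψ).totient : ℕ) : ℚ)⁻¹ :=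
                mul_le_mul_of_nonneg_right h3 (by positivity)
            _ = L := by field_simp
      _ = ((PP N m).card : ℚ) * L := by rw [sum_const, nsmul_eq_mul]
  have h2 : r * U.card ≤ (PP N m).card * L := by exact_mod_cast h1
  exact h2.trans (Nat.mul_le_mul_right _ (PP_card N m))

end Pool.Agent.Y18.GX
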