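import Pool.Agent.Y18.GX.Class

/-!
# Nonvanishing of the character sums modulo `p`
-/

set_option autoImplicit false

namespace Pool.Agent.Y18.GX

open Finset Polynomial

section
variable {k : Type*} [Field k]

lemma taylor_coeff_top (f : k[X]) (m : ℕ) (hf : f.natDegree ≤ m) (r : k) :
    (taylor r f).coeff m = f.coeff m := by
  rw [taylor_coeff]
  have h1 : (hasseDeriv m f).natDegree < 1 := by
    have := natDegree_hasseDeriv_le f m
    omega
  rw [eval_eq_sum_range' h1]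
  simp [hasseDeriv_coeff]

lemma taylor_coeff_sub (f : k[X]) (m : ℕ) (hm : 1 ≤ m) (hf : f.natDegree ≤ m) (r : k) :
    (taylor r f).coeff (m - 1) = f.coeff (m - 1) + m * f.coeff m * r := by
  rw [taylor_coeff]
  have h1 : (hasseDeriv (m - 1) f).natDegree < 2 := by
    have := natDegree_hasseDeriv_le f (m - 1)
    omega
  rw [eval_eq_sum_range' h1, Finset.sum_range_succ, Finset.sum_range_succ, Finset.sum_range_zero]
  simp only [hasseDeriv_coeff, zero_add, pow_zero, mul_one, pow_one, Nat.choose_self, Nat.cast_one, one_mul]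
  have h2 : 1 + (m - 1) = m := by omega
  rw [h2]
  have h3 : m.choose (m - 1) = m := by
    rw [← Nat.choose_symm (by omega : m - 1 ≤ m)]
    have : m - (m - 1) = 1 := by omega
    rw [this, Nat.choose_one_right]
  rw [h3]

end

section
variable {k : Type*} [Field k] {p : ℕ} [Fact p.Prime] [CharP k p]

theorem core {ℓ n K N₁ g m u : ℕ} (ψ₁ : MulChar (ZMod N₁) k) (ψ₂ : MulChar (ZMod (ℓ ^ K)) k)
    (hp2 : p ≠ 2) (hA : Adm ℓ (p ^ g)) (hn1 : 1 ≤ n) (hn : 2 * n ≤ K) (h3 : 3 ≤ ℓ ^ n)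
    (hq : p ^ g - 1 = ℓ ^ n * u) (hu : u.Coprime ℓ) (hψ₁ : ∀ a, ψ₁ a ^ p ^ g = ψ₁ a)
    (hprim : ψ₂ ((1 + ℓ ^ (K - 1) : ℕ) : ZMod (ℓ ^ K)) ≠ 1)
    (hN₁ : N₁.Coprime ℓ) (hN0 : N₁ ≠ 0) (hNk : (N₁ : k) ≠ 0) (hℓk : (ℓ : k) ≠ 0)
    (F : Polynomial ℤ) (c : k)
    (hF : ∀ x : k, Polynomial.aeval (1 - x) F = (-1) ^ m * Polynomial.aeval x F + c)
    (hpar : ψ₁ (-1) * ψ₂ (-1) = (-1) ^ m) (hdeg : F.natDegree ≤ m) (hlead : ((F.coeff m : ℤ) : k) ≠ 0)
    (hm1 : 1 ≤ m) (hmp : m < p) (hsize : m * N₁ * ℓ ^ (2 * n) ≤ ℓ ^ K) :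
    ∑ a ∈ range (N₁ * ℓ ^ K), ψ₁ (a : ZMod N₁) * ψ₂ (a : ZMod (ℓ ^ K)) *
      Polynomial.aeval ((a : k) / (N₁ * ℓ ^ K : ℕ)) F ≠ 0 := by
  intro hS
  have hℓ := hA.prime
  have hp := (Fact.out : p.Prime)
  have hcz := class_zero ψ₁ ψ₂ hp2 hA hn1 hn h3 hq hu hψ₁ hprim hN₁ hN0 hNk hℓk F c hF hpar hS
  set M := ℓ ^ (K - n) with hM
  set N := N₁ * ℓ ^ K with hN
  set L := N₁ * ℓ ^ n with hL
  set ξ := ψ₂ ((1 + M : ℕ) : ZMod (ℓ ^ K)) with hξ
  have hML : N = M * L := by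
    rw [hN, hM, hL, mul_left_comm, ← pow_add, Nat.sub_add_cancel (by omega)]
  have hM0 : 0 < M := Nat.pos_of_ne_zero (pow_ne_zero _ hℓ.ne_zero)
  have hMn : ℓ ^ n ∣ M := pow_dvd_pow _ (by omega)
  have hL0 : 0 < L := Nat.pos_of_ne_zero (mul_ne_zero hN0 (pow_ne_zero _ hℓ.ne_zero))
  have hLM : m * L ≤ M := by
    have h1 : m * L * ℓ ^ n ≤ M * ℓ ^ n := by
      have e1 : m * L * ℓ ^ n = m * N₁ * ℓ ^ (2 * n) := by rw [hL, two_mul, pow_add]; ring
      have e2 : M * ℓ ^ n = ℓ ^ K := by rw [hM, ← pow_add, Nat.sub_add_cancel (by omega)]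
      rw [e1, e2]
      exact hsize
    exact Nat.le_of_mul_le_mul_right h1 (Nat.pos_of_ne_zero (pow_ne_zero _ hℓ.ne_zero))
  have hLk : ((L : ℕ) : k) ≠ 0 := by
    rw [hL]
    push_cast
    exact mul_ne_zero hNk (pow_ne_zero _ hℓk)
  have hMk : ((M : ℕ) : k) ≠ 0 := by
    rw [hM]
    push_cast
    exact pow_ne_zero _ hℓk
  have hNk0 : ((N : ℕ) : k) ≠ 0 := by
    rw [hML]
    push_cast
    exact mul_ne_zero hMk hLk
  have hξ1 : ξ ^ ℓ ^ n = 1 := psi_M_pow ψ₂ hn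
  have hξL : ξ ^ L = 1 := by rw [hL, mul_comm, pow_mul, hξ1, one_pow]
  have hξN : ξ ^ N₁ ≠ 1 := by
    intro h
    have h4 : orderOf ξ ∣ 1 := by
      have h5 : Nat.Coprime N₁ (ℓ ^ n) := hN₁.pow_right n
      rw [← h5]
      exact Nat.dvd_gcd (orderOf_dvd_of_pow_eq_one h) (orderOf_dvd_of_pow_eq_one hξ1)
    have h6 : ξ = 1 := orderOf_eq_one_iff.1 (Nat.dvd_one.1 h4)
    apply hprim
    rw [← psi_M_pow' ψ₂ hn hn1, ← hM, ← hξ, h6, one_pow]
  have hN₁L : N₁ ∣ L := dvd_mul_right _ _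
  have hnL : ℓ ^ n ∣ L := dvd_mul_left _ _
  -- `D (b₀) = 0`
  have hD : ∀ b₀, b₀ < L → b₀ % ℓ ^ n = 1 →
      ∑ t ∈ range L, ψ₁ ((b₀ + M * t : ℕ) : ZMod N₁) * ξ ^ t * (t : k) = 0 := by
    intro b₀ hb₀ hb₁
    set f := F.map (Int.castRingHom k) with hf
    have hfev : ∀ x : k, Polynomial.aeval x F = f.eval x := fun x => by
      rw [hf, eval_map, aeval_def]
      rfl
    have hfdeg : f.natDegree ≤ m := (natDegree_map_le).trans hdeg
    have hfm : f.coeff m ≠ 0 := by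
      rw [hf, coeff_map]
      exact hlead
    set Q : k[X] := ∑ t ∈ range L, C (ψ₁ ((b₀ + M * t : ℕ) : ZMod N₁) * ξ ^ t) * taylor ((t : k) / L) f
      with hQ
    have hQev : ∀ j, j < m → Q.eval (((b₀ + L * j : ℕ) : k) / N) = 0 := by
      intro j hj
      have hjM : b₀ + L * j < M := by
        have h1 : L * j + L ≤ m * L := by
          calc L * j + L = L * (j + 1) := by ring
            _ ≤ L * m := Nat.mul_le_mul_left _ hj
            _ = m * L := mul_comm _ _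
        omega
      have hj1 : (b₀ + L * j) % ℓ ^ n = 1 := by
        obtain ⟨w, hw⟩ := hnL
        rw [hw, mul_assoc, Nat.add_mul_mod_self_left, hb₁]
      have h1 := hcz (b₀ + L * j) hjM hj1
      rw [hQ, eval_finset_sum, ← h1]
      refine Finset.sum_congr rfl fun t _ => ?_
      have hz : ((b₀ + L * j + M * t : ℕ) : ZMod N₁) = ((b₀ + M * t : ℕ) : ZMod N₁) := by
        have h0 : (L : ZMod N₁) = 0 := (ZMod.natCast_eq_zero_iff _ _).2 hN₁L
        push_cast
        rw [h0]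
        ring
      have hx : ((b₀ + L * j : ℕ) : k) / N + (t : k) / L = ((b₀ + L * j + M * t : ℕ) : k) / N := by
        rw [hML]
        push_cast
        field_simp
      rw [eval_mul, eval_C, taylor_eval, hfev, hz, hx]
    have hQdeg : Q.degree < m := by
      rw [degree_lt_iff_coeff_zero]
      intro i hi
      rcases hi.eq_or_lt with h1 | h1
      · rw [← h1, hQ, finset_sum_coeff]
        simp only [coeff_C_mul, taylor_coeff_top f m hfdeg]
        rw [← Finset.sum_mul, E_zero ψ₁ ξ hN₁L hξL hξN b₀, zero_mul]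
      · rw [hQ, finset_sum_coeff]
        refine Finset.sum_eq_zero fun t _ => ?_
        rw [coeff_C_mul, coeff_eq_zero_of_natDegree_lt, mul_zero]
        rw [natDegree_taylor]
        omega
    have hQ0 : Q = 0 := by
      refine eq_zero_of_degree_lt_of_eval_index_eq_zero (s := range m) (f := Q)
        (v := fun j : ℕ => (((b₀ + L * j : ℕ) : k) / (N : k) : k)) ?_ (by rwa [card_range])
        (fun j hj => hQev j (mem_range.1 hj))
      intro i hi j hj hij
      have hi' : i < m := mem_range.1 hi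
      have hj' : j < m := mem_range.1 hj
      simp only at hij
      rw [div_left_inj' hNk0] at hij
      push_cast at hij
      have h1 : (L : k) * ((i : k) - j) = 0 := by linear_combination hij
      rcases mul_eq_zero.1 h1 with h2 | h2
      · exact absurd h2 hLk
      · have h4 : (i : k) = (j : k) := sub_eq_zero.1 h2
        rw [CharP.cast_eq_iff_mod_eq k p, Nat.mod_eq_of_lt (by omega), Nat.mod_eq_of_lt (by omega)] at h4
        exact h4
    have h1 : Q.coeff (m - 1) = 0 := by rw [hQ0, coeff_zero]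
    rw [hQ, finset_sum_coeff] at h1
    simp only [coeff_C_mul, taylor_coeff_sub f m hm1 hfdeg] at h1
    have h2 : ∑ t ∈ range L, ψ₁ ((b₀ + M * t : ℕ) : ZMod N₁) * ξ ^ t *
        (f.coeff (m - 1) + m * f.coeff m * ((t : k) / L)) =
        f.coeff (m - 1) * ∑ t ∈ range L, ψ₁ ((b₀ + M * t : ℕ) : ZMod N₁) * ξ ^ t +
        (m * f.coeff m / L) * ∑ t ∈ range L, ψ₁ ((b₀ + M * t : ℕ) : ZMod N₁) * ξ ^ t * (t : k) := by
      rw [Finset.mul_sum, Finset.mul_sum, ← Finset.sum_add_distrib]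
      refine Finset.sum_congr rfl fun t _ => ?_
      ring
    rw [h2, E_zero ψ₁ ξ hN₁L hξL hξN b₀, mul_zero, zero_add] at h1
    rcases mul_eq_zero.1 h1 with h4 | h4
    · exfalso
      rw [div_eq_zero_iff] at h4
      rcases h4 with h4 | h4
      · rcases mul_eq_zero.1 h4 with h5 | h5
        · rw [CharP.cast_eq_zero_iff k p] at h5
          have := Nat.le_of_dvd (by omega) h5
          omega
        · exact hfm h5
      · exact hLk h4
    · exact h4
  -- the contradiction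
  have hL3 : 3 ≤ L := by
    calc 3 ≤ ℓ ^ n := h3
      _ ≤ N₁ * ℓ ^ n := Nat.le_mul_of_pos_left _ (Nat.pos_of_ne_zero hN0)
  have h1 := hD 1 (by omega) (Nat.mod_eq_of_lt (by omega))
  have h2 := hD ((1 + M) % L) (Nat.mod_lt _ hL0) (by
    rw [Nat.mod_mod_of_dvd _ hnL]
    obtain ⟨w, hw⟩ := hMn
    rw [hw, Nat.add_mul_mod_self_left]
    exact Nat.mod_eq_of_lt (by omega))
  have h2' : ∑ t ∈ range L, ψ₁ ((1 + M + M * t : ℕ) : ZMod N₁) * ξ ^ t * (t : k) = 0 := by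
    rw [← h2]
    refine Finset.sum_congr rfl fun t _ => ?_
    congr 3
    rw [ZMod.natCast_eq_natCast_iff]
    exact (((Nat.mod_modEq (1 + M) L).of_dvd hN₁L).symm).add_right _
  have h4 := E_zero (M := M) ψ₁ ξ hN₁L hξL hξN (1 + M)
  -- the function `w (t) t`
  have h5 : ∑ t ∈ range (L + 1), ψ₁ ((1 + M * t : ℕ) : ZMod N₁) * ξ ^ t * (t : k) = L := by
    rw [Finset.sum_range_succ, h1, zero_add, hξL]
    have : ((1 + M * L : ℕ) : ZMod N₁) = 1 := by
      obtain ⟨w, hw⟩ := hN₁L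
      rw [hw]
      push_cast
      simp
    rw [this, map_one, one_mul, one_mul]
  rw [Finset.sum_range_succ'] at h5
  have h6 : ∑ t ∈ range L, ψ₁ ((1 + M * (t + 1) : ℕ) : ZMod N₁) * ξ ^ (t + 1) * ((t + 1 : ℕ) : k) =
      ξ * ∑ t ∈ range L, ψ₁ ((1 + M + M * t : ℕ) : ZMod N₁) * ξ ^ t * (t : k) +
      ξ * ∑ t ∈ range L, ψ₁ ((1 + M + M * t : ℕ) : ZMod N₁) * ξ ^ t := by
    rw [Finset.mul_sum, Finset.mul_sum, ← Finset.sum_add_distrib]
    refine Finset.sum_congr rfl fun t _ => ?_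
    have : 1 + M * (t + 1) = 1 + M + M * t := by ring
    rw [this]
    push_cast
    ring
  rw [h6, h2', h4, mul_zero, add_zero, Nat.cast_zero, mul_zero, add_zero] at h5
  exact hLk h5.symm

end

end Pool.Agent.Y18.GX
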