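import Pool.Agent.Y18.GX.Norm

/-!
# Counting the exceptional primes
-/

set_option autoImplicit false

namespace Pool.Agent.Y18.GX

open Finset Polynomial

lemma card_pf {n L : ℕ} (hn : n ≠ 0) (h : n ≤ 2 ^ L) : n.primeFactors.card ≤ L := by
  have h1 : 2 ^ n.primeFactors.card ≤ ∏ p ∈ n.primeFactors, p := by
    rw [← Finset.prod_const]
    exact Finset.prod_le_prod' fun p hp => (Nat.prime_of_mem_primeFactors hp).two_le
  have h2 : ∏ p ∈ n.primeFactors, p ≤ n := Nat.le_of_dvd (Nat.pos_of_ne_zero hn) (Nat.prod_primeFactors_dvd n)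
  exact (Nat.pow_le_pow_iff_right (by norm_num : 1 < 2)).1 (h1.trans (h2.trans h))

lemma exists_gen (K : ℕ) : ∃ g : (ZMod (3 ^ K))ˣ, ∀ u : (ZMod (3 ^ K))ˣ, u ∈ Subgroup.zpowers g := by
  have : IsCyclic (ZMod (3 ^ K))ˣ := ZMod.isCyclic_units_of_prime_pow 3 Nat.prime_three (by norm_num) K
  exact IsCyclic.exists_generator

/-- a generator -/
noncomputable def gK (K : ℕ) : (ZMod (3 ^ K))ˣ := Classical.choose (exists_gen K)

lemma gK_spec (K : ℕ) : ∀ u : (ZMod (3 ^ K))ˣ, u ∈ Subgroup.zpowers (gK K) := Classical.choose_spec (exists_gen K)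

/-- the exponent in the bound -/
def LL (K m s : ℕ) : ℕ := 2 * K * (m + 1) + s * (2 * m + 1)

lemma BB_le {K m s : ℕ} (hm : m ≤ 2 ^ s) : BB m (3 ^ K) ≤ 2 ^ LL K m s := by
  unfold BB LL
  have h1 : m.factorial ≤ (2 ^ s) ^ m := (Nat.factorial_le_pow m).trans (Nat.pow_le_pow_left hm m)
  have h2 : (3 : ℕ) ^ K ≤ 2 ^ (2 * K) := by
    rw [pow_mul]
    exact Nat.pow_le_pow_left (by norm_num) K
  calc 3 ^ K * (m * (m.factorial * m.factorial) * (3 ^ K) ^ m)
      ≤ 2 ^ (2 * K) * (2 ^ s * ((2 ^ s) ^ m * (2 ^ s) ^ m) * (2 ^ (2 * K)) ^ m) :=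
        Nat.mul_le_mul h2 (Nat.mul_le_mul (Nat.mul_le_mul hm (Nat.mul_le_mul h1 h1)) (Nat.pow_le_pow_left h2 m))
    _ = 2 ^ (2 * K * (m + 1) + s * (2 * m + 1)) := by
        rw [← pow_mul, ← pow_mul, ← pow_add, ← pow_add, ← pow_add, ← pow_add]
        congr 1
        ring

/-- the exceptional primes for the conductor `3^K` and the index `m` -/
noncomputable def bad (K m : ℕ) : Finset ℕ :=
  ((3 ^ K).totient.divisors.filter fun d => DD m (3 ^ K) (gK K) d ≠ 0).biUnion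
    fun d => (DD m (3 ^ K) (gK K) d).natAbs.primeFactors

lemma card_bad {K m s : ℕ} (hm : m ≤ 2 ^ s) : (bad K m).card ≤ 3 ^ K * LL K m s := by
  have : NeZero (3 ^ K) := ⟨by positivity⟩
  unfold bad
  calc _ ≤ ∑ d ∈ (3 ^ K).totient.divisors.filter (fun d => DD m (3 ^ K) (gK K) d ≠ 0),
        (DD m (3 ^ K) (gK K) d).natAbs.primeFactors.card := Finset.card_biUnion_le
    _ ≤ ∑ d ∈ (3 ^ K).totient.divisors.filter (fun d => DD m (3 ^ K) (gK K) d ≠ 0), d.totient * LL K m s := by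
        refine Finset.sum_le_sum fun d hd => ?_
        rw [mem_filter, Nat.mem_divisors] at hd
        refine card_pf (Int.natAbs_ne_zero.2 hd.2) ?_
        calc (DD m (3 ^ K) (gK K) d).natAbs ≤ (BB m (3 ^ K)) ^ d.totient :=
              DD_le m (gK K) d (Nat.pos_of_dvd_of_pos hd.1.1 (Nat.pos_of_ne_zero hd.1.2))
          _ ≤ (2 ^ LL K m s) ^ d.totient := Nat.pow_le_pow_left (BB_le hm) _
          _ = 2 ^ (d.totient * LL K m s) := by rw [← pow_mul, mul_comm]
    _ ≤ ∑ d ∈ (3 ^ K).totient.divisors, d.totient * LL K m s :=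
        Finset.sum_le_sum_of_subset (Finset.filter_subset _ _)
    _ = (3 ^ K).totient * LL K m s := by rw [← Finset.sum_mul, Nat.sum_totient]
    _ ≤ 3 ^ K * LL K m s := Nat.mul_le_mul_right _ (Nat.totient_le _)

/-- outside `bad` the values are units -/
lemma unit_of_not_bad {K m p : ℕ} (hK : 1 ≤ K) (ψ : DirichletCharacter ℂ (3 ^ K)) (hψ : ψ.IsPrimitive)
    (hm : 2 ≤ m) (hpar : ψ (-1) = (-1) ^ m) (hp : p.Prime) (h5 : 5 ≤ p) (hmp : m < p) (hb : p ∉ bad K m) :
    IsUnitAt p ((1 - ψ (p : ZMod (3 ^ K)) * (p : ℂ) ^ (m - 1)) * (((3 ^ K : ℕ) : ℂ) ^ (m - 1) *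
      ∑ a ∈ range (3 ^ K), ψ (a : ZMod (3 ^ K)) *
        (((Polynomial.bernoulli m).eval ((a : ℚ) / (3 ^ K : ℕ)) : ℚ) : ℂ)) / m) := by
  have : NeZero (3 ^ K) := ⟨by positivity⟩
  have hN : 1 < 3 ^ K := Nat.one_lt_pow (by omega) (by norm_num)
  have hpN : ¬ p ∣ 3 ^ K := fun h => by
    have h1 := (Nat.prime_dvd_prime_iff_eq hp Nat.prime_three).1 (hp.dvd_of_dvd_pow h)
    omega
  refine unit_of_not_dvd hN (gK K) (gK_spec K) ψ hψ hm hpar hp hmp hpN fun hD => hb ?_
  obtain ⟨h0, -⟩ := DD_ne_zero hN (gK K) (gK_spec K) ψ hψ hm hpar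
  unfold bad
  rw [mem_biUnion]
  refine ⟨orderOf (ψ (gK K)), ?_, ?_⟩
  · rw [mem_filter, Nat.mem_divisors]
    refine ⟨⟨?_, (Nat.totient_pos.2 (by omega)).ne'⟩, h0⟩
    apply orderOf_dvd_of_pow_eq_one
    rw [← map_pow, ← Units.val_pow_eq_pow_val, ZMod.pow_totient, Units.val_one, map_one]
  · rw [Nat.mem_primeFactors]
    exact ⟨hp, hD, Int.natAbs_ne_zero.2 h0⟩

/-- the exceptional primes for the trivial character -/
noncomputable def bad0 (m : ℕ) : Finset ℕ := (_root_.bernoulli m).num.natAbs.primeFactors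

lemma num_le (m : ℕ) (hm : 1 ≤ m) : (_root_.bernoulli m).num.natAbs ≤ (m + 1).factorial * (m + 1).factorial := by
  obtain ⟨z, hz⟩ := bern_int m
  by_cases h0 : _root_.bernoulli m = 0
  · rw [h0]
    simp
  have hf : (((m + 1).factorial : ℕ) : ℚ) ≠ 0 := by exact_mod_cast (Nat.factorial_pos _).ne'
  have h1 : _root_.bernoulli m = (z : ℚ) / (((m + 1).factorial : ℕ) : ℤ) := by
    push_cast
    field_simp
    linear_combination hz
  have h2 : (_root_.bernoulli m).num ∣ z := by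
    rw [h1, ← Rat.divInt_eq_div]
    exact Rat.num_dvd z (by exact_mod_cast (Nat.factorial_pos _).ne')
  have hz0 : z ≠ 0 := by
    rintro rfl
    apply h0
    rw [h1]
    simp
  have h3 : (_root_.bernoulli m).num.natAbs ≤ z.natAbs :=
    Nat.le_of_dvd (Int.natAbs_pos.2 hz0) (Int.natAbs_dvd_natAbs.2 h2)
  refine h3.trans ?_
  have h4 : ((z.natAbs : ℕ) : ℚ) = |(z : ℚ)| := by
    rw [Nat.cast_natAbs]
    simp
  have h5 : ((z.natAbs : ℕ) : ℚ) ≤ (((m + 1).factorial * (m + 1).factorial : ℕ) : ℚ) := by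
    rw [h4, ← hz, abs_mul, Nat.abs_cast]
    push_cast
    refine mul_le_mul_of_nonneg_left ?_ (by positivity)
    calc |_root_.bernoulli m| ≤ (m.factorial : ℚ) := abs_bernoulli_le m
      _ ≤ ((m + 1).factorial : ℚ) := by exact_mod_cast Nat.factorial_le (by omega)
  exact_mod_cast h5

lemma card_bad0 {m s : ℕ} (hm1 : 1 ≤ m) (hm : m + 1 ≤ 2 ^ s) : (bad0 m).card ≤ s * (2 * (m + 1)) := by
  unfold bad0
  by_cases h0 : (_root_.bernoulli m).num.natAbs = 0
  · rw [h0]
    simp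
  refine card_pf h0 ((num_le m hm1).trans ?_)
  have h1 : (m + 1).factorial ≤ (2 ^ s) ^ (m + 1) := (Nat.factorial_le_pow (m + 1)).trans (Nat.pow_le_pow_left hm _)
  calc (m + 1).factorial * (m + 1).factorial ≤ (2 ^ s) ^ (m + 1) * (2 ^ s) ^ (m + 1) := Nat.mul_le_mul h1 h1
    _ = 2 ^ (s * (2 * (m + 1))) := by
        rw [← pow_mul, ← pow_add]
        congr 1
        ring

lemma bernoulli_ne {m : ℕ} (hm : Even m) : _root_.bernoulli m ≠ 0 := by
  obtain ⟨k, hk⟩ := hm
  rcases Nat.eq_zero_or_pos k with h0 | h0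
  · subst h0
    subst hk
    simp
  have hk2 : m = 2 * k := by omega
  subst hk2
  intro h
  have h1 := hasSum_zeta_nat (k := k) h0.ne'
  rw [h] at h1
  simp only [Rat.cast_zero, mul_zero, zero_div] at h1
  have h2 := le_hasSum h1 1 (fun j _ => by positivity)
  simp at h2
  linarith

/-- the value for the trivial character -/
lemma unit_zero {m p : ℕ} (hp : p.Prime) (hm : 2 ≤ m) (he : Even m) (hmp : m + 1 < p) (hb : p ∉ bad0 m) :
    IsUnitAt p ((1 - (p : ℂ) ^ (m - 1)) * ((_root_.bernoulli m : ℚ) : ℂ) / m) := by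
  have hB := bernoulli_ne he
  set b := _root_.bernoulli m with hbdef
  have hnum : ¬ p ∣ b.num.natAbs := by
    intro h
    apply hb
    unfold bad0
    rw [Nat.mem_primeFactors]
    exact ⟨hp, h, Int.natAbs_ne_zero.2 (Rat.num_ne_zero.2 hB)⟩
  have hden : ¬ p ∣ b.den := by
    intro h
    obtain ⟨z, hz⟩ := bern_int m
    have h1 : b.den ∣ (m + 1).factorial := by
      have hf : (((m + 1).factorial : ℕ) : ℚ) ≠ 0 := by exact_mod_cast (Nat.factorial_pos _).ne'
      have h2 : b = (z : ℚ) / (((m + 1).factorial : ℕ) : ℤ) := by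
        push_cast
        field_simp
        linear_combination hz
      rw [h2, ← Rat.divInt_eq_div]
      have h3 := Rat.den_dvd z (((m + 1).factorial : ℕ) : ℤ)
      exact_mod_cast h3
    have h2 := (hp.dvd_factorial).1 (h.trans h1)
    omega
  have hpm : ¬ p ∣ m := fun h => by
    have := Nat.le_of_dvd (by omega) h
    omega
  have hbC : ((b : ℚ) : ℂ) = ((b.num : ℤ) : ℂ) / ((b.den : ℕ) : ℂ) := by
    rw [Rat.cast_def]
  have hval : ∀ B : ValuationSubring ℂ, B.valuation (p : ℂ) < 1 →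
      B.valuation ((1 - (p : ℂ) ^ (m - 1)) * ((b : ℚ) : ℂ) / m) = 1 := by
    intro B hBv
    have hDv : B.valuation ((b.num : ℤ) : ℂ) = 1 := by
      have h1 := nat_val hp hBv hnum
      rcases Int.natAbs_eq b.num with h2 | h2
      · rw [h2, Int.cast_natCast]
        exact h1
      · rw [h2, Int.cast_neg, Valuation.map_neg, Int.cast_natCast]
        exact h1
    have hEv : B.valuation (1 - (p : ℂ) ^ (m - 1)) = 1 := by
      have h1 : B.valuation ((p : ℂ) ^ (m - 1)) < 1 := by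
        rw [map_pow]
        exact pow_lt_one' hBv (by omega)
      rw [Valuation.map_sub_swap]
      have h3 := Valuation.map_sub_eq_of_lt_right (v := B.valuation)
        (x := (p : ℂ) ^ (m - 1)) (y := (1 : ℂ)) (by rw [map_one]; exact h1)
      rw [h3, map_one]
    rw [hbC, map_div₀, map_mul, map_div₀, hEv, hDv, nat_val hp hBv hden, nat_val hp hBv hpm]
    simp
  refine unit_of_val hp ?_ hval
  intro h1
  obtain ⟨B, hB⟩ := exists_over hp
  have h2 := hval B hB
  rw [h1, map_zero] at h2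
  exact zero_ne_one h2

end Pool.Agent.Y18.GX
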