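import Pool.Agent.Y18.GX.Red

/-!
# Decomposition of a character modulo `N₁ ℓ^K`
-/

set_option autoImplicit false

namespace Pool.Agent.Y18.GX

open Finset Polynomial

section
variable {N₁ Q : ℕ} (h : N₁.Coprime Q) (ψ : DirichletCharacter ℂ (N₁ * Q))

noncomputable def fst : MulChar (ZMod N₁) ℂ where
  toFun x := ψ ((ZMod.chineseRemainder h).symm (x, 1))
  map_one' := by
    have : ((1 : ZMod N₁), (1 : ZMod Q)) = 1 := rfl
    rw [this, map_one, map_one]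
  map_mul' x y := by
    have : ((x * y : ZMod N₁), (1 : ZMod Q)) = (x, 1) * (y, 1) := by simp
    rw [this, map_mul, map_mul]
  map_nonunit' x hx := by
    apply ψ.map_nonunit
    intro h1
    apply hx
    have h2 := h1.map (ZMod.chineseRemainder h)
    rw [RingEquiv.apply_symm_apply, Prod.isUnit_iff] at h2
    exact h2.1

noncomputable def snd : MulChar (ZMod Q) ℂ where
  toFun x := ψ ((ZMod.chineseRemainder h).symm (1, x))
  map_one' := by
    have : ((1 : ZMod N₁), (1 : ZMod Q)) = 1 := rfl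
    rw [this, map_one, map_one]
  map_mul' x y := by
    have : ((1 : ZMod N₁), (x * y : ZMod Q)) = (1, x) * (1, y) := by simp
    rw [this, map_mul, map_mul]
  map_nonunit' x hx := by
    apply ψ.map_nonunit
    intro h1
    apply hx
    have h2 := h1.map (ZMod.chineseRemainder h)
    rw [RingEquiv.apply_symm_apply, Prod.isUnit_iff] at h2
    exact h2.2

lemma dec_mul (x : ZMod (N₁ * Q)) : ψ x = fst h ψ ((ZMod.chineseRemainder h) x).1 *
    snd h ψ ((ZMod.chineseRemainder h) x).2 := by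
  have h1 : fst h ψ ((ZMod.chineseRemainder h) x).1 * snd h ψ ((ZMod.chineseRemainder h) x).2 =
      ψ ((ZMod.chineseRemainder h).symm (((ZMod.chineseRemainder h) x).1, 1)) *
      ψ ((ZMod.chineseRemainder h).symm (1, ((ZMod.chineseRemainder h) x).2)) := rfl
  rw [h1, ← map_mul, ← map_mul]
  simp

lemma dec_nat (a : ℕ) : ψ (a : ZMod (N₁ * Q)) = fst h ψ (a : ZMod N₁) * snd h ψ (a : ZMod Q) := by
  rw [dec_mul h ψ, map_natCast]
  rfl

lemma dec_neg : ψ (-1) = fst h ψ (-1) * snd h ψ (-1) := by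
  rw [dec_mul h ψ, map_neg, map_one]
  rfl

lemma snd_apply (x : ZMod Q) : snd h ψ x = ψ ((ZMod.chineseRemainder h).symm (1, x)) := rfl

end

/-- primitivity of the second component -/
lemma snd_prim {N₁ ℓ K : ℕ} (h : N₁.Coprime (ℓ ^ K)) (hℓ : ℓ.Prime) (hK : 2 ≤ K) (hN : N₁ ≠ 0)
    (ψ : DirichletCharacter ℂ (N₁ * ℓ ^ K)) (hc : ℓ ^ K ∣ ψ.conductor) :
    snd h ψ ((1 + ℓ ^ (K - 1) : ℕ) : ZMod (ℓ ^ K)) ≠ 1 := by
  intro h1
  have : NeZero (N₁ * ℓ ^ K) := ⟨mul_ne_zero hN (pow_ne_zero _ hℓ.ne_zero)⟩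
  have : NeZero (ℓ ^ K) := ⟨pow_ne_zero _ hℓ.ne_zero⟩
  have hd : N₁ * ℓ ^ (K - 1) ∣ N₁ * ℓ ^ K := Nat.mul_dvd_mul_left _ (pow_dvd_pow _ (by omega))
  have h2 : ψ.FactorsThrough (N₁ * ℓ ^ (K - 1)) := by
    rw [DirichletCharacter.factorsThrough_iff_ker_unitsMap hd]
    intro U hU
    rw [MonoidHom.mem_ker] at hU ⊢
    -- `U = 1` modulo `N₁ ℓ^(K-1)`
    have h3 : ((U : ZMod (N₁ * ℓ ^ K)).cast : ZMod (N₁ * ℓ ^ (K - 1))) = 1 := by
      have := congrArg Units.val hU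
      simpa [ZMod.unitsMap] using this
    set a := (U : ZMod (N₁ * ℓ ^ K)).val with ha
    have haU : ((a : ℕ) : ZMod (N₁ * ℓ ^ K)) = U := by rw [ha, ZMod.natCast_val, ZMod.cast_id', id_eq]
    have h4 : a ≡ 1 [MOD N₁ * ℓ ^ (K - 1)] := by
      rw [← ZMod.natCast_eq_natCast_iff, Nat.cast_one, ← h3, ha, ZMod.natCast_val]
    have h5 : ((a : ℕ) : ZMod N₁) = 1 := by
      rw [← Nat.cast_one, ZMod.natCast_eq_natCast_iff]
      exact h4.of_dvd (dvd_mul_right _ _)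
    have h6 : a ≡ 1 [MOD ℓ ^ (K - 1)] := h4.of_dvd (dvd_mul_left _ _)
    have ha0 : a ≠ 0 := by
      intro h0
      rw [h0] at h6
      have h7 := (Nat.modEq_iff_dvd' (Nat.zero_le 1)).1 h6
      have h8 := Nat.dvd_one.1 h7
      exact (Nat.one_lt_pow (by omega) hℓ.one_lt).ne' h8
    obtain ⟨y, hy⟩ := (Nat.modEq_iff_dvd' (Nat.pos_of_ne_zero ha0)).1 h6.symm
    have h7 : a = 1 + ℓ ^ (K - 1) * y := by omega
    have h8 : snd h ψ (a : ZMod (ℓ ^ K)) = 1 := by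
      rw [h7, psi_one_add (n := 1) (snd h ψ) (by omega), h1, one_pow]
    have h9 : ψ (U : ZMod (N₁ * ℓ ^ K)) = 1 := by
      rw [← haU, dec_nat h ψ, h5, h8, map_one, one_mul]
    apply Units.ext
    rw [MulChar.coe_toUnitHom, h9, Units.val_one]
  have h3 := DirichletCharacter.conductor_dvd_of_mem_conductorSet (χ := ψ) (d := N₁ * ℓ ^ (K - 1)) h2
  have h4 : ℓ ^ K ∣ ℓ ^ (K - 1) := (Nat.Coprime.dvd_of_dvd_mul_left h.symm (hc.trans h3))
  have h5 := (Nat.pow_dvd_pow_iff_le_right hℓ.one_lt).1 h4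
  omega

/-- the sum of a nontrivial character -/
lemma sum_char {N : ℕ} (hN : N ≠ 0) (ψ : DirichletCharacter ℂ N) (h : ψ ≠ 1) :
    ∑ a ∈ range N, ψ (a : ZMod N) = 0 := by
  have : NeZero N := ⟨hN⟩
  have h1 := MulChar.sum_eq_zero_of_ne_one h
  rw [← h1]
  refine Finset.sum_bij (fun a _ => (a : ZMod N)) (fun _ _ => mem_univ _) ?_ ?_ (fun _ _ => rfl)
  · intro a ha b hb hab
    rw [ZMod.natCast_eq_natCast_iff', Nat.mod_eq_of_lt (mem_range.1 ha), Nat.mod_eq_of_lt (mem_range.1 hb)] at hab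
    exact hab
  · intro x _
    exact ⟨x.val, mem_range.2 (ZMod.val_lt x), by simp⟩

end Pool.Agent.Y18.GX
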