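import Pool.Agent.Y18.GX.Core

/-!
# The Euler factor at `p`
-/

set_option autoImplicit false

namespace Pool.Agent.Y18.GX

open Finset Polynomial

section
variable {k : Type*} [Field k] {p : ℕ} [Fact p.Prime] [CharP k p]

theorem euler {ℓ n K N₁ g u : ℕ} (ψ₁ : MulChar (ZMod N₁) k) (ψ₂ : MulChar (ZMod (ℓ ^ K)) k)
    (hA : Adm ℓ (p ^ g)) (hn1 : 1 ≤ n) (hn : 2 * n ≤ K) (h3 : 3 ≤ ℓ ^ n)
    (hq : p ^ g - 1 = ℓ ^ n * u) (hu : u.Coprime ℓ) (hψ₁ : ∀ a, ψ₁ a ^ p ^ g = ψ₁ a)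
    (hprim : ψ₂ ((1 + ℓ ^ (K - 1) : ℕ) : ZMod (ℓ ^ K)) ≠ 1) (hpℓ : p ≠ ℓ)
    (hsize : N₁ * ℓ ^ (2 * n) ≤ ℓ ^ K) :
    ψ₁ (p : ZMod N₁) * ψ₂ (p : ZMod (ℓ ^ K)) ≠ 1 := by
  intro h1
  have hℓ := hA.prime
  have hp := (Fact.out : p.Prime)
  have hx0 : ψ₁ (p : ZMod N₁) ≠ 0 := left_ne_zero_of_mul_eq_one h1
  have hq1 : 1 ≤ p ^ g := Nat.one_le_pow _ _ hp.pos
  have hx : ψ₁ (p : ZMod N₁) ^ (p ^ g - 1) = 1 := by
    have h2 := hψ₁ (p : ZMod N₁)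
    have h4 : ψ₁ (p : ZMod N₁) ^ (p ^ g - 1) * ψ₁ (p : ZMod N₁) = 1 * ψ₁ (p : ZMod N₁) := by
      rw [← pow_succ, Nat.sub_add_cancel hq1, one_mul, h2]
    exact mul_right_cancel₀ hx0 h4
  have hy : ψ₂ (p : ZMod (ℓ ^ K)) ^ (p ^ g - 1) = 1 := by
    have h2 := congrArg (fun z => z ^ (p ^ g - 1)) h1
    simp only [mul_pow, hx, one_mul, one_pow] at h2
    exact h2
  have hcop : p.Coprime ℓ := (Nat.coprime_primes hp hℓ).2 hpℓ
  have hker := kernel ψ₂ hA hn hn1 hprim hq hu hcop hy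
  have hdvd : ℓ ^ (K - n) ∣ p ^ g - 1 := by
    rcases hker with h2 | h2
    · have h4 : 1 ≡ p [MOD ℓ ^ (K - n)] := (Nat.modEq_iff_dvd' hp.one_lt.le).2 h2
      have h5 := h4.pow g
      rw [one_pow] at h5
      exact (Nat.modEq_iff_dvd' hq1).1 h5
    · -- `p = -1`
      have h4 : ((ℓ ^ (K - n) : ℕ) : ℤ) ∣ (p : ℤ) - (-1) := by
        rw [sub_neg_eq_add]
        exact_mod_cast h2
      have h5 : (p : ℤ) ≡ -1 [ZMOD ((ℓ ^ (K - n) : ℕ) : ℤ)] := (Int.modEq_iff_dvd.2 (by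
        have := dvd_neg.2 h4
        rwa [neg_sub] at this))
      have h6 := h5.pow g
      rcases Nat.even_or_odd g with hg | hg
      · rw [hg.neg_one_pow] at h6
        have h7 := (Int.modEq_iff_dvd.1 h6.symm)
        have h8 : ((ℓ ^ (K - n) : ℕ) : ℤ) ∣ ((p ^ g - 1 : ℕ) : ℤ) := by
          rw [Nat.cast_sub hq1]
          push_cast at h7 ⊢
          exact h7
        exact_mod_cast h8
      · exfalso
        rw [hg.neg_one_pow] at h6
        have h7 : ((ℓ ^ n : ℕ) : ℤ) ∣ (-1) - (p : ℤ) ^ g :=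
          dvd_trans (by exact_mod_cast pow_dvd_pow ℓ (by omega : n ≤ K - n)) (Int.modEq_iff_dvd.1 h6)
        have h8 : ((ℓ ^ n : ℕ) : ℤ) ∣ (p : ℤ) ^ g - 1 := by
          have h9 : ((p ^ g - 1 : ℕ) : ℤ) = (p : ℤ) ^ g - 1 := by
            rw [Nat.cast_sub hq1]
            push_cast
            rfl
          rw [← h9, hq]
          push_cast
          exact dvd_mul_right _ _
        have h9 := dvd_add h7 h8
        have h10 : (-1 : ℤ) - (p : ℤ) ^ g + ((p : ℤ) ^ g - 1) = -2 := by ring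
        rw [h10, dvd_neg] at h9
        have h11 := Int.le_of_dvd (by norm_num) h9
        have h12 : (3 : ℤ) ≤ ((ℓ ^ n : ℕ) : ℤ) := by exact_mod_cast h3
        omega
  have hKn : K = 2 * n := by
    by_contra hne
    have h2 : ℓ ^ (n + 1) ∣ ℓ ^ n * u := by
      rw [← hq]
      exact (pow_dvd_pow _ (by omega)).trans hdvd
    rw [pow_succ] at h2
    have h4 : ℓ ∣ u := Nat.dvd_of_mul_dvd_mul_left (Nat.pos_of_ne_zero (pow_ne_zero _ hℓ.ne_zero)) h2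
    have h5 := Nat.dvd_gcd h4 dvd_rfl
    rw [hu] at h5
    exact hℓ.one_lt.ne' (Nat.dvd_one.1 h5)
  have hN1 : N₁ ≤ 1 := by
    rw [hKn] at hsize
    have hpos : 0 < ℓ ^ (2 * n) := Nat.pos_of_ne_zero (pow_ne_zero _ hℓ.ne_zero)
    by_contra hcon
    have : 2 * ℓ ^ (2 * n) ≤ N₁ * ℓ ^ (2 * n) := Nat.mul_le_mul_right _ (by omega)
    omega
  have hx1 : ψ₁ (p : ZMod N₁) = 1 := by
    rcases Nat.lt_or_ge N₁ 1 with h2 | h2
    · -- `N₁ = 0`: impossible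
      have h4 : N₁ = 0 := by omega
      subst h4
      exfalso
      apply hx0
      apply ψ₁.map_nonunit
      intro h5
      have h6 : IsUnit (p : ℤ) := h5
      rw [Int.isUnit_iff] at h6
      have := hp.two_le
      omega
    · have h4 : N₁ = 1 := by omega
      subst h4
      rw [Subsingleton.elim (p : ZMod 1) 1, map_one]
  rw [hx1, one_mul] at h1
  have h2 : ψ₂ ((1 + ℓ ^ (K - n) * u : ℕ) : ZMod (ℓ ^ K)) = 1 := by
    have h4 : 1 + ℓ ^ (K - n) * u = p ^ g := by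
      have : K - n = n := by omega
      rw [this, ← hq]
      omega
    rw [h4]
    push_cast
    rw [map_pow, h1, one_pow]
  rw [psi_one_add ψ₂ hn] at h2
  have h4 := psi_M_pow ψ₂ hn
  have h5 : ψ₂ ((1 + ℓ ^ (K - n) : ℕ) : ZMod (ℓ ^ K)) = 1 := by
    have h6 := Nat.dvd_gcd (orderOf_dvd_of_pow_eq_one h2) (orderOf_dvd_of_pow_eq_one h4)
    rw [Nat.Coprime.pow_right n hu] at h6
    exact orderOf_eq_one_iff.1 (Nat.dvd_one.1 h6)
  apply hprim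
  rw [← psi_M_pow' ψ₂ hn hn1, h5, one_pow]

end

end Pool.Agent.Y18.GX
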