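import Pool.Agent.Y18.GX.Count

/-!
# The norms of the generalized Bernoulli numbers for a general modulus
-/

set_option autoImplicit false

namespace Pool.Agent.Y18.GX

open Finset Polynomial

/-- a primitive root of unity -/
noncomputable def zt (e : ℕ) : ℂ := Complex.exp (2 * Real.pi * Complex.I / e)

lemma zt_prim {e : ℕ} (he : e ≠ 0) : IsPrimitiveRoot (zt e) e := Complex.isPrimitiveRoot_exp e he

lemma order_pos {N : ℕ} [NeZero N] (ψ : DirichletCharacter ℂ N) : 0 < orderOf ψ := orderOf_pos ψ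

lemma exists_exp {N : ℕ} [NeZero N] (ψ : DirichletCharacter ℂ N) (a : ZMod N) :
    ∃ k : ℕ, IsUnit a → ψ a = zt (orderOf ψ) ^ k := by
  by_cases ha : IsUnit a
  · obtain ⟨u, rfl⟩ := ha
    have h1 : ψ (u : ZMod N) ^ orderOf ψ = 1 := by
      rw [← MulChar.pow_apply_coe, pow_orderOf_eq_one, MulChar.one_apply_coe]
    have : NeZero (orderOf ψ) := ⟨(order_pos ψ).ne'⟩
    obtain ⟨k, -, hk⟩ := (zt_prim (order_pos ψ).ne').eq_pow_of_pow_eq_one h1
    exact ⟨k, fun _ => hk.symm⟩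
  · exact ⟨0, fun h => absurd h ha⟩

/-- the exponents -/
noncomputable def kk {N : ℕ} [NeZero N] (ψ : DirichletCharacter ℂ N) (a : ZMod N) : ℕ :=
  Classical.choose (exists_exp ψ a)

lemma kk_spec {N : ℕ} [NeZero N] (ψ : DirichletCharacter ℂ N) {a : ZMod N} (ha : IsUnit a) :
    ψ a = zt (orderOf ψ) ^ kk ψ a := Classical.choose_spec (exists_exp ψ a) ha

open Classical in
/-- the polynomial -/
noncomputable def RG (m : ℕ) {N : ℕ} [NeZero N] (ψ : DirichletCharacter ℂ N) : ℤ[X] :=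
  ∑ a ∈ (range N).filter (fun a : ℕ => IsUnit (a : ZMod N)), C (GG m N a) * X ^ kk ψ (a : ZMod N)

lemma RG_eval (m : ℕ) {N : ℕ} [NeZero N] (ψ : DirichletCharacter ℂ N) (j : ℕ) :
    (RG m ψ).eval₂ (Int.castRingHom ℂ) (zt (orderOf ψ) ^ j) = TT m (ψ ^ j) := by
  classical
  have h2 : TT m (ψ ^ j) = ∑ a ∈ (range N).filter (fun a : ℕ => IsUnit (a : ZMod N)),
      (ψ ^ j) (a : ZMod N) * ((GG m N a : ℤ) : ℂ) := by
    rw [TT, Finset.sum_filter]
    refine Finset.sum_congr rfl fun a _ => ?_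
    split_ifs with h
    · rfl
    · rw [MulChar.map_nonunit _ h, zero_mul]
  rw [h2, RG, eval₂_finset_sum]
  refine Finset.sum_congr rfl fun a ha => ?_
  have hu := (mem_filter.1 ha).2
  obtain ⟨u, hu'⟩ := hu
  rw [eval₂_mul, eval₂_C, eval₂_X_pow, ← hu', MulChar.pow_apply_coe, kk_spec ψ (Units.isUnit u), eq_intCast,
    ← pow_mul, ← pow_mul, mul_comm j]
  ring

lemma RG_le (m : ℕ) {N : ℕ} [NeZero N] (ψ : DirichletCharacter ℂ N) (ζ : ℂ) (hζ : ‖ζ‖ = 1) :
    ‖(RG m ψ).eval₂ (Int.castRingHom ℂ) ζ‖ ≤ BB m N := by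
  classical
  rw [RG, eval₂_finset_sum]
  calc ‖∑ a ∈ (range N).filter (fun a : ℕ => IsUnit (a : ZMod N)), eval₂ (Int.castRingHom ℂ) ζ
        (C (GG m N a) * X ^ kk ψ (a : ZMod N))‖
      ≤ ∑ a ∈ (range N).filter (fun a : ℕ => IsUnit (a : ZMod N)), ‖eval₂ (Int.castRingHom ℂ) ζ
        (C (GG m N a) * X ^ kk ψ (a : ZMod N))‖ := norm_sum_le _ _
    _ ≤ ∑ a ∈ (range N).filter (fun a : ℕ => IsUnit (a : ZMod N)),
        ((m * (m.factorial * m.factorial) * N ^ m : ℕ) : ℝ) := by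
        refine Finset.sum_le_sum fun a ha => ?_
        rw [eval₂_mul, eval₂_C, eval₂_X_pow, norm_mul, norm_pow, hζ, one_pow, mul_one, eq_intCast,
          Complex.norm_intCast]
        exact_mod_cast GG_le m N a (mem_range.1 (mem_filter.1 ha).1).le
    _ ≤ ∑ a ∈ range N, ((m * (m.factorial * m.factorial) * N ^ m : ℕ) : ℝ) :=
        Finset.sum_le_sum_of_subset_of_nonneg (Finset.filter_subset _ _) (fun _ _ _ => by positivity)
    _ = BB m N := by
        rw [Finset.sum_const, card_range, nsmul_eq_mul]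
        unfold BB
        rw [Nat.cast_mul N]

/-- the norm -/
noncomputable def DG (m : ℕ) {N : ℕ} [NeZero N] (ψ : DirichletCharacter ℂ N) : ℤ :=
  (Pool.Agent.TH487.RP.MM (orderOf ψ) (RG m ψ)).det

lemma DG_eq (m : ℕ) {N : ℕ} [NeZero N] (ψ : DirichletCharacter ℂ N) :
    ((DG m ψ : ℤ) : ℂ) = ∏ ζ ∈ primitiveRoots (orderOf ψ) ℂ, (RG m ψ).eval₂ (Int.castRingHom ℂ) ζ :=
  Pool.Agent.TH487.RP.det_MM _ (order_pos ψ) _

lemma DG_le (m : ℕ) {N : ℕ} [NeZero N] (ψ : DirichletCharacter ℂ N) :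
    (DG m ψ).natAbs ≤ (BB m N) ^ (orderOf ψ).totient := by
  have hd := order_pos ψ
  have h1 : (((DG m ψ).natAbs : ℕ) : ℝ) = ‖((DG m ψ : ℤ) : ℂ)‖ := by
    rw [Complex.norm_intCast, Nat.cast_natAbs]
    simp
  have h2 : (((DG m ψ).natAbs : ℕ) : ℝ) ≤ (BB m N : ℝ) ^ (orderOf ψ).totient := by
    rw [h1, DG_eq, norm_prod]
    calc ∏ ζ ∈ primitiveRoots (orderOf ψ) ℂ, ‖(RG m ψ).eval₂ (Int.castRingHom ℂ) ζ‖
        ≤ ∏ ζ ∈ primitiveRoots (orderOf ψ) ℂ, (BB m N : ℝ) := by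
          refine Finset.prod_le_prod (fun _ _ => norm_nonneg _) fun ζ hζ => ?_
          refine RG_le m ψ ζ ?_
          exact (isPrimitiveRoot_of_mem_primitiveRoots hζ).norm'_eq_one hd.ne'
      _ = (BB m N : ℝ) ^ (orderOf ψ).totient := by
          rw [Finset.prod_const, (Complex.isPrimitiveRoot_exp _ hd.ne').card_primitiveRoots]
  exact_mod_cast h2

lemma exists_inv {j d : ℕ} (hj : j.Coprime d) : ∃ e, j * e ≡ 1 [MOD d] := by
  rcases Nat.lt_or_ge 1 d with h4 | h4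
  · obtain ⟨e, -, he⟩ := Nat.exists_mul_mod_eq_one_of_coprime hj h4
    exact ⟨e, by rw [Nat.ModEq, he, Nat.mod_eq_of_lt h4]⟩
  · rcases Nat.eq_zero_or_pos d with h0 | h0
    · subst h0
      rw [Nat.coprime_zero_right] at hj
      exact ⟨1, by rw [hj]⟩
    · have : d = 1 := by omega
      exact ⟨1, by rw [this]; exact Nat.modEq_one⟩

lemma DG_pow (m : ℕ) {N : ℕ} [NeZero N] (ψ : DirichletCharacter ℂ N) {j : ℕ} (hj : j.Coprime (orderOf ψ)) :
    DG m (ψ ^ j) = DG m ψ := by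
  have hd := order_pos ψ
  have hord : orderOf (ψ ^ j) = orderOf ψ := Nat.Coprime.orderOf_pow hj.symm
  have : NeZero (orderOf ψ) := ⟨hd.ne'⟩
  have h : ((DG m (ψ ^ j) : ℤ) : ℂ) = ((DG m ψ : ℤ) : ℂ) := by
    rw [DG_eq, DG_eq, hord]
    obtain ⟨e, he⟩ := exists_inv hj
    have hpow : ∀ ζ ∈ primitiveRoots (orderOf ψ) ℂ, ζ ^ (j * e) = ζ := by
      intro ζ hζ
      have h1 := (isPrimitiveRoot_of_mem_primitiveRoots hζ).pow_eq_one
      rw [pow_eq_pow_mod (j * e) h1, he, ← pow_eq_pow_mod 1 h1, pow_one]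
    have hec : e.Coprime (orderOf ψ) := by
      have h1 : Nat.gcd (j * e) (orderOf ψ) = 1 := by
        rw [he.gcd_eq, Nat.gcd_one_left]
      exact Nat.Coprime.coprime_mul_left h1
    refine Finset.prod_nbij' (fun ζ => ζ ^ j) (fun ζ => ζ ^ e) ?_ ?_ ?_ ?_ ?_
    · intro ζ hζ
      rw [mem_primitiveRoots hd] at hζ ⊢
      exact hζ.pow_of_coprime j hj
    · intro ζ hζ
      rw [mem_primitiveRoots hd] at hζ ⊢
      exact hζ.pow_of_coprime e hec
    · intro ζ hζ
      rw [← pow_mul]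
      exact hpow ζ hζ
    · intro ζ hζ
      rw [← pow_mul, mul_comm]
      exact hpow ζ hζ
    · intro ζ hζ
      obtain ⟨i, -, -, hi⟩ := ((zt_prim hd.ne').isPrimitiveRoot_iff).1 (isPrimitiveRoot_of_mem_primitiveRoots hζ)
      have h1 := RG_eval m (ψ ^ j) i
      rw [hord, ← pow_mul] at h1
      rw [← hi, h1, ← pow_mul, RG_eval, mul_comm]
  exact_mod_cast h

/-- the powers of a primitive character of the right parity -/
lemma pow_good {N : ℕ} [NeZero N] {m : ℕ} (ψ : DirichletCharacter ℂ N) (hψ : ψ.IsPrimitive)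
    (hpar : ψ (-1) = (-1) ^ m) {j : ℕ} (hj : j.Coprime (orderOf ψ)) :
    (ψ ^ j).IsPrimitive ∧ (ψ ^ j) (-1) = (-1) ^ m := by
  set d := orderOf ψ with hd
  have h2 : ψ ^ d = 1 := pow_orderOf_eq_one ψ
  have hneg : ((-1 : (ZMod N)ˣ) : ZMod N) = -1 := by simp
  constructor
  · rw [DirichletCharacter.isPrimitive_def] at hψ ⊢
    have h1 : (ψ ^ j).conductor ∣ ψ.conductor := DirichletCharacter.conductor_pow_dvd ψ j
    obtain ⟨e, he⟩ := exists_inv hj
    have h3 : (ψ ^ j) ^ e = ψ := by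
      rw [← pow_mul, pow_eq_pow_mod (j * e) h2, he, ← pow_eq_pow_mod 1 h2, pow_one]
    have h4 : ψ.conductor ∣ (ψ ^ j).conductor := by
      conv_lhs => rw [← h3]
      exact DirichletCharacter.conductor_pow_dvd (ψ ^ j) e
    exact (Nat.dvd_antisymm h1 h4).trans hψ
  · rw [← hneg, MulChar.pow_apply_coe, hneg, hpar]
    rcases Nat.even_or_odd m with he | ho
    · rw [he.neg_one_pow, one_pow]
    · rw [ho.neg_one_pow]
      have h3 : (-1 : ℂ) ^ d = 1 := by
        have h4 : (ψ ^ d) ((-1 : (ZMod N)ˣ) : ZMod N) = 1 := by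
          rw [h2, MulChar.one_apply (Units.isUnit _)]
        rw [MulChar.pow_apply_coe, hneg, hpar, ho.neg_one_pow] at h4
        exact h4
      have hde : Even d := by
        by_contra hcon
        rw [Nat.not_even_iff_odd] at hcon
        rw [hcon.neg_one_pow] at h3
        norm_num at h3
      have hjo : Odd j := by
        by_contra hcon
        rw [Nat.not_odd_iff_even] at hcon
        have h5 := Nat.dvd_gcd hcon.two_dvd hde.two_dvd
        rw [hj] at h5
        omega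
      exact hjo.neg_one_pow

lemma DG_ne_zero {N : ℕ} [NeZero N] (hN : 1 < N) (ψ : DirichletCharacter ℂ N) (hψ : ψ.IsPrimitive) {m : ℕ}
    (hm : 2 ≤ m) (hpar : ψ (-1) = (-1) ^ m) :
    DG m ψ ≠ 0 ∧ ∃ y : ℂ, IsIntegral ℤ y ∧ TT m ψ * y = ((DG m ψ : ℤ) : ℂ) := by
  have hd0 := order_pos ψ
  have hprim := zt_prim hd0.ne'
  have : NeZero (orderOf ψ) := ⟨hd0.ne'⟩
  have hfac : ∀ ζ ∈ primitiveRoots (orderOf ψ) ℂ, ∃ χ : DirichletCharacter ℂ N, χ.IsPrimitive ∧
      χ (-1) = (-1) ^ m ∧ (RG m ψ).eval₂ (Int.castRingHom ℂ) ζ = TT m χ := by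
    intro ζ hζ
    obtain ⟨j, -, hjc, hjζ⟩ := (hprim.isPrimitiveRoot_iff).1 (isPrimitiveRoot_of_mem_primitiveRoots hζ)
    obtain ⟨h1, h2⟩ := pow_good ψ hψ hpar hjc
    exact ⟨ψ ^ j, h1, h2, by rw [← hjζ, RG_eval]⟩
  constructor
  · intro h0
    have h3 : ((DG m ψ : ℤ) : ℂ) = 0 := by rw [h0, Int.cast_zero]
    rw [DG_eq, Finset.prod_eq_zero_iff] at h3
    obtain ⟨ζ, hζ, hζ0⟩ := h3
    obtain ⟨χ, h4, h5, h6⟩ := hfac ζ hζ
    rw [h6] at hζ0
    exact TT_ne_zero hN χ h4 hm h5 hζ0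
  · have hmem : zt (orderOf ψ) ∈ primitiveRoots (orderOf ψ) ℂ := (mem_primitiveRoots hd0).2 hprim
    refine ⟨∏ ζ ∈ (primitiveRoots (orderOf ψ) ℂ).erase (zt (orderOf ψ)), (RG m ψ).eval₂ (Int.castRingHom ℂ) ζ, ?_, ?_⟩
    · refine IsIntegral.prod _ fun ζ hζ => ?_
      obtain ⟨χ, -, -, h6⟩ := hfac ζ (Finset.mem_of_mem_erase hζ)
      rw [h6]
      exact TT_int (by omega) m χ
    · have h7 : TT m ψ = (RG m ψ).eval₂ (Int.castRingHom ℂ) (zt (orderOf ψ)) := by
        have := RG_eval m ψ 1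
        rw [pow_one, pow_one] at this
        exact this.symm
      rw [DG_eq, h7]
      exact Finset.mul_prod_erase (primitiveRoots (orderOf ψ) ℂ)
        (fun ζ => (RG m ψ).eval₂ (Int.castRingHom ℂ) ζ) hmem

/-- the values are units at `p` if `p` does not divide the norm -/
theorem unit_of_not_dvd' {N : ℕ} [NeZero N] (hN : 1 < N) (ψ : DirichletCharacter ℂ N) (hψ : ψ.IsPrimitive) {m : ℕ}
    (hm : 2 ≤ m) (hpar : ψ (-1) = (-1) ^ m) {p : ℕ} (hp : p.Prime) (hmp : m < p) (hpN : ¬ p ∣ N)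
    (hD : ¬ p ∣ (DG m ψ).natAbs) :
    IsUnitAt p ((1 - ψ (p : ZMod N) * (p : ℂ) ^ (m - 1)) * ((N : ℂ) ^ (m - 1) *
      ∑ a ∈ range N, ψ (a : ZMod N) * (((Polynomial.bernoulli m).eval ((a : ℚ) / N) : ℚ) : ℂ)) / m) := by
  obtain ⟨h0, y, hy, hTy⟩ := DG_ne_zero hN ψ hψ hm hpar
  set D := DG m ψ with hDdef
  have hψ1 : ψ ≠ 1 := by
    intro h
    rw [h, DirichletCharacter.isPrimitive_def, DirichletCharacter.conductor_one] at hψ
    omega
  have hT := TT_sum (by omega) (by omega) m ψ hψ1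
  have hT0 := TT_ne_zero hN ψ hψ hm hpar
  have hTi := TT_int (by omega : N ≠ 0) m ψ
  set S := ∑ a ∈ range N, ψ (a : ZMod N) * (((Polynomial.bernoulli m).eval ((a : ℚ) / N) : ℚ) : ℂ) with hS
  set E := 1 - ψ (p : ZMod N) * (p : ℂ) ^ (m - 1) with hE
  have hN0 : (N : ℂ) ≠ 0 := by exact_mod_cast (by omega : N ≠ 0)
  have hm0 : (m : ℂ) ≠ 0 := by exact_mod_cast (by omega : m ≠ 0)
  have hf0 : ((m.factorial : ℕ) : ℂ) ≠ 0 := by exact_mod_cast (Nat.factorial_pos m).ne'
  have hz : E * ((N : ℂ) ^ (m - 1) * S) / m = E * TT m ψ / ((N : ℂ) * ((m.factorial : ℕ) : ℂ) * m) := by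
    rw [hT]
    have h1 : (N : ℂ) ^ m = (N : ℂ) ^ (m - 1) * N := by
      rw [← pow_succ]
      congr 1
      omega
    rw [h1]
    field_simp
  rw [hz]
  have hpm : ¬ p ∣ m := fun h => by
    have := Nat.le_of_dvd (by omega) h
    omega
  have hpf : ¬ p ∣ m.factorial := fun h => by
    have := (hp.dvd_factorial).1 h
    omega
  have hval : ∀ B : ValuationSubring ℂ, B.valuation (p : ℂ) < 1 →
      B.valuation (E * TT m ψ / ((N : ℂ) * ((m.factorial : ℕ) : ℂ) * m)) = 1 := by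
    intro B hB
    -- integral elements
    have hint : ∀ z : ℂ, IsIntegral ℤ z → z ∈ B := by
      intro z hz
      have h1 : IsIntegral B z := hz.tower_top
      obtain ⟨w, hw⟩ := IsIntegrallyClosed.isIntegral_iff.mp h1
      rw [← hw]
      exact w.2
    have hDv : B.valuation ((D : ℤ) : ℂ) = 1 := by
      have h1 := nat_val hp hB hD
      rcases Int.natAbs_eq D with h2 | h2
      · rw [h2, Int.cast_natCast]
        exact h1
      · rw [h2, Int.cast_neg, Valuation.map_neg, Int.cast_natCast]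
        exact h1
    have hTv : B.valuation (TT m ψ) = 1 := by
      have h1 : B.valuation (TT m ψ) ≤ 1 := (B.valuation_le_one_iff _).2 (hint _ hTi)
      have h2 : B.valuation y ≤ 1 := (B.valuation_le_one_iff _).2 (hint _ hy)
      have h3 := congrArg B.valuation hTy
      rw [map_mul, hDv] at h3
      refine le_antisymm h1 ?_
      calc (1 : B.ValueGroup) = B.valuation (TT m ψ) * B.valuation y := h3.symm
        _ ≤ B.valuation (TT m ψ) * 1 := mul_le_mul_right h2 _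
        _ = B.valuation (TT m ψ) := mul_one _
    have hEv : B.valuation E = 1 := by
      have h1 : B.valuation (ψ (p : ZMod N) * (p : ℂ) ^ (m - 1)) < 1 := by
        rw [map_mul, map_pow]
        have h2 : B.valuation (ψ (p : ZMod N)) ≤ 1 :=
          (B.valuation_le_one_iff _).2 (char_mem B (by omega : N ≠ 0) ψ _)
        calc B.valuation (ψ (p : ZMod N)) * B.valuation (p : ℂ) ^ (m - 1)
            ≤ 1 * B.valuation (p : ℂ) ^ (m - 1) := mul_le_mul_left h2 _
          _ = B.valuation (p : ℂ) ^ (m - 1) := one_mul _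
          _ < 1 := pow_lt_one' hB (by omega)
      rw [hE, Valuation.map_sub_swap]
      have h3 := Valuation.map_sub_eq_of_lt_right (v := B.valuation)
        (x := ψ (p : ZMod N) * (p : ℂ) ^ (m - 1)) (y := (1 : ℂ)) (by rw [map_one]; exact h1)
      rw [h3, map_one]
    rw [map_div₀, map_mul, map_mul, map_mul, hEv, hTv, nat_val hp hB hpN, nat_val hp hB hpm, nat_val hp hB hpf]
    simp
  refine unit_of_val hp ?_ hval
  intro h1
  obtain ⟨B, hB⟩ := exists_over hp
  have h2 := hval B hB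
  rw [h1, map_zero] at h2
  exact zero_ne_one h2

lemma BB_le' {N m s : ℕ} (hN : N ≤ 2 ^ s) (hm : m ≤ 2 ^ s) : BB m N ≤ 2 ^ (s * (3 * m + 2)) := by
  unfold BB
  have h1 : m.factorial ≤ (2 ^ s) ^ m := (Nat.factorial_le_pow m).trans (Nat.pow_le_pow_left hm m)
  calc N * (m * (m.factorial * m.factorial) * N ^ m)
      ≤ 2 ^ s * (2 ^ s * ((2 ^ s) ^ m * (2 ^ s) ^ m) * (2 ^ s) ^ m) :=
        Nat.mul_le_mul hN (Nat.mul_le_mul (Nat.mul_le_mul hm (Nat.mul_le_mul h1 h1)) (Nat.pow_le_pow_left hN m))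
    _ = 2 ^ (s * (3 * m + 2)) := by
        rw [← pow_mul, ← pow_add, ← pow_add, ← pow_add, ← pow_add]
        congr 1
        ring

open Classical in
/-- the primitive characters of parity `m` -/
noncomputable def PP (N m : ℕ) : Finset (DirichletCharacter ℂ N) :=
  (Finset.univ : Finset (DirichletCharacter ℂ N)).filter fun ψ => ψ.IsPrimitive ∧ ψ (-1) = (-1) ^ m

open Classical in
/-- the exceptional primes for the conductor `N` and the index `m` -/
noncomputable def badG (N m : ℕ) : Finset ℕ :=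
  if h : N = 0 then ∅ else
    have : NeZero N := ⟨h⟩
    (PP N m).biUnion fun ψ => (DG m ψ).natAbs.primeFactors

lemma badG_eq {N m : ℕ} [hN : NeZero N] :
    badG N m = (PP N m).biUnion fun ψ => (DG m ψ).natAbs.primeFactors := by
  unfold badG
  rw [dif_neg hN.out]

lemma PP_card (N m : ℕ) [NeZero N] : (PP N m).card ≤ N := by
  classical
  calc (PP N m).card ≤ Fintype.card (DirichletCharacter ℂ N) := by
        unfold PP
        exact Finset.card_le_univ _
    _ = N.totient := by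
        rw [← Nat.card_eq_fintype_card, DirichletCharacter.card_eq_totient_of_hasEnoughRootsOfUnity]
    _ ≤ N := Nat.totient_le N

lemma card_badG {N m s : ℕ} (hN1 : 1 < N) (hm2 : 2 ≤ m) (hN : N ≤ 2 ^ s) (hm : m ≤ 2 ^ s) :
    (badG N m).card ≤ N * (s * (3 * m + 2)) := by
  classical
  have : NeZero N := ⟨by omega⟩
  rw [badG_eq]
  set U := (PP N m).biUnion (fun ψ => (DG m ψ).natAbs.primeFactors) with hU
  set L := s * (3 * m + 2) with hL
  have hone : ∀ p ∈ U, (1 : ℚ) ≤ ∑ ψ ∈ PP N m,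
      if p ∈ (DG m ψ).natAbs.primeFactors then (((orderOf ψ).totient : ℕ) : ℚ)⁻¹ else 0 := by
    intro p hp
    rw [hU, mem_biUnion] at hp
    obtain ⟨ψ, hψ, hpψ⟩ := hp
    have hψ' := (mem_filter.1 hψ).2
    have hd0 := order_pos ψ
    set J := (range (orderOf ψ)).filter (fun j => (orderOf ψ).Coprime j) with hJ
    have hJc : J.card = (orderOf ψ).totient := by
      rw [hJ, Nat.totient_eq_card_coprime]
    set S := J.image (fun j => ψ ^ j) with hS
    have hSc : S.card = (orderOf ψ).totient := by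
      rw [hS, card_image_of_injOn, hJc]
      intro i hi j hj hij
      have hi' := mem_range.1 (mem_filter.1 (mem_coe.1 hi)).1
      have hj' := mem_range.1 (mem_filter.1 (mem_coe.1 hj)).1
      exact pow_injOn_Iio_orderOf hi' hj' hij
    have hSsub : S ⊆ PP N m := by
      intro χ hχ
      obtain ⟨j, hj, rfl⟩ := mem_image.1 hχ
      exact mem_filter.2 ⟨mem_univ _, pow_good ψ hψ'.1 hψ'.2 (mem_filter.1 hj).2.symm⟩
    calc (1 : ℚ) = ∑ χ ∈ S, (((orderOf ψ).totient : ℕ) : ℚ)⁻¹ := by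
          rw [sum_const, hSc, nsmul_eq_mul, mul_inv_cancel₀]
          exact_mod_cast (Nat.totient_pos.2 hd0).ne'
      _ = ∑ χ ∈ S, if p ∈ (DG m χ).natAbs.primeFactors then (((orderOf χ).totient : ℕ) : ℚ)⁻¹ else 0 := by
          refine sum_congr rfl fun χ hχ => ?_
          obtain ⟨j, hj, rfl⟩ := mem_image.1 hχ
          have hj' := (mem_filter.1 hj).2
          rw [DG_pow m ψ hj'.symm, if_pos hpψ, Nat.Coprime.orderOf_pow hj']
      _ ≤ ∑ χ ∈ PP N m, if p ∈ (DG m χ).natAbs.primeFactors then (((orderOf χ).totient : ℕ) : ℚ)⁻¹ else 0 := by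
          refine sum_le_sum_of_subset_of_nonneg hSsub fun χ _ _ => ?_
          split_ifs
          · positivity
          · exact le_rfl
  have h1 : (U.card : ℚ) ≤ ((PP N m).card : ℚ) * L := by
    calc (U.card : ℚ) = ∑ p ∈ U, (1 : ℚ) := by simp
      _ ≤ ∑ p ∈ U, ∑ ψ ∈ PP N m,
          (if p ∈ (DG m ψ).natAbs.primeFactors then (((orderOf ψ).totient : ℕ) : ℚ)⁻¹ else 0) := sum_le_sum hone
      _ = ∑ ψ ∈ PP N m, ∑ p ∈ U,
          (if p ∈ (DG m ψ).natAbs.primeFactors then (((orderOf ψ).totient : ℕ) : ℚ)⁻¹ else 0) := sum_comm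
      _ ≤ ∑ ψ ∈ PP N m, (L : ℚ) := by
          refine sum_le_sum fun ψ hψ => ?_
          have hψ' := (mem_filter.1 hψ).2
          have hd0 := order_pos ψ
          have ht : (0 : ℚ) < (((orderOf ψ).totient : ℕ) : ℚ) := by exact_mod_cast Nat.totient_pos.2 hd0
          obtain ⟨hne, -⟩ := DG_ne_zero hN1 ψ hψ'.1 hm2 hψ'.2
          have h2 : (DG m ψ).natAbs.primeFactors.card ≤ L * (orderOf ψ).totient := by
            refine card_pf (Int.natAbs_ne_zero.2 hne) ?_
            calc (DG m ψ).natAbs ≤ (BB m N) ^ (orderOf ψ).totient := DG_le m ψ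
              _ ≤ (2 ^ L) ^ (orderOf ψ).totient := Nat.pow_le_pow_left (BB_le' hN hm) _
              _ = 2 ^ (L * (orderOf ψ).totient) := by rw [← pow_mul]
          rw [← sum_filter, sum_const, nsmul_eq_mul]
          have h3 : ((U.filter fun p => p ∈ (DG m ψ).natAbs.primeFactors).card : ℚ) ≤ L * (orderOf ψ).totient := by
            have h4 : (U.filter fun p => p ∈ (DG m ψ).natAbs.primeFactors).card ≤ L * (orderOf ψ).totient :=
              (card_le_card fun p hp => (mem_filter.1 hp).2).trans h2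
            exact_mod_cast h4
          calc ((U.filter fun p => p ∈ (DG m ψ).natAbs.primeFactors).card : ℚ) * (((orderOf ψ).totient : ℕ) : ℚ)⁻¹
              ≤ (L * (orderOf ψ).totient) * (((orderOf ψ).totient : ℕ) : ℚ)⁻¹ :=
                mul_le_mul_of_nonneg_right h3 (by positivity)
            _ = L := by field_simp
      _ = ((PP N m).card : ℚ) * L := by rw [sum_const, nsmul_eq_mul]
  have h2 : U.card ≤ (PP N m).card * L := by exact_mod_cast h1
  exact h2.trans (Nat.mul_le_mul_right _ (PP_card N m))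

/-- outside `badG` the values are units -/
lemma unit_of_not_badG {N m p : ℕ} (hN : 1 < N) (ψ : DirichletCharacter ℂ N) (hψ : ψ.IsPrimitive)
    (hm : 2 ≤ m) (hpar : ψ (-1) = (-1) ^ m) (hp : p.Prime) (hmp : m < p) (hpN : ¬ p ∣ N) (hb : p ∉ badG N m) :
    IsUnitAt p ((1 - ψ (p : ZMod N) * (p : ℂ) ^ (m - 1)) * ((N : ℂ) ^ (m - 1) *
      ∑ a ∈ range N, ψ (a : ZMod N) * (((Polynomial.bernoulli m).eval ((a : ℚ) / N) : ℚ) : ℂ)) / m) := by
  classical
  have : NeZero N := ⟨by omega⟩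
  refine unit_of_not_dvd' hN ψ hψ hm hpar hp hmp hpN fun hD => hb ?_
  obtain ⟨h0, -⟩ := DG_ne_zero hN ψ hψ hm hpar
  rw [badG_eq, mem_biUnion]
  refine ⟨ψ, ?_, ?_⟩
  · exact mem_filter.2 ⟨mem_univ _, hψ, hpar⟩
  · rw [Nat.mem_primeFactors]
    exact ⟨hp, hD, Int.natAbs_ne_zero.2 h0⟩

end Pool.Agent.Y18.GX
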