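import Pool.Agent.Y18.GX.Trace

/-!
# The kernel of a power of a primitive character modulo a power of `2` or `3`
-/

set_option autoImplicit false

namespace Pool.Agent.Y18.GX

lemma one_add_pow_of_sq {R : Type*} [CommRing R] (y : R) (hy : y ^ 2 = 0) (t : ℕ) :
    (1 + y) ^ t = 1 + t * y := by
  induction t with
  | zero => simp
  | succ t ih =>
    rw [pow_succ, ih]
    push_cast
    linear_combination (t : R) * hy

/-- the iterates -/
lemma pow_iter {ℓ d r x : ℕ} (hA : Adm ℓ d) (hd : d = 1 + ℓ ^ r * x) (hx : x.Coprime ℓ) (j : ℕ) :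
    ∃ y, d ^ ℓ ^ j = 1 + ℓ ^ (r + j) * y ∧ y.Coprime ℓ := by
  induction j with
  | zero => exact ⟨x, by simpa using hd, hx⟩
  | succ j ih =>
    obtain ⟨y, hy, hyc⟩ := ih
    obtain ⟨v, hv, hvc⟩ := (hA.pow (ℓ ^ j)).geom
    have h1 : 1 ≤ d ^ ℓ ^ j := Nat.one_le_pow _ _ (by omega)
    have h2 := pow_sub_one_geom (d ^ ℓ ^ j) ℓ h1
    rw [hv, ← pow_mul, ← pow_succ] at h2
    have h3 : 1 ≤ d ^ ℓ ^ (j + 1) := Nat.one_le_pow _ _ (by omega)
    refine ⟨y * v, ?_, Nat.Coprime.mul_left hyc hvc⟩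
    have h4 : d ^ ℓ ^ j - 1 = ℓ ^ (r + j) * y := by omega
    rw [h4] at h2
    have h5 : d ^ ℓ ^ (j + 1) = 1 + (d ^ ℓ ^ (j + 1) - 1) := by omega
    rw [h5, h2, ← add_assoc, pow_succ]
    ring

section
variable {k : Type*} [Field k] {ℓ K n : ℕ} (ψ : MulChar (ZMod (ℓ ^ K)) k)

lemma M_sq (hn : 2 * n ≤ K) : ((ℓ ^ (K - n) : ℕ) : ZMod (ℓ ^ K)) ^ 2 = 0 := by
  have : ((ℓ ^ (K - n) : ℕ) : ZMod (ℓ ^ K)) ^ 2 = ((ℓ ^ (2 * (K - n)) : ℕ) : ZMod (ℓ ^ K)) := by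
    push_cast
    rw [← pow_mul, mul_comm]
  rw [this, ZMod.natCast_eq_zero_iff]
  exact pow_dvd_pow _ (by omega)

/-- `ψ (1 + M t) = ψ (1 + M) ^ t` -/
lemma psi_one_add (hn : 2 * n ≤ K) (t : ℕ) :
    ψ ((1 + ℓ ^ (K - n) * t : ℕ) : ZMod (ℓ ^ K)) = ψ ((1 + ℓ ^ (K - n) : ℕ) : ZMod (ℓ ^ K)) ^ t := by
  rw [← map_pow]
  congr 1
  have h := one_add_pow_of_sq ((ℓ ^ (K - n) : ℕ) : ZMod (ℓ ^ K)) (M_sq hn) t
  push_cast at h ⊢
  rw [h]
  ring

lemma psi_M_pow (hn : 2 * n ≤ K) : ψ ((1 + ℓ ^ (K - n) : ℕ) : ZMod (ℓ ^ K)) ^ ℓ ^ n = 1 := by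
  rw [← psi_one_add ψ hn]
  have : ((1 + ℓ ^ (K - n) * ℓ ^ n : ℕ) : ZMod (ℓ ^ K)) = 1 := by
    rw [← pow_add, Nat.sub_add_cancel (by omega)]
    push_cast
    have h := ZMod.natCast_self (ℓ ^ K)
    push_cast at h
    rw [h, add_zero]
  rw [this, map_one]

lemma psi_M_pow' (hn : 2 * n ≤ K) (hn1 : 1 ≤ n) : ψ ((1 + ℓ ^ (K - n) : ℕ) : ZMod (ℓ ^ K)) ^ ℓ ^ (n - 1) =
    ψ ((1 + ℓ ^ (K - 1) : ℕ) : ZMod (ℓ ^ K)) := by
  rw [← psi_one_add ψ hn, ← pow_add]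
  congr 5
  omega

/-- powers of a nontrivial root of unity of prime order -/
lemma ne_one_of_coprime {τ : k} (h1 : τ ≠ 1) {x : ℕ} (h2 : τ ^ ℓ = 1) (hx : x.Coprime ℓ) : τ ^ x ≠ 1 := by
  intro h3
  apply h1
  have h4 : orderOf τ ∣ 1 := by
    rw [← hx]
    exact Nat.dvd_gcd (orderOf_dvd_of_pow_eq_one h3) (orderOf_dvd_of_pow_eq_one h2)
  exact orderOf_eq_one_iff.1 (Nat.dvd_one.1 h4)

/-- If `ψ(c)^(q-1) = 1` then `c` is `±1` modulo `ℓ^(K-n)`. -/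
theorem kernel {q u c : ℕ} (hA : Adm ℓ q) (hn : 2 * n ≤ K) (hn1 : 1 ≤ n)
    (hprim : ψ ((1 + ℓ ^ (K - 1) : ℕ) : ZMod (ℓ ^ K)) ≠ 1) (hq : q - 1 = ℓ ^ n * u) (hu : u.Coprime ℓ)
    (hc : c.Coprime ℓ) (h1 : ψ (c : ZMod (ℓ ^ K)) ^ (q - 1) = 1) :
    ℓ ^ (K - n) ∣ c - 1 ∨ ℓ ^ (K - n) ∣ c + 1 := by
  have hℓ := hA.prime
  have hτ : ψ ((1 + ℓ ^ (K - 1) : ℕ) : ZMod (ℓ ^ K)) ^ ℓ = 1 := by
    have := psi_M_pow ψ (n := 1) (by omega)
    rwa [pow_one] at this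
  -- the square of `c`
  have hAc : Adm ℓ (c ^ 2) := by
    rcases hA with ⟨h2, -⟩ | ⟨h2, -⟩
    · refine Or.inl ⟨h2, ?_⟩
      subst h2
      have h3 : c % 3 = 1 ∨ c % 3 = 2 := by
        have : ¬ 3 ∣ c := fun h => by
          have := Nat.dvd_gcd h (dvd_refl 3)
          rw [hc] at this
          omega
        omega
      rw [Nat.pow_mod]
      rcases h3 with h3 | h3 <;> rw [h3]
    · refine Or.inr ⟨h2, ?_⟩
      subst h2
      have h3 : c % 4 = 1 ∨ c % 4 = 3 := by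
        have : ¬ 2 ∣ c := fun h => by
          have := Nat.dvd_gcd h (dvd_refl 2)
          rw [hc] at this
          omega
        omega
      rw [Nat.pow_mod]
      rcases h3 with h3 | h3 <;> rw [h3]
  have hc0 : c ≠ 0 := by
    rintro rfl
    rw [Nat.coprime_zero_left] at hc
    exact hℓ.one_lt.ne' hc
  have key : ∀ r x : ℕ, c ^ 2 = 1 + ℓ ^ r * x → x.Coprime ℓ → r ≤ K - 1 →
      ¬ ℓ ^ n ∣ 2 * ℓ ^ (K - 1 - r) := by
    intro r x hx hxc hr hdvd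
    obtain ⟨y, hy, hyc⟩ := pow_iter hAc hx hxc (K - 1 - r)
    have h3 : r + (K - 1 - r) = K - 1 := by omega
    rw [h3] at hy
    have h4 : ψ (c : ZMod (ℓ ^ K)) ^ (2 * ℓ ^ (K - 1 - r)) =
        ψ ((1 + ℓ ^ (K - 1) : ℕ) : ZMod (ℓ ^ K)) ^ y := by
      rw [← psi_one_add ψ (n := 1) (by omega), ← map_pow]
      congr 1
      rw [← hy, pow_mul]
      push_cast
      rfl
    obtain ⟨w, hw⟩ := hdvd
    have h5 : (ψ (c : ZMod (ℓ ^ K)) ^ (2 * ℓ ^ (K - 1 - r))) ^ u = 1 := by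
      rw [hw, ← pow_mul, show ℓ ^ n * w * u = (q - 1) * w by rw [hq]; ring, pow_mul, h1, one_pow]
    rw [h4, ← pow_mul] at h5
    exact ne_one_of_coprime hprim hτ (Nat.Coprime.mul_left hyc hu) h5
  have key2 : ∀ s, 1 ≤ s → s ≤ K → (∀ r, r < s → ℓ ^ n ∣ 2 * ℓ ^ (K - 1 - r)) → ℓ ^ s ∣ c ^ 2 - 1 := by
    intro s hs hsK hs2
    by_contra hcon
    have h3 : c ^ 2 - 1 ≠ 0 := by
      intro h
      rw [h] at hcon
      exact hcon (dvd_zero _)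
    obtain ⟨r, x, hx, hx2⟩ := Nat.exists_eq_pow_mul_and_not_dvd h3 ℓ hℓ.ne_one
    have h4 : r < s := by
      by_contra h
      apply hcon
      rw [hx2]
      exact (pow_dvd_pow _ (not_lt.1 h)).mul_right _
    have h5 : c ^ 2 = 1 + ℓ ^ r * x := by
      rw [← hx2]
      have : 1 ≤ c ^ 2 := Nat.one_le_pow _ _ (Nat.pos_of_ne_zero hc0)
      omega
    exact key r x h5 ((Nat.Prime.coprime_iff_not_dvd hℓ).2 hx).symm (by omega) (hs2 r h4)
  have hfac : c ^ 2 - 1 = (c - 1) * (c + 1) := by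
    obtain ⟨e, rfl⟩ := Nat.exists_eq_succ_of_ne_zero hc0
    simp only [Nat.succ_eq_add_one, Nat.add_sub_cancel]
    have : (e + 1) ^ 2 = e * (e + 1 + 1) + 1 := by ring
    omega
  rcases hA with ⟨h2, -⟩ | ⟨h2, -⟩
  · subst h2
    have h3 : 3 ^ (K - n) ∣ (c - 1) * (c + 1) := by
      rw [← hfac]
      refine key2 (K - n) (by omega) (by omega) fun r hr => ?_
      exact Dvd.dvd.mul_left (pow_dvd_pow _ (by omega)) _
    by_cases h4 : 3 ∣ c + 1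
    · right
      refine Nat.Coprime.dvd_of_dvd_mul_left ?_ h3
      apply Nat.Coprime.pow_left
      rw [Nat.Prime.coprime_iff_not_dvd Nat.prime_three]
      omega
    · left
      refine Nat.Coprime.dvd_of_dvd_mul_right ?_ h3
      apply Nat.Coprime.pow_left
      rwa [Nat.Prime.coprime_iff_not_dvd Nat.prime_three]
  · subst h2
    have hodd : c % 2 = 1 := by
      have : ¬ 2 ∣ c := fun h => by
        have := Nat.dvd_gcd h (dvd_refl 2)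
        rw [hc] at this
        omega
      omega
    have h3 : 2 ^ (K - n + 1) ∣ (c - 1) * (c + 1) := by
      rw [← hfac]
      refine key2 (K - n + 1) (by omega) (by omega) fun r hr => ?_
      have : 2 * 2 ^ (K - 1 - r) = 2 ^ (K - 1 - r + 1) := by ring
      rw [this]
      exact pow_dvd_pow _ (by omega)
    obtain ⟨y, rfl⟩ : ∃ y, c = 2 * y + 1 := ⟨c / 2, by omega⟩
    have e1 : (2 * y + 1 - 1) * (2 * y + 1 + 1) = 4 * (y * (y + 1)) := by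
      rw [Nat.add_sub_cancel]
      ring
    rw [e1] at h3
    have h4 : 2 ^ (K - n) ∣ 2 * (y * (y + 1)) := by
      have : (4 : ℕ) * (y * (y + 1)) = 2 * (2 * (y * (y + 1))) := by ring
      rw [this, pow_succ, mul_comm (2 ^ (K - n)) 2] at h3
      exact Nat.dvd_of_mul_dvd_mul_left (by norm_num) h3
    rcases Nat.even_or_odd y with hy | hy
    · left
      have h5 : Nat.Coprime (2 ^ (K - n)) (y + 1) := by
        apply Nat.Coprime.pow_left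
        rw [Nat.Prime.coprime_iff_not_dvd Nat.prime_two]
        obtain ⟨z, hz⟩ := hy
        omega
      have h6 : 2 * (y * (y + 1)) = (2 * y) * (y + 1) := by ring
      rw [h6] at h4
      exact Nat.Coprime.dvd_of_dvd_mul_right h5 h4
    · right
      have h5 : Nat.Coprime (2 ^ (K - n)) y := by
        apply Nat.Coprime.pow_left
        rw [Nat.Prime.coprime_iff_not_dvd Nat.prime_two]
        obtain ⟨z, hz⟩ := hy
        omega
      have h6 : 2 * (y * (y + 1)) = y * (2 * y + 1 + 1) := by ring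
      rw [h6] at h4
      exact Nat.Coprime.dvd_of_dvd_mul_left h5 h4

/-- conversely -/
theorem kernel_conv {q u c : ℕ} (hn : 2 * n ≤ K) (hodd : Even (q - 1)) (hq : q - 1 = ℓ ^ n * u)
    (hc0 : c ≠ 0) (hK : 1 ≤ ℓ ^ K) (h1 : ℓ ^ (K - n) ∣ c - 1 ∨ ℓ ^ (K - n) ∣ c + 1) :
    ψ (c : ZMod (ℓ ^ K)) ^ (q - 1) = 1 := by
  have key : ∀ y : ℕ, ψ ((1 + ℓ ^ (K - n) * y : ℕ) : ZMod (ℓ ^ K)) ^ (q - 1) = 1 := by
    intro y
    rw [psi_one_add ψ hn, hq, ← pow_mul, show y * (ℓ ^ n * u) = ℓ ^ n * (y * u) by ring, pow_mul,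
      psi_M_pow ψ hn, one_pow]
  rcases h1 with ⟨y, hy⟩ | ⟨y, hy⟩
  · have : c = 1 + ℓ ^ (K - n) * y := by omega
    rw [this]
    exact key y
  · -- `-c` is `1` modulo `M`
    have h2 : (c : ZMod (ℓ ^ K)) = (-1) * ((1 + ℓ ^ (K - n) * ((ℓ ^ K - 1) * y) : ℕ) : ZMod (ℓ ^ K)) := by
      have h3 : (c : ZMod (ℓ ^ K)) + 1 = ((ℓ ^ (K - n) * y : ℕ) : ZMod (ℓ ^ K)) := by
        rw [← hy]
        push_cast
        rfl
      have h4 : ((ℓ ^ K - 1 : ℕ) : ZMod (ℓ ^ K)) = -1 := by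
        rw [Nat.cast_sub hK, ZMod.natCast_self]
        simp
      rw [Nat.cast_add, Nat.cast_mul, Nat.cast_mul, h4]
      rw [Nat.cast_mul] at h3
      push_cast at h3 ⊢
      linear_combination h3
    rw [h2, map_mul, mul_pow, key, mul_one]
    obtain ⟨w, hw⟩ := hodd
    have h5 : ψ (-1) ^ 2 = 1 := by
      rw [← map_pow]
      simp
    rw [hw, ← two_mul, pow_mul, h5, one_pow]

end

end Pool.Agent.Y18.GX
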