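import Pool.Agent.Y18.GX.Count

/-!
# The powers of `2` and `3` dividing `p ^ (2 h) - 1`
-/

set_option autoImplicit false

namespace Pool.Agent.Y18.GX

open Finset

lemma sq_mod_three {p : ℕ} (h : ¬ 3 ∣ p) : 3 ∣ p ^ 2 - 1 := by
  have h2 : p % 3 = 1 ∨ p % 3 = 2 := by omega
  have h1 : p ^ 2 % 3 = 1 := by
    rw [Nat.pow_mod]
    rcases h2 with h2 | h2 <;> rw [h2]
  omega

lemma sq_mod_eight {p : ℕ} (h : ¬ 2 ∣ p) : 8 ∣ p ^ 2 - 1 := by
  have h2 : p % 8 = 1 ∨ p % 8 = 3 ∨ p % 8 = 5 ∨ p % 8 = 7 := by omega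
  have h1 : p ^ 2 % 8 = 1 := by
    rw [Nat.pow_mod]
    rcases h2 with h2 | h2 | h2 | h2 <;> rw [h2]
  omega

lemma lte {p ℓ : ℕ} (hp : p.Prime) (h5 : 5 ≤ p) (hℓ : ℓ = 2 ∨ ℓ = 3) {n₀ h n : ℕ} (hh : 1 ≤ h)
    (h1 : ¬ ℓ ^ n₀ ∣ p ^ 2 - 1) (hn : ℓ ^ n ∣ p ^ (2 * h) - 1) : ℓ ^ n ≤ ℓ ^ (n₀ - 1) * h := by
  have hℓp : ℓ.Prime := by rcases hℓ with rfl | rfl <;> norm_num
  have hfact : Fact ℓ.Prime := ⟨hℓp⟩
  have hpℓ : ¬ ℓ ∣ p := fun h => by
    have := (Nat.prime_dvd_prime_iff_eq hℓp hp).1 h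
    omega
  have hp1 : 1 ≤ p ^ 2 := Nat.one_le_pow _ _ hp.pos
  have hp2 : 1 ≤ (p ^ 2) ^ h := Nat.one_le_pow _ _ (by omega)
  have hpos : p ^ 2 - 1 ≠ 0 := by
    have : 5 ^ 2 ≤ p ^ 2 := Nat.pow_le_pow_left h5 2
    omega
  have hmul : emultiplicity ((ℓ : ℕ) : ℤ) (((p ^ 2 : ℕ) : ℤ) ^ h - 1 ^ h) =
      emultiplicity ((ℓ : ℕ) : ℤ) (((p ^ 2 : ℕ) : ℤ) - 1) + emultiplicity ((ℓ : ℕ) : ℤ) ((h : ℕ) : ℤ) := by
    rcases hℓ with rfl | rfl
    · refine Int.two_pow_sub_pow' h ?_ ?_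
      · have h3 := sq_mod_eight hpℓ
        have h4 : (4 : ℕ) ∣ p ^ 2 - 1 := (by norm_num : 4 ∣ 8).trans h3
        have h5 : ((4 : ℕ) : ℤ) ∣ ((p ^ 2 - 1 : ℕ) : ℤ) := Int.natCast_dvd_natCast.2 h4
        rw [Nat.cast_sub hp1] at h5
        exact_mod_cast h5
      · intro h3
        have h4 : ((2 : ℕ) : ℤ) ∣ ((p ^ 2 : ℕ) : ℤ) := by exact_mod_cast h3
        exact hpℓ (hℓp.dvd_of_dvd_pow (Int.natCast_dvd_natCast.1 h4))
    · have h6 := Int.emultiplicity_pow_sub_pow Nat.prime_three (by decide) (x := ((p ^ 2 : ℕ) : ℤ)) (y := 1) ?_ ?_ h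
      · rw [h6, Int.natCast_emultiplicity]
      · have h3 := sq_mod_three hpℓ
        have h5 : ((3 : ℕ) : ℤ) ∣ ((p ^ 2 - 1 : ℕ) : ℤ) := Int.natCast_dvd_natCast.2 h3
        rw [Nat.cast_sub hp1] at h5
        exact_mod_cast h5
      · intro h3
        exact hpℓ (hℓp.dvd_of_dvd_pow (Int.natCast_dvd_natCast.1 h3))
  have e1 : ((p ^ 2 : ℕ) : ℤ) ^ h - 1 ^ h = ((((p ^ 2) ^ h - 1 : ℕ)) : ℤ) := by
    rw [Nat.cast_sub hp2]
    push_cast
    ring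
  have e2 : ((p ^ 2 : ℕ) : ℤ) - 1 = (((p ^ 2 - 1 : ℕ)) : ℤ) := by
    rw [Nat.cast_sub hp1]
    push_cast
    ring
  rw [e1, e2, Int.natCast_emultiplicity, Int.natCast_emultiplicity, Int.natCast_emultiplicity,
    ← padicValNat_eq_emultiplicity hpos, ← padicValNat_eq_emultiplicity (by omega : h ≠ 0)] at hmul
  rw [pow_mul] at hn
  have h7 := pow_dvd_iff_le_emultiplicity.1 hn
  rw [hmul] at h7
  have h8 : n ≤ padicValNat ℓ (p ^ 2 - 1) + padicValNat ℓ h := by exact_mod_cast h7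
  have h9 : padicValNat ℓ (p ^ 2 - 1) < n₀ := by
    by_contra hcon
    exact h1 ((pow_dvd_pow ℓ (not_lt.1 hcon)).trans pow_padicValNat_dvd)
  have h10 : ℓ ^ padicValNat ℓ h ≤ h := Nat.le_of_dvd (by omega) pow_padicValNat_dvd
  calc ℓ ^ n ≤ ℓ ^ (padicValNat ℓ (p ^ 2 - 1) + padicValNat ℓ h) := Nat.pow_le_pow_right hℓp.pos h8
    _ = ℓ ^ padicValNat ℓ (p ^ 2 - 1) * ℓ ^ padicValNat ℓ h := pow_add _ _ _
    _ ≤ ℓ ^ (n₀ - 1) * h := Nat.mul_le_mul (Nat.pow_le_pow_right hℓp.pos (by omega)) h10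

lemma dvd_cases {p ℓ n : ℕ} (hp : p.Prime) (h5 : 5 ≤ p) (hℓ : ℓ = 2 ∨ ℓ = 3) (h : ℓ ^ (n + 1) ∣ p ^ 2 - 1) :
    ℓ ^ n ∣ p - 1 ∨ ℓ ^ n ∣ p + 1 := by
  have h1 : p ^ 2 - 1 = (p + 1) * (p - 1) := by
    have := Nat.sq_sub_sq p 1
    simpa using this
  rw [h1] at h
  rcases hℓ with rfl | rfl
  · have hodd : ¬ 2 ∣ p := fun h => by
      have := (Nat.prime_dvd_prime_iff_eq Nat.prime_two hp).1 h
      omega
    rcases (by omega : p % 4 = 1 ∨ p % 4 = 3) with h2 | h2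
    · left
      obtain ⟨u, hu⟩ : ∃ u, p + 1 = 2 * u := ⟨(p + 1) / 2, by omega⟩
      have hu2 : ¬ 2 ∣ u := by omega
      have h3 : 2 ^ n * 2 ∣ (u * (p - 1)) * 2 := by
        rw [← pow_succ]
        refine h.trans (dvd_of_eq ?_)
        rw [hu]
        ring
      have h4 := Nat.dvd_of_mul_dvd_mul_right (by norm_num) h3
      have h6 : Nat.Coprime (2 ^ n) u := by
        refine Nat.Coprime.pow_left _ ?_
        rw [Nat.Prime.coprime_iff_not_dvd Nat.prime_two]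
        exact hu2
      exact h6.dvd_of_dvd_mul_left h4
    · right
      obtain ⟨u, hu⟩ : ∃ u, p - 1 = 2 * u := ⟨(p - 1) / 2, by omega⟩
      have hu2 : ¬ 2 ∣ u := by omega
      have h3 : 2 ^ n * 2 ∣ ((p + 1) * u) * 2 := by
        rw [← pow_succ]
        refine h.trans (dvd_of_eq ?_)
        rw [hu]
        ring
      have h4 := Nat.dvd_of_mul_dvd_mul_right (by norm_num) h3
      have h6 : Nat.Coprime (2 ^ n) u := by
        refine Nat.Coprime.pow_left _ ?_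
        rw [Nat.Prime.coprime_iff_not_dvd Nat.prime_two]
        exact hu2
      exact h6.dvd_of_dvd_mul_right h4
  · have h' : 3 ^ n ∣ (p + 1) * (p - 1) := (pow_dvd_pow 3 (Nat.le_succ n)).trans h
    by_cases h3 : 3 ∣ p + 1
    · right
      have h4 : Nat.Coprime (3 ^ n) (p - 1) := by
        refine Nat.Coprime.pow_left _ ?_
        rw [Nat.Prime.coprime_iff_not_dvd Nat.prime_three]
        omega
      exact h4.dvd_of_dvd_mul_right h'
    · left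
      have h4 : Nat.Coprime (3 ^ n) (p + 1) := by
        refine Nat.Coprime.pow_left _ ?_
        rw [Nat.Prime.coprime_iff_not_dvd Nat.prime_three]
        exact h3
      exact h4.dvd_of_dvd_mul_left h'

open Classical in
/-- the primes `p ≤ Y` with `ℓ ^ (n + 1) ∣ p ^ 2 - 1` -/
noncomputable def A1 (ℓ n Y : ℕ) : Finset ℕ := (Icc 5 Y).filter fun p => p.Prime ∧ ℓ ^ (n + 1) ∣ p ^ 2 - 1

lemma card_A1 {ℓ : ℕ} (hℓ : ℓ = 2 ∨ ℓ = 3) (n Y : ℕ) :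
    (A1 ℓ n Y).card ≤ Y / ℓ ^ n + (Y + 1) / ℓ ^ n := by
  classical
  have hsub : A1 ℓ n Y ⊆
      (Icc 5 Y).filter (fun p => ℓ ^ n ∣ p - 1) ∪ (Icc 5 Y).filter (fun p => ℓ ^ n ∣ p + 1) := by
    intro p hp
    unfold A1 at hp
    rw [mem_filter] at hp
    rw [mem_union, mem_filter, mem_filter]
    rcases dvd_cases hp.2.1 (mem_Icc.1 hp.1).1 hℓ hp.2.2 with h | h
    · exact Or.inl ⟨hp.1, h⟩
    · exact Or.inr ⟨hp.1, h⟩
  refine (card_le_card hsub).trans ((card_union_le _ _).trans (Nat.add_le_add ?_ ?_))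
  · rw [← Nat.Ioc_filter_dvd_card_eq_div Y (ℓ ^ n)]
    refine card_le_card_of_injOn (fun p => p - 1) ?_ ?_
    · intro p hp
      have hp' := mem_filter.1 (mem_coe.1 hp)
      rw [mem_Icc] at hp'
      refine mem_coe.2 (mem_filter.2 ⟨mem_Ioc.2 ?_, hp'.2⟩)
      have := hp'.1
      constructor <;> simp only <;> omega
    · intro p hp q hq hpq
      have hp' := mem_filter.1 (mem_coe.1 hp)
      have hq' := mem_filter.1 (mem_coe.1 hq)
      rw [mem_Icc] at hp' hq'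
      simp only at hpq
      have := hp'.1
      have := hq'.1
      omega
  · rw [← Nat.Ioc_filter_dvd_card_eq_div (Y + 1) (ℓ ^ n)]
    refine card_le_card_of_injOn (fun p => p + 1) ?_ ?_
    · intro p hp
      have hp' := mem_filter.1 (mem_coe.1 hp)
      rw [mem_Icc] at hp'
      refine mem_coe.2 (mem_filter.2 ⟨mem_Ioc.2 ?_, hp'.2⟩)
      have := hp'.1
      constructor <;> simp only <;> omega
    · intro p _ q _ hpq
      simp only at hpq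
      omega

end Pool.Agent.Y18.GX
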