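import Mathlib

/-!
# The generalized Bernoulli numbers of primitive characters are not zero
-/

set_option autoImplicit false

namespace Pool.Agent.Y18.GX

open Finset

lemma completed_ne_zero {N : ℕ} [NeZero N] (hN : 1 < N) (χ : DirichletCharacter ℂ N) {m : ℕ} (hm : 2 ≤ m) :
    DirichletCharacter.completedLFunction χ (m : ℂ) ≠ 0 := by
  intro h
  have h1 := DirichletCharacter.LFunction_eq_completed_div_gammaFactor χ (m : ℂ) (Or.inr (by omega))
  rw [h, zero_div] at h1
  refine DirichletCharacter.LFunction_ne_zero_of_one_le_re χ (s := (m : ℂ)) (Or.inr ?_) ?_ h1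
  · intro h2
    have : m = 1 := by exact_mod_cast h2
    omega
  · simp only [Complex.natCast_re]
    exact_mod_cast (by omega : 1 ≤ m)

theorem gen_ne_zero {N : ℕ} [NeZero N] (hN : 1 < N) (ψ : DirichletCharacter ℂ N) (hψ : ψ.IsPrimitive) {m : ℕ}
    (hm : 2 ≤ m) (hpar : ψ (-1) = (-1) ^ m) :
    ∑ a ∈ range N, ψ (a : ZMod N) * (((Polynomial.bernoulli m).eval ((a : ℚ) / N) : ℚ) : ℂ) ≠ 0 := by
  intro hS
  obtain ⟨k, rfl⟩ : ∃ k, m = k + 1 := ⟨m - 1, by omega⟩
  -- the `L`-value
  have hL : DirichletCharacter.LFunction ψ (-(k : ℂ)) = 0 := by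
    unfold DirichletCharacter.LFunction ZMod.LFunction
    have h1 : ∀ j : ZMod N, ψ j * HurwitzZeta.hurwitzZeta (ZMod.toAddCircle j) (-(k : ℂ)) =
        (-1 / ((k : ℂ) + 1)) * (ψ (j.val : ZMod N) *
          (((Polynomial.bernoulli (k + 1)).eval ((j.val : ℚ) / N) : ℚ) : ℂ)) := by
      intro j
      have hx : ((j.val : ℝ) / N) ∈ Set.Icc (0 : ℝ) 1 := by
        have h2 : (j.val : ℝ) ≤ N := by exact_mod_cast (ZMod.val_lt j).le
        have h3 : (0 : ℝ) < N := by exact_mod_cast (by omega : 0 < N)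
        exact ⟨by positivity, (div_le_one h3).2 h2⟩
      rw [ZMod.toAddCircle_apply, HurwitzZeta.hurwitzZeta_neg_nat (by omega) hx, ZMod.natCast_zmod_val]
      have h4 : ((Polynomial.bernoulli (k + 1)).map (algebraMap ℚ ℂ)).eval ((((j.val : ℝ) / N : ℝ)) : ℂ) =
          (((Polynomial.bernoulli (k + 1)).eval ((j.val : ℚ) / N) : ℚ) : ℂ) := by
        have h5 : ((((j.val : ℝ) / N : ℝ)) : ℂ) = algebraMap ℚ ℂ ((j.val : ℚ) / N) := by
          rw [eq_ratCast (algebraMap ℚ ℂ)]
          push_cast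
          rfl
        rw [h5, Polynomial.eval_map_algebraMap, Polynomial.aeval_algebraMap_apply]
        simp
      rw [h4]
      ring
    rw [Finset.sum_congr rfl fun j _ => h1 j, ← Finset.mul_sum]
    have h2 : ∑ j : ZMod N, ψ (j.val : ZMod N) *
          (((Polynomial.bernoulli (k + 1)).eval ((j.val : ℚ) / N) : ℚ) : ℂ) =
        ∑ a ∈ range N, ψ (a : ZMod N) * (((Polynomial.bernoulli (k + 1)).eval ((a : ℚ) / N) : ℚ) : ℂ) := by
      refine Finset.sum_bij (fun j _ => j.val) (fun j _ => mem_range.2 (ZMod.val_lt j)) ?_ ?_ (fun _ _ => rfl)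
      · intro a _ b _ hab
        exact ZMod.val_injective N hab
      · intro b hb
        exact ⟨(b : ZMod N), mem_univ _, ZMod.val_cast_of_lt (mem_range.1 hb)⟩
    rw [h2, hS, mul_zero, mul_zero]
  -- the gamma factor
  have hG : DirichletCharacter.gammaFactor ψ (-(k : ℂ)) ≠ 0 := by
    rcases Nat.even_or_odd (k + 1) with hk | hk
    · have he : ψ.Even := by
        rw [DirichletCharacter.Even, hpar, hk.neg_one_pow]
      rw [he.gammaFactor_def]
      intro h
      obtain ⟨n, hn⟩ := Complex.Gammaℝ_eq_zero_iff.1 h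
      have h1 : (k : ℂ) = 2 * n := neg_injective hn
      have h2 : k = 2 * n := by exact_mod_cast h1
      obtain ⟨w, hw⟩ := hk
      omega
    · have ho : ψ.Odd := by
        rw [DirichletCharacter.Odd, hpar, hk.neg_one_pow]
      rw [ho.gammaFactor_def]
      intro h
      obtain ⟨n, hn⟩ := Complex.Gammaℝ_eq_zero_iff.1 h
      have h1 : (k : ℂ) = 2 * n + 1 := by linear_combination -hn
      have h2 : k = 2 * n + 1 := by exact_mod_cast h1
      obtain ⟨w, hw⟩ := hk
      omega
  -- the completed function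
  have hC : DirichletCharacter.completedLFunction ψ (-(k : ℂ)) = 0 := by
    have h1 := DirichletCharacter.LFunction_eq_completed_div_gammaFactor ψ (-(k : ℂ)) (Or.inr (by omega))
    rw [hL] at h1
    rcases div_eq_zero_iff.1 h1.symm with h2 | h2
    · exact h2
    · exact absurd h2 hG
  have hfe := DirichletCharacter.IsPrimitive.completedLFunction_one_sub hψ (((k + 1 : ℕ) : ℂ))
  have e1 : (1 : ℂ) - ((k + 1 : ℕ) : ℂ) = -(k : ℂ) := by
    push_cast
    ring
  rw [e1, hC] at hfe
  have hN0 : (N : ℂ) ≠ 0 := by exact_mod_cast (by omega : N ≠ 0)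
  rcases mul_eq_zero.1 hfe.symm with h1 | h1
  · rcases mul_eq_zero.1 h1 with h2 | h2
    · rw [Complex.cpow_eq_zero_iff] at h2
      exact hN0 h2.1
    · -- the root number would vanish
      have h3 := DirichletCharacter.IsPrimitive.completedLFunction_one_sub hψ (1 - ((2 : ℕ) : ℂ))
      rw [h2, mul_zero, zero_mul, sub_sub_cancel] at h3
      exact completed_ne_zero hN ψ le_rfl h3
  · exact completed_ne_zero hN ψ⁻¹ hm h1

end Pool.Agent.Y18.GX
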