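import Pool.Agent.TH487.RP.Alg
import Pool.Agent.Y18.GX.Dec
import Pool.Agent.Y18.GX.Nonv

/-!
# The norms of the generalized Bernoulli numbers modulo a power of `3`
-/

set_option autoImplicit false

namespace Pool.Agent.Y18.GX

open Finset Polynomial

lemma two_pow_le_fac (n : ℕ) : 2 ^ n ≤ (n + 1).factorial := by
  induction n with
  | zero => simp
  | succ n ih =>
    rw [pow_succ, Nat.factorial_succ (n + 1), mul_comm]
    exact Nat.mul_le_mul (by omega) ih

/-- `|B_i| ≤ i!` -/
lemma abs_bernoulli_le (i : ℕ) : |_root_.bernoulli i| ≤ (i.factorial : ℚ) := by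
  induction i using Nat.strong_induction_on with
  | _ i ih =>
    rcases Nat.eq_zero_or_pos i with h0 | h0
    · subst h0
      simp
    · have h1 := _root_.sum_bernoulli (i + 1)
      rw [if_neg (by omega), Finset.sum_range_succ, Nat.choose_succ_self_right] at h1
      have h2 : ((i + 1 : ℕ) : ℚ) * _root_.bernoulli i = - ∑ j ∈ range i, ((i + 1).choose j : ℚ) * _root_.bernoulli j := by
        linear_combination h1
      have h3 : ((i + 1 : ℕ) : ℚ) * |_root_.bernoulli i| ≤ ((i + 1).factorial : ℚ) := by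
        have e1 : ((i + 1 : ℕ) : ℚ) * |_root_.bernoulli i| =
            |∑ j ∈ range i, ((i + 1).choose j : ℚ) * _root_.bernoulli j| := by
          have e2 : |∑ j ∈ range i, ((i + 1).choose j : ℚ) * _root_.bernoulli j| =
              |((i + 1 : ℕ) : ℚ) * _root_.bernoulli i| := by rw [h2, abs_neg]
          rw [e2, abs_mul, Nat.abs_cast]
        rw [e1]
        calc |∑ j ∈ range i, ((i + 1).choose j : ℚ) * _root_.bernoulli j|
            ≤ ∑ j ∈ range i, |((i + 1).choose j : ℚ) * _root_.bernoulli j| := Finset.abs_sum_le_sum_abs _ _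
          _ ≤ ∑ j ∈ range i, ((i + 1).factorial : ℚ) * (1 / 2) ^ (i - j) := by
              refine Finset.sum_le_sum fun j hj => ?_
              have hj' := mem_range.1 hj
              rw [abs_mul, Nat.abs_cast]
              calc ((i + 1).choose j : ℚ) * |_root_.bernoulli j| ≤ ((i + 1).choose j : ℚ) * (j.factorial : ℚ) :=
                    mul_le_mul_of_nonneg_left (ih j hj') (by positivity)
                _ ≤ ((i + 1).factorial : ℚ) * (1 / 2) ^ (i - j) := by
                    have h4 := Nat.choose_mul_factorial_mul_factorial (show j ≤ i + 1 by omega)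
                    have h5 : 2 ^ (i - j) ≤ (i + 1 - j).factorial := by
                      have : i + 1 - j = (i - j) + 1 := by omega
                      rw [this]
                      exact two_pow_le_fac (i - j)
                    have h6 : ((i + 1).choose j : ℚ) * (j.factorial : ℚ) * ((i + 1 - j).factorial : ℚ) =
                        ((i + 1).factorial : ℚ) := by exact_mod_cast h4
                    have h7 : (2 : ℚ) ^ (i - j) ≤ ((i + 1 - j).factorial : ℚ) := by exact_mod_cast h5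
                    rw [← h6, one_div, inv_pow]
                    have h8 : (0 : ℚ) < 2 ^ (i - j) := by positivity
                    rw [← div_eq_mul_inv, le_div_iff₀ h8]
                    exact mul_le_mul_of_nonneg_left h7 (by positivity)
          _ = ((i + 1).factorial : ℚ) * ∑ j ∈ range i, (1 / 2 : ℚ) ^ (i - j) := by rw [Finset.mul_sum]
          _ ≤ ((i + 1).factorial : ℚ) * 1 := by
              refine mul_le_mul_of_nonneg_left ?_ (by positivity)
              have h4 : ∀ i : ℕ, ∑ j ∈ range i, (1 / 2 : ℚ) ^ (i - j) = 1 - (1 / 2) ^ i := by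
                intro i
                induction i with
                | zero => simp
                | succ i ih =>
                  rw [Finset.sum_range_succ]
                  have : ∑ j ∈ range i, (1 / 2 : ℚ) ^ (i + 1 - j) = (1 / 2) * ∑ j ∈ range i, (1 / 2 : ℚ) ^ (i - j) := by
                    rw [Finset.mul_sum]
                    refine Finset.sum_congr rfl fun j hj => ?_
                    have := mem_range.1 hj
                    rw [show i + 1 - j = (i - j) + 1 by omega, pow_succ]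
                    ring
                  rw [this, ih, show i + 1 - i = 1 by omega]
                  ring
              rw [h4]
              have : (0 : ℚ) < (1 / 2) ^ i := by positivity
              linarith
          _ = ((i + 1).factorial : ℚ) := mul_one _
      rw [Nat.factorial_succ] at h3
      push_cast at h3
      have h4 : (0 : ℚ) < (i : ℚ) + 1 := by positivity
      exact le_of_mul_le_mul_left h3 h4

lemma abs_zc_le {m i : ℕ} (h : i < m) : |((zc m i : ℤ) : ℚ)| ≤ (m.factorial : ℚ) * (m.factorial : ℚ) := by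
  rw [zc_spec h, abs_mul, abs_mul, Nat.abs_cast, Nat.abs_cast]
  refine mul_le_mul_of_nonneg_left ?_ (by positivity)
  calc |_root_.bernoulli i| * (m.choose i : ℚ) ≤ (i.factorial : ℚ) * (m.choose i : ℚ) :=
        mul_le_mul_of_nonneg_right (abs_bernoulli_le i) (by positivity)
    _ ≤ (m.factorial : ℚ) := by
        have h1 := Nat.choose_mul_factorial_mul_factorial h.le
        have h2 : 1 ≤ (m - i).factorial := Nat.factorial_pos _
        have h3 : i.factorial * m.choose i ≤ m.factorial := by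
          calc i.factorial * m.choose i = m.choose i * i.factorial * 1 := by ring
            _ ≤ m.choose i * i.factorial * (m - i).factorial := Nat.mul_le_mul_left _ h2
            _ = m.factorial := h1
        exact_mod_cast h3

/-- `N^m F(a / N)` -/
noncomputable def GG (m N a : ℕ) : ℤ := ∑ i ∈ range m, zc m i * (a : ℤ) ^ (m - i) * (N : ℤ) ^ i

lemma GG_eq (m N a : ℕ) (hN : N ≠ 0) : ((GG m N a : ℤ) : ℂ) = (N : ℂ) ^ m * aeval ((a : ℂ) / (N : ℕ)) (FF m) := by
  have hN' : (N : ℂ) ≠ 0 := by exact_mod_cast hN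
  rw [GG, FF, map_sum, Finset.mul_sum]
  push_cast
  refine Finset.sum_congr rfl fun i hi => ?_
  have := mem_range.1 hi
  rw [aeval_monomial, div_pow]
  have h1 : (N : ℂ) ^ m = (N : ℂ) ^ (m - i) * (N : ℂ) ^ i := by
    rw [← pow_add]
    congr 1
    omega
  rw [h1]
  simp only [eq_intCast]
  field_simp

lemma GG_le (m N a : ℕ) (ha : a ≤ N) : |GG m N a| ≤ (m * (m.factorial * m.factorial) * N ^ m : ℕ) := by
  unfold GG
  calc |∑ i ∈ range m, zc m i * (a : ℤ) ^ (m - i) * (N : ℤ) ^ i|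
      ≤ ∑ i ∈ range m, |zc m i * (a : ℤ) ^ (m - i) * (N : ℤ) ^ i| := Finset.abs_sum_le_sum_abs _ _
    _ ≤ ∑ i ∈ range m, ((m.factorial * m.factorial : ℕ) : ℤ) * (N : ℤ) ^ m := by
        refine Finset.sum_le_sum fun i hi => ?_
        have hi' := mem_range.1 hi
        rw [mul_assoc, abs_mul]
        have h1 : |zc m i| ≤ ((m.factorial * m.factorial : ℕ) : ℤ) := by
          have := abs_zc_le hi'
          exact_mod_cast this
        have h2 : |(a : ℤ) ^ (m - i) * (N : ℤ) ^ i| ≤ (N : ℤ) ^ m := by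
          rw [abs_of_nonneg (by positivity)]
          calc (a : ℤ) ^ (m - i) * (N : ℤ) ^ i ≤ (N : ℤ) ^ (m - i) * (N : ℤ) ^ i := by
                refine mul_le_mul_of_nonneg_right ?_ (by positivity)
                exact pow_le_pow_left₀ (by positivity) (by exact_mod_cast ha) _
            _ = (N : ℤ) ^ m := by
                rw [← pow_add]
                congr 1
                omega
        exact mul_le_mul h1 h2 (abs_nonneg _) (by positivity)
    _ = (m * (m.factorial * m.factorial) * N ^ m : ℕ) := by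
        rw [Finset.sum_const, card_range, nsmul_eq_mul]
        push_cast
        ring

/-- the sum of the character -/
noncomputable def TT (m : ℕ) {N : ℕ} (ψ : DirichletCharacter ℂ N) : ℂ :=
  ∑ a ∈ range N, ψ (a : ZMod N) * ((GG m N a : ℤ) : ℂ)

/-- the polynomial -/
noncomputable def RR (m N : ℕ) (g : (ZMod N)ˣ) : ℤ[X] :=
  ∑ i ∈ range N.totient, C (GG m N ((g ^ i : (ZMod N)ˣ) : ZMod N).val) * X ^ i

lemma TT_eq {N : ℕ} [NeZero N] (m : ℕ) (ψ : DirichletCharacter ℂ N) (g : (ZMod N)ˣ)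
    (hg : ∀ u : (ZMod N)ˣ, u ∈ Subgroup.zpowers g) :
    TT m ψ = (RR m N g).eval₂ (Int.castRingHom ℂ) (ψ g) := by
  have hord : orderOf g = N.totient := by
    rw [orderOf_eq_card_of_forall_mem_zpowers hg, Nat.card_eq_fintype_card, ZMod.card_units_eq_totient]
  have h1 : (RR m N g).eval₂ (Int.castRingHom ℂ) (ψ g) = ∑ i ∈ range N.totient,
      ψ ((g ^ i : (ZMod N)ˣ) : ZMod N) * ((GG m N ((g ^ i : (ZMod N)ˣ) : ZMod N).val : ℤ) : ℂ) := by
    rw [RR, eval₂_finset_sum]
    refine Finset.sum_congr rfl fun i _ => ?_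
    rw [eval₂_mul, eval₂_C, eval₂_X_pow, Units.val_pow_eq_pow_val, map_pow]
    rw [eq_intCast]
    ring
  have h2 : TT m ψ = ∑ a ∈ (range N).filter (fun a : ℕ => IsUnit (a : ZMod N)),
      ψ (a : ZMod N) * ((GG m N a : ℤ) : ℂ) := by
    rw [TT, Finset.sum_filter]
    refine Finset.sum_congr rfl fun a _ => ?_
    split_ifs with h
    · rfl
    · rw [ψ.map_nonunit h, zero_mul]
  rw [h1, h2]
  symm
  refine Finset.sum_bij (fun i _ => ((g ^ i : (ZMod N)ˣ) : ZMod N).val) ?_ ?_ ?_ ?_
  · intro i _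
    rw [mem_filter, mem_range]
    refine ⟨ZMod.val_lt _, ?_⟩
    rw [ZMod.natCast_zmod_val]
    exact Units.isUnit _
  · intro i hi j hj hij
    have h3 := Units.ext (ZMod.val_injective N hij)
    rw [mem_range, ← hord] at hi hj
    exact pow_injOn_Iio_orderOf hi hj h3
  · intro a ha
    rw [mem_filter, mem_range] at ha
    obtain ⟨u, hu⟩ := ha.2
    have h4 := hg u
    rw [mem_zpowers_iff_mem_range_orderOf, mem_image] at h4
    obtain ⟨i, hi, hi2⟩ := h4
    rw [hord] at hi
    refine ⟨i, hi, ?_⟩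
    rw [hi2, hu, ZMod.val_cast_of_lt ha.1]
  · intro i _
    rw [ZMod.natCast_zmod_val]

lemma TT_sum {N : ℕ} (hN : N ≠ 0) (hN1 : N ≠ 1) (m : ℕ) (ψ : DirichletCharacter ℂ N) (hψ : ψ ≠ 1) :
    TT m ψ = (N : ℂ) ^ m * (((m.factorial : ℕ) : ℂ) * ∑ a ∈ range N, ψ (a : ZMod N) *
      (((Polynomial.bernoulli m).eval ((a : ℚ) / N) : ℚ) : ℂ)) := by
  have h0 := sum_char hN ψ hψ
  unfold TT
  have h1 : ∀ a : ℕ, ((GG m N a : ℤ) : ℂ) = (N : ℂ) ^ m * (((m.factorial : ℕ) : ℂ) *
        ((((Polynomial.bernoulli m).eval ((a : ℚ) / (N : ℕ)) : ℚ) : ℂ) - ((_root_.bernoulli m : ℚ) : ℂ))) := by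
    intro a
    rw [GG_eq m N a hN, ← FF_eval]
    push_cast
    rfl
  simp only [h1]
  have h2 : ∑ a ∈ range N, ψ (a : ZMod N) * ((N : ℂ) ^ m * (((m.factorial : ℕ) : ℂ) *
        ((((Polynomial.bernoulli m).eval ((a : ℚ) / (N : ℕ)) : ℚ) : ℂ) - ((_root_.bernoulli m : ℚ) : ℂ)))) =
      (N : ℂ) ^ m * (((m.factorial : ℕ) : ℂ) * ∑ a ∈ range N, ψ (a : ZMod N) *
      (((Polynomial.bernoulli m).eval ((a : ℚ) / N) : ℚ) : ℂ)) -
      (N : ℂ) ^ m * ((m.factorial : ℕ) : ℂ) * ((_root_.bernoulli m : ℚ) : ℂ) * ∑ a ∈ range N, ψ (a : ZMod N) := by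
    rw [Finset.mul_sum, Finset.mul_sum, Finset.mul_sum, ← Finset.sum_sub_distrib]
    refine Finset.sum_congr rfl fun a _ => ?_
    ring
  rw [h2, h0, mul_zero, sub_zero]

lemma TT_ne_zero {N : ℕ} [NeZero N] (hN : 1 < N) (ψ : DirichletCharacter ℂ N) (hψ : ψ.IsPrimitive) {m : ℕ}
    (hm : 2 ≤ m) (hpar : ψ (-1) = (-1) ^ m) : TT m ψ ≠ 0 := by
  have hψ1 : ψ ≠ 1 := by
    intro h
    rw [h, DirichletCharacter.isPrimitive_def, DirichletCharacter.conductor_one] at hψ
    omega
  rw [TT_sum (by omega) (by omega) m ψ hψ1]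
  have h1 : (N : ℂ) ≠ 0 := by exact_mod_cast (by omega : N ≠ 0)
  have h2 : ((m.factorial : ℕ) : ℂ) ≠ 0 := by exact_mod_cast (Nat.factorial_pos m).ne'
  exact mul_ne_zero (pow_ne_zero _ h1) (mul_ne_zero h2 (gen_ne_zero hN ψ hψ hm hpar))

lemma TT_int {N : ℕ} (hN : N ≠ 0) (m : ℕ) (ψ : DirichletCharacter ℂ N) : IsIntegral ℤ (TT m ψ) := by
  have : NeZero N := ⟨hN⟩
  unfold TT
  refine IsIntegral.sum _ fun a _ => IsIntegral.mul ?_ (isIntegral_algebraMap (x := GG m N a))
  by_cases ha : IsUnit (a : ZMod N)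
  · obtain ⟨U, hU⟩ := ha
    refine IsIntegral.of_pow (n := N.totient) (Nat.totient_pos.2 (Nat.pos_of_ne_zero hN)) ?_
    rw [← hU, ← map_pow, ← Units.val_pow_eq_pow_val, ZMod.pow_totient, Units.val_one, map_one]
    exact isIntegral_one
  · rw [ψ.map_nonunit ha]
    exact isIntegral_zero

/-- the bound for one value -/
noncomputable def BB (m N : ℕ) : ℕ := N * (m * (m.factorial * m.factorial) * N ^ m)

lemma RR_le {N : ℕ} [NeZero N] (m : ℕ) (g : (ZMod N)ˣ) (ζ : ℂ) (hζ : ‖ζ‖ = 1) :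
    ‖(RR m N g).eval₂ (Int.castRingHom ℂ) ζ‖ ≤ BB m N := by
  rw [RR, eval₂_finset_sum]
  calc ‖∑ i ∈ range N.totient, eval₂ (Int.castRingHom ℂ) ζ
        (C (GG m N ((g ^ i : (ZMod N)ˣ) : ZMod N).val) * X ^ i)‖
      ≤ ∑ i ∈ range N.totient, ‖eval₂ (Int.castRingHom ℂ) ζ
        (C (GG m N ((g ^ i : (ZMod N)ˣ) : ZMod N).val) * X ^ i)‖ := norm_sum_le _ _
    _ ≤ ∑ i ∈ range N.totient, ((m * (m.factorial * m.factorial) * N ^ m : ℕ) : ℝ) := by
        refine Finset.sum_le_sum fun i _ => ?_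
        rw [eval₂_mul, eval₂_C, eval₂_X_pow, norm_mul, norm_pow, hζ, one_pow, mul_one, eq_intCast,
          Complex.norm_intCast]
        exact_mod_cast GG_le m N _ (ZMod.val_lt _).le
    _ = N.totient * ((m * (m.factorial * m.factorial) * N ^ m : ℕ) : ℝ) := by
        rw [Finset.sum_const, card_range, nsmul_eq_mul]
    _ ≤ BB m N := by
        unfold BB
        rw [Nat.cast_mul N]
        exact mul_le_mul_of_nonneg_right (by exact_mod_cast Nat.totient_le N) (by positivity)

/-- the determinant -/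
noncomputable def DD (m N : ℕ) (g : (ZMod N)ˣ) (d : ℕ) : ℤ := (Pool.Agent.TH487.RP.MM d (RR m N g)).det

lemma DD_le {N : ℕ} [NeZero N] (m : ℕ) (g : (ZMod N)ˣ) (d : ℕ) (hd : 0 < d) :
    (DD m N g d).natAbs ≤ (BB m N) ^ d.totient := by
  have h1 : (((DD m N g d).natAbs : ℕ) : ℝ) = ‖((DD m N g d : ℤ) : ℂ)‖ := by
    rw [Complex.norm_intCast, Nat.cast_natAbs]
    simp
  have h2 : (((DD m N g d).natAbs : ℕ) : ℝ) ≤ (BB m N : ℝ) ^ d.totient := by
    rw [h1, DD, Pool.Agent.TH487.RP.det_MM d hd, norm_prod]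
    calc ∏ ζ ∈ primitiveRoots d ℂ, ‖(RR m N g).eval₂ (Int.castRingHom ℂ) ζ‖
        ≤ ∏ ζ ∈ primitiveRoots d ℂ, (BB m N : ℝ) := by
          refine Finset.prod_le_prod (fun _ _ => norm_nonneg _) fun ζ hζ => ?_
          refine RR_le m g ζ ?_
          exact (isPrimitiveRoot_of_mem_primitiveRoots hζ).norm'_eq_one hd.ne'
      _ = (BB m N : ℝ) ^ d.totient := by
          rw [Finset.prod_const, (Complex.isPrimitiveRoot_exp d hd.ne').card_primitiveRoots]
  exact_mod_cast h2

/-- the determinant is the product over the powers of a primitive character, and not zero -/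
lemma DD_ne_zero {N : ℕ} [NeZero N] (hN : 1 < N) (g : (ZMod N)ˣ) (hg : ∀ u : (ZMod N)ˣ, u ∈ Subgroup.zpowers g)
    (ψ : DirichletCharacter ℂ N) (hψ : ψ.IsPrimitive) {m : ℕ} (hm : 2 ≤ m) (hpar : ψ (-1) = (-1) ^ m) :
    DD m N g (orderOf (ψ g)) ≠ 0 ∧ ∃ y : ℂ, IsIntegral ℤ y ∧ TT m ψ * y = ((DD m N g (orderOf (ψ g)) : ℤ) : ℂ) := by
  have hfin : IsOfFinOrder (ψ (g : ZMod N)) := by
    rw [isOfFinOrder_iff_pow_eq_one]
    refine ⟨N.totient, Nat.totient_pos.2 (by omega), ?_⟩
    rw [← map_pow, ← Units.val_pow_eq_pow_val, ZMod.pow_totient, Units.val_one, map_one]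
  set d := orderOf (ψ g) with hd
  have hd0 : 0 < d := hfin.orderOf_pos
  have hprim : IsPrimitiveRoot (ψ (g : ZMod N)) d := IsPrimitiveRoot.orderOf _
  have hdet := Pool.Agent.TH487.RP.det_MM d hd0 (RR m N g)
  have h2 : ψ ^ d = 1 := by
    ext u
    have h3 := hg u
    rw [mem_zpowers_iff_mem_range_orderOf, mem_image] at h3
    obtain ⟨i, -, hi⟩ := h3
    rw [← hi, MulChar.pow_apply_coe, Units.val_pow_eq_pow_val, map_pow, ← pow_mul, mul_comm, pow_mul,
      hprim.pow_eq_one, one_pow]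
    rw [← Units.val_pow_eq_pow_val, MulChar.one_apply (Units.isUnit _)]
  have hneg : ((-1 : (ZMod N)ˣ) : ZMod N) = -1 := by simp
  have hjodd : ∀ j : ℕ, j.Coprime d → ((-1 : ℂ) ^ m) ^ j = (-1) ^ m := by
    intro j hj
    rcases Nat.even_or_odd m with he | ho
    · rw [he.neg_one_pow, one_pow]
    · rw [ho.neg_one_pow]
      have h3 : (-1 : ℂ) ^ d = 1 := by
        have h4 : (ψ ^ d) ((-1 : (ZMod N)ˣ) : ZMod N) = 1 := by
          rw [h2, MulChar.one_apply (Units.isUnit _)]
        rw [MulChar.pow_apply_coe, hneg, hpar, ho.neg_one_pow] at h4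
        exact h4
      have hde : Even d := by
        by_contra hcon
        rw [Nat.not_even_iff_odd] at hcon
        rw [hcon.neg_one_pow] at h3
        norm_num at h3
      have hjo : Odd j := by
        by_contra hcon
        rw [Nat.not_odd_iff_even] at hcon
        have h5 := Nat.dvd_gcd hcon.two_dvd hde.two_dvd
        rw [hj] at h5
        omega
      exact hjo.neg_one_pow
  -- every factor is a `TT`
  have hfac : ∀ ζ ∈ primitiveRoots d ℂ, ∃ χ : DirichletCharacter ℂ N, χ.IsPrimitive ∧ χ (-1) = (-1) ^ m ∧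
      (RR m N g).eval₂ (Int.castRingHom ℂ) ζ = TT m χ := by
    intro ζ hζ
    have hζ' := isPrimitiveRoot_of_mem_primitiveRoots hζ
    have : NeZero d := ⟨hd0.ne'⟩
    obtain ⟨j, hj, hjc, hjζ⟩ := (hprim.isPrimitiveRoot_iff).1 hζ'
    refine ⟨ψ ^ j, ?_, ?_, ?_⟩
    · -- primitive
      rw [DirichletCharacter.isPrimitive_def] at hψ ⊢
      have h1 : (ψ ^ j).conductor ∣ ψ.conductor := DirichletCharacter.conductor_pow_dvd ψ j
      obtain ⟨e, he⟩ : ∃ e, j * e ≡ 1 [MOD d] := by
        rcases Nat.lt_or_ge 1 d with h4 | h4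
        · obtain ⟨e, -, he⟩ := Nat.exists_mul_mod_eq_one_of_coprime hjc h4
          exact ⟨e, by rw [Nat.ModEq, he, Nat.mod_eq_of_lt h4]⟩
        · have : d = 1 := by omega
          exact ⟨1, by rw [this]; exact Nat.modEq_one⟩
      have h3 : (ψ ^ j) ^ e = ψ := by
        rw [← pow_mul, pow_eq_pow_mod (j * e) h2, he, ← pow_eq_pow_mod 1 h2, pow_one]
      have h4 : ψ.conductor ∣ (ψ ^ j).conductor := by
        conv_lhs => rw [← h3]
        exact DirichletCharacter.conductor_pow_dvd (ψ ^ j) e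
      exact (Nat.dvd_antisymm h1 h4).trans hψ
    · -- parity
      rw [← hneg, MulChar.pow_apply_coe, hneg, hpar]
      exact hjodd j hjc
    · rw [TT_eq m (ψ ^ j) g hg, MulChar.pow_apply_coe, hjζ]
  have hmem : ψ (g : ZMod N) ∈ primitiveRoots d ℂ := (mem_primitiveRoots hd0).2 hprim
  constructor
  · intro h0
    have h3 : ((DD m N g d : ℤ) : ℂ) = 0 := by rw [h0, Int.cast_zero]
    rw [DD, hdet, Finset.prod_eq_zero_iff] at h3
    obtain ⟨ζ, hζ, hζ0⟩ := h3
    obtain ⟨χ, h4, h5, h6⟩ := hfac ζ hζ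
    rw [h6] at hζ0
    exact TT_ne_zero hN χ h4 hm h5 hζ0
  · refine ⟨∏ ζ ∈ (primitiveRoots d ℂ).erase (ψ g), (RR m N g).eval₂ (Int.castRingHom ℂ) ζ, ?_, ?_⟩
    · refine IsIntegral.prod _ fun ζ hζ => ?_
      obtain ⟨χ, -, -, h6⟩ := hfac ζ (Finset.mem_of_mem_erase hζ)
      rw [h6]
      exact TT_int (by omega) m χ
    · rw [DD, hdet, TT_eq m ψ g hg]
      exact Finset.mul_prod_erase (primitiveRoots d ℂ) (fun ζ => (RR m N g).eval₂ (Int.castRingHom ℂ) ζ) hmem

/-- the values are units at `p` if `p` does not divide the determinant -/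
theorem unit_of_not_dvd {N : ℕ} [NeZero N] (hN : 1 < N) (g : (ZMod N)ˣ)
    (hg : ∀ u : (ZMod N)ˣ, u ∈ Subgroup.zpowers g) (ψ : DirichletCharacter ℂ N) (hψ : ψ.IsPrimitive) {m : ℕ}
    (hm : 2 ≤ m) (hpar : ψ (-1) = (-1) ^ m) {p : ℕ} (hp : p.Prime) (hmp : m < p) (hpN : ¬ p ∣ N)
    (hD : ¬ p ∣ (DD m N g (orderOf (ψ g))).natAbs) :
    IsUnitAt p ((1 - ψ (p : ZMod N) * (p : ℂ) ^ (m - 1)) * ((N : ℂ) ^ (m - 1) *
      ∑ a ∈ range N, ψ (a : ZMod N) * (((Polynomial.bernoulli m).eval ((a : ℚ) / N) : ℚ) : ℂ)) / m) := by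
  obtain ⟨h0, y, hy, hTy⟩ := DD_ne_zero hN g hg ψ hψ hm hpar
  set D := DD m N g (orderOf (ψ g)) with hDdef
  have hψ1 : ψ ≠ 1 := by
    intro h
    rw [h, DirichletCharacter.isPrimitive_def, DirichletCharacter.conductor_one] at hψ
    omega
  have hT := TT_sum (by omega) (by omega) m ψ hψ1
  have hT0 := TT_ne_zero hN ψ hψ hm hpar
  have hTi := TT_int (by omega : N ≠ 0) m ψ
  set S := ∑ a ∈ range N, ψ (a : ZMod N) * (((Polynomial.bernoulli m).eval ((a : ℚ) / N) : ℚ) : ℂ) with hS
  set E := 1 - ψ (p : ZMod N) * (p : ℂ) ^ (m - 1) with hE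
  have hN0 : (N : ℂ) ≠ 0 := by exact_mod_cast (by omega : N ≠ 0)
  have hm0 : (m : ℂ) ≠ 0 := by exact_mod_cast (by omega : m ≠ 0)
  have hf0 : ((m.factorial : ℕ) : ℂ) ≠ 0 := by exact_mod_cast (Nat.factorial_pos m).ne'
  have hz : E * ((N : ℂ) ^ (m - 1) * S) / m = E * TT m ψ / ((N : ℂ) * ((m.factorial : ℕ) : ℂ) * m) := by
    rw [hT]
    have h1 : (N : ℂ) ^ m = (N : ℂ) ^ (m - 1) * N := by
      rw [← pow_succ]
      congr 1
      omega
    rw [h1]
    field_simp
  rw [hz]
  have hpm : ¬ p ∣ m := fun h => by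
    have := Nat.le_of_dvd (by omega) h
    omega
  have hpf : ¬ p ∣ m.factorial := fun h => by
    have := (hp.dvd_factorial).1 h
    omega
  have hval : ∀ B : ValuationSubring ℂ, B.valuation (p : ℂ) < 1 →
      B.valuation (E * TT m ψ / ((N : ℂ) * ((m.factorial : ℕ) : ℂ) * m)) = 1 := by
    intro B hB
    -- integral elements
    have hint : ∀ z : ℂ, IsIntegral ℤ z → z ∈ B := by
      intro z hz
      have h1 : IsIntegral B z := hz.tower_top
      obtain ⟨w, hw⟩ := IsIntegrallyClosed.isIntegral_iff.mp h1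
      rw [← hw]
      exact w.2
    have hDv : B.valuation ((D : ℤ) : ℂ) = 1 := by
      have h1 := nat_val hp hB hD
      rcases Int.natAbs_eq D with h2 | h2
      · rw [h2, Int.cast_natCast]
        exact h1
      · rw [h2, Int.cast_neg, Valuation.map_neg, Int.cast_natCast]
        exact h1
    have hTv : B.valuation (TT m ψ) = 1 := by
      have h1 : B.valuation (TT m ψ) ≤ 1 := (B.valuation_le_one_iff _).2 (hint _ hTi)
      have h2 : B.valuation y ≤ 1 := (B.valuation_le_one_iff _).2 (hint _ hy)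
      have h3 := congrArg B.valuation hTy
      rw [map_mul, hDv] at h3
      refine le_antisymm h1 ?_
      calc (1 : B.ValueGroup) = B.valuation (TT m ψ) * B.valuation y := h3.symm
        _ ≤ B.valuation (TT m ψ) * 1 := mul_le_mul_right h2 _
        _ = B.valuation (TT m ψ) := mul_one _
    have hEv : B.valuation E = 1 := by
      have h1 : B.valuation (ψ (p : ZMod N) * (p : ℂ) ^ (m - 1)) < 1 := by
        rw [map_mul, map_pow]
        have h2 : B.valuation (ψ (p : ZMod N)) ≤ 1 :=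
          (B.valuation_le_one_iff _).2 (char_mem B (by omega : N ≠ 0) ψ _)
        calc B.valuation (ψ (p : ZMod N)) * B.valuation (p : ℂ) ^ (m - 1)
            ≤ 1 * B.valuation (p : ℂ) ^ (m - 1) := mul_le_mul_left h2 _
          _ = B.valuation (p : ℂ) ^ (m - 1) := one_mul _
          _ < 1 := pow_lt_one' hB (by omega)
      rw [hE, Valuation.map_sub_swap]
      have h3 := Valuation.map_sub_eq_of_lt_right (v := B.valuation)
        (x := ψ (p : ZMod N) * (p : ℂ) ^ (m - 1)) (y := (1 : ℂ)) (by rw [map_one]; exact h1)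
      rw [h3, map_one]
    rw [map_div₀, map_mul, map_mul, map_mul, hEv, hTv, nat_val hp hB hpN, nat_val hp hB hpm, nat_val hp hB hpf]
    simp
  refine unit_of_val hp ?_ hval
  intro h1
  obtain ⟨B, hB⟩ := exists_over hp
  have h2 := hval B hB
  rw [h1, map_zero] at h2
  exact zero_ne_one h2

end Pool.Agent.Y18.GX
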