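import Pool.Agent.Y18.GX.Cnt
import Pool.Agent.TH10.RP.JC

/-!
# The index `m = 1`
-/

set_option autoImplicit false

namespace Pool.Agent.Y18.GX

open Finset Polynomial

theorem gen_ne_one {N : ℕ} [NeZero N] (hN : 1 < N) (ψ : DirichletCharacter ℂ N) (hψ : ψ.IsPrimitive)
    (hpar : ψ (-1) = -1) :
    ∑ a ∈ range N, ψ (a : ZMod N) * (((Polynomial.bernoulli 1).eval ((a : ℚ) / N) : ℚ) : ℂ) ≠ 0 := by
  intro hS
  have hN0 : (N : ℂ) ≠ 0 := by exact_mod_cast (by omega : N ≠ 0)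
  have hinv : (ψ⁻¹).IsPrimitive := by
    rw [DirichletCharacter.isPrimitive_def, DirichletCharacter.conductor_inv]
    exact hψ
  have hodd : (ψ⁻¹).Odd := by
    unfold DirichletCharacter.Odd
    rw [MulChar.inv_apply_eq_inv', hpar]
    norm_num
  refine Pool.Agent.TH10.RP.JC.dft_saw_ne_zero ψ⁻¹ hodd ?_
  have h1 : ∀ j : ZMod N, ZMod.dft (fun j => (ψ⁻¹) j) j =
      (ψ⁻¹⁻¹) (-j) * gaussSum (ψ⁻¹) (ZMod.stdAddChar (N := N)) :=
    fun j => hinv.fourierTransform_eq_inv_mul_gaussSum j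
  have h2 : ∀ j : ZMod N, (ψ⁻¹⁻¹) (-j) = - ψ j := by
    intro j
    rw [inv_inv, ← neg_one_mul j, map_mul, hpar]
    ring
  have h3 : ∑ j : ZMod N, ψ j * ((Pool.Agent.H916R2.saw j : ℤ) : ℂ) = 0 := by
    have h4 : ∀ j : ZMod N, ψ j * ((Pool.Agent.H916R2.saw j : ℤ) : ℂ) =
        (2 * (N : ℂ)) * (ψ (j.val : ZMod N) * (((Polynomial.bernoulli 1).eval ((j.val : ℚ) / N) : ℚ) : ℂ)) := by
      intro j
      rw [ZMod.natCast_zmod_val]
      by_cases hj : j = 0
      · subst hj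
        rw [DirichletCharacter.map_zero' ψ (by omega)]
        simp
      · unfold Pool.Agent.H916R2.saw
        rw [if_neg hj]
        simp only [Polynomial.bernoulli_one, Polynomial.eval_sub, Polynomial.eval_X, Polynomial.eval_C]
        push_cast
        field_simp
    rw [Finset.sum_congr rfl fun j _ => h4 j, ← Finset.mul_sum]
    have h5 : ∑ j : ZMod N, ψ (j.val : ZMod N) * (((Polynomial.bernoulli 1).eval ((j.val : ℚ) / N) : ℚ) : ℂ) =
        ∑ a ∈ range N, ψ (a : ZMod N) * (((Polynomial.bernoulli 1).eval ((a : ℚ) / N) : ℚ) : ℂ) := by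
      refine Finset.sum_bij (fun j _ => j.val) (fun j _ => mem_range.2 (ZMod.val_lt j)) ?_ ?_ (fun _ _ => rfl)
      · intro a _ b _ hab
        exact ZMod.val_injective N hab
      · intro b hb
        exact ⟨(b : ZMod N), mem_univ _, ZMod.val_cast_of_lt (mem_range.1 hb)⟩
    rw [h5, hS, mul_zero]
  have h6 : ∑ j : ZMod N, ZMod.dft (fun j => (ψ⁻¹) j) j * ((Pool.Agent.H916R2.saw j : ℤ) : ℂ) =
      (- gaussSum (ψ⁻¹) (ZMod.stdAddChar (N := N))) *
        ∑ j : ZMod N, ψ j * ((Pool.Agent.H916R2.saw j : ℤ) : ℂ) := by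
    rw [Finset.mul_sum]
    refine Finset.sum_congr rfl fun j _ => ?_
    rw [h1, h2]
    ring
  rw [h6, h3, mul_zero]

lemma TT_ne_zero' {N : ℕ} [NeZero N] (hN : 1 < N) (ψ : DirichletCharacter ℂ N) (hψ : ψ.IsPrimitive) {m : ℕ}
    (hm : 1 ≤ m) (hpar : ψ (-1) = (-1) ^ m) : TT m ψ ≠ 0 := by
  rcases hm.eq_or_lt with h | h
  · subst h
    rw [pow_one] at hpar
    have hψ1 : ψ ≠ 1 := by
      intro h
      rw [h, DirichletCharacter.isPrimitive_def, DirichletCharacter.conductor_one] at hψ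
      omega
    rw [TT_sum (by omega) (by omega) 1 ψ hψ1]
    have h1 : (N : ℂ) ≠ 0 := by exact_mod_cast (by omega : N ≠ 0)
    have h2 : (((1 : ℕ).factorial : ℕ) : ℂ) ≠ 0 := by simp
    exact mul_ne_zero (pow_ne_zero _ h1) (mul_ne_zero h2 (gen_ne_one hN ψ hψ hpar))
  · exact TT_ne_zero hN ψ hψ h hpar

lemma DG_ne_zero' {N : ℕ} [NeZero N] (hN : 1 < N) (ψ : DirichletCharacter ℂ N) (hψ : ψ.IsPrimitive) {m : ℕ}
    (hm : 1 ≤ m) (hpar : ψ (-1) = (-1) ^ m) :
    DG m ψ ≠ 0 ∧ ∃ y : ℂ, IsIntegral ℤ y ∧ TT m ψ * y = ((DG m ψ : ℤ) : ℂ) := by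
  have hd0 := order_pos ψ
  have hprim := zt_prim hd0.ne'
  have : NeZero (orderOf ψ) := ⟨hd0.ne'⟩
  have hfac : ∀ ζ ∈ primitiveRoots (orderOf ψ) ℂ, ∃ χ : DirichletCharacter ℂ N, χ.IsPrimitive ∧
      χ (-1) = (-1) ^ m ∧ (RG m ψ).eval₂ (Int.castRingHom ℂ) ζ = TT m χ := by
    intro ζ hζ
    obtain ⟨j, -, hjc, hjζ⟩ := (hprim.isPrimitiveRoot_iff).1 (isPrimitiveRoot_of_mem_primitiveRoots hζ)
    obtain ⟨h1, h2⟩ := pow_good ψ hψ hpar hjc
    exact ⟨ψ ^ j, h1, h2, by rw [← hjζ, RG_eval]⟩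
  constructor
  · intro h0
    have h3 : ((DG m ψ : ℤ) : ℂ) = 0 := by rw [h0, Int.cast_zero]
    rw [DG_eq, Finset.prod_eq_zero_iff] at h3
    obtain ⟨ζ, hζ, hζ0⟩ := h3
    obtain ⟨χ, h4, h5, h6⟩ := hfac ζ hζ
    rw [h6] at hζ0
    exact TT_ne_zero' hN χ h4 hm h5 hζ0
  · have hmem : zt (orderOf ψ) ∈ primitiveRoots (orderOf ψ) ℂ := (mem_primitiveRoots hd0).2 hprim
    refine ⟨∏ ζ ∈ (primitiveRoots (orderOf ψ) ℂ).erase (zt (orderOf ψ)), (RG m ψ).eval₂ (Int.castRingHom ℂ) ζ, ?_, ?_⟩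
    · refine IsIntegral.prod _ fun ζ hζ => ?_
      obtain ⟨χ, -, -, h6⟩ := hfac ζ (Finset.mem_of_mem_erase hζ)
      rw [h6]
      exact TT_int (by omega) m χ
    · have h7 : TT m ψ = (RG m ψ).eval₂ (Int.castRingHom ℂ) (zt (orderOf ψ)) := by
        have := RG_eval m ψ 1
        rw [pow_one, pow_one] at this
        exact this.symm
      rw [DG_eq, h7]
      exact Finset.mul_prod_erase (primitiveRoots (orderOf ψ) ℂ)
        (fun ζ => (RG m ψ).eval₂ (Int.castRingHom ℂ) ζ) hmem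

/-- the values are units at `p` if `p` does not divide the norm -/
theorem unit_of_not_dvd1 {N : ℕ} [NeZero N] (hN : 1 < N) (ψ : DirichletCharacter ℂ N) (hψ : ψ.IsPrimitive) {m : ℕ}
    (hm : 1 ≤ m) (hpar : ψ (-1) = (-1) ^ m) {p : ℕ} (hp : p.Prime) (hmp : m < p) (hpN : ¬ p ∣ N)
    (hpd : ¬ p ∣ orderOf ψ) (h1ψ : m = 1 → ψ (p : ZMod N) ≠ 1) (hD : ¬ p ∣ (DG m ψ).natAbs) :
    IsUnitAt p ((1 - ψ (p : ZMod N) * (p : ℂ) ^ (m - 1)) * ((N : ℂ) ^ (m - 1) *
      ∑ a ∈ range N, ψ (a : ZMod N) * (((Polynomial.bernoulli m).eval ((a : ℚ) / N) : ℚ) : ℂ)) / m) := by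
  obtain ⟨h0, y, hy, hTy⟩ := DG_ne_zero' hN ψ hψ hm hpar
  set D := DG m ψ with hDdef
  have hψ1 : ψ ≠ 1 := by
    intro h
    rw [h, DirichletCharacter.isPrimitive_def, DirichletCharacter.conductor_one] at hψ
    omega
  have hT := TT_sum (by omega) (by omega) m ψ hψ1
  have hT0 := TT_ne_zero' hN ψ hψ hm hpar
  have hTi := TT_int (by omega : N ≠ 0) m ψ
  set S := ∑ a ∈ range N, ψ (a : ZMod N) * (((Polynomial.bernoulli m).eval ((a : ℚ) / N) : ℚ) : ℂ) with hS
  set E := 1 - ψ (p : ZMod N) * (p : ℂ) ^ (m - 1) with hE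
  have hN0 : (N : ℂ) ≠ 0 := by exact_mod_cast (by omega : N ≠ 0)
  have hm0 : (m : ℂ) ≠ 0 := by exact_mod_cast (by omega : m ≠ 0)
  have hf0 : ((m.factorial : ℕ) : ℂ) ≠ 0 := by exact_mod_cast (Nat.factorial_pos m).ne'
  have hz : E * ((N : ℂ) ^ (m - 1) * S) / m = E * TT m ψ / ((N : ℂ) * ((m.factorial : ℕ) : ℂ) * m) := by
    rw [hT]
    have h1 : (N : ℂ) ^ m = (N : ℂ) ^ (m - 1) * N := by
      rw [← pow_succ]
      congr 1
      omega
    rw [h1]
    field_simp
  rw [hz]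
  have hpm : ¬ p ∣ m := fun h => by
    have := Nat.le_of_dvd (by omega) h
    omega
  have hpf : ¬ p ∣ m.factorial := fun h => by
    have := (hp.dvd_factorial).1 h
    omega
  have hval : ∀ B : ValuationSubring ℂ, B.valuation (p : ℂ) < 1 →
      B.valuation (E * TT m ψ / ((N : ℂ) * ((m.factorial : ℕ) : ℂ) * m)) = 1 := by
    intro B hB
    -- integral elements
    have hint : ∀ z : ℂ, IsIntegral ℤ z → z ∈ B := by
      intro z hz
      have h1 : IsIntegral B z := hz.tower_top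
      obtain ⟨w, hw⟩ := IsIntegrallyClosed.isIntegral_iff.mp h1
      rw [← hw]
      exact w.2
    have hDv : B.valuation ((D : ℤ) : ℂ) = 1 := by
      have h1 := nat_val hp hB hD
      rcases Int.natAbs_eq D with h2 | h2
      · rw [h2, Int.cast_natCast]
        exact h1
      · rw [h2, Int.cast_neg, Valuation.map_neg, Int.cast_natCast]
        exact h1
    have hTv : B.valuation (TT m ψ) = 1 := by
      have h1 : B.valuation (TT m ψ) ≤ 1 := (B.valuation_le_one_iff _).2 (hint _ hTi)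
      have h2 : B.valuation y ≤ 1 := (B.valuation_le_one_iff _).2 (hint _ hy)
      have h3 := congrArg B.valuation hTy
      rw [map_mul, hDv] at h3
      refine le_antisymm h1 ?_
      calc (1 : B.ValueGroup) = B.valuation (TT m ψ) * B.valuation y := h3.symm
        _ ≤ B.valuation (TT m ψ) * 1 := mul_le_mul_right h2 _
        _ = B.valuation (TT m ψ) := mul_one _
    have hEv : B.valuation E = 1 := by
      rcases hm.eq_or_lt with hm1 | hm2
      · have hE1 : E = 1 - ψ (p : ZMod N) := by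
          rw [hE, ← hm1, Nat.sub_self, pow_zero, mul_one]
        have hunit : IsUnit (p : ZMod N) := by
          rw [ZMod.isUnit_iff_coprime, Nat.Prime.coprime_iff_not_dvd hp]
          exact hpN
        obtain ⟨U, hU⟩ := hunit
        set z := ψ (p : ZMod N) with hzdef
        have hz1 : z ≠ 1 := h1ψ hm1.symm
        have hzd : z ^ orderOf ψ = 1 := by
          rw [hzdef, ← hU, ← MulChar.pow_apply_coe, pow_orderOf_eq_one, MulChar.one_apply_coe]
        have hzB : z ∈ B := char_mem B (by omega : N ≠ 0) ψ _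
        have hgeo : ∑ i ∈ range (orderOf ψ), z ^ i = 0 := by
          have h2 := mul_neg_geom_sum z (orderOf ψ)
          rw [hzd, sub_self] at h2
          rcases mul_eq_zero.1 h2 with h3 | h3
          · exact absurd (sub_eq_zero.1 h3).symm hz1
          · exact h3
        have hprod : (1 - z) * ∑ i ∈ range (orderOf ψ), ∑ j ∈ range i, z ^ j = ((orderOf ψ : ℕ) : ℂ) := by
          rw [Finset.mul_sum]
          have h2 : ∀ i ∈ range (orderOf ψ), (1 - z) * ∑ j ∈ range i, z ^ j = 1 - z ^ i :=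
            fun i _ => mul_neg_geom_sum z i
          rw [Finset.sum_congr rfl h2, Finset.sum_sub_distrib, hgeo, sub_zero, Finset.sum_const, card_range,
            nsmul_eq_mul, mul_one]
        have hw : B.valuation (∑ i ∈ range (orderOf ψ), ∑ j ∈ range i, z ^ j) ≤ 1 :=
          (B.valuation_le_one_iff _).2 (sum_mem fun i _ => sum_mem fun j _ => pow_mem hzB j)
        have hE0 : B.valuation (1 - z) ≤ 1 := (B.valuation_le_one_iff _).2 (sub_mem (one_mem _) hzB)
        have h3 := congrArg B.valuation hprod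
        rw [map_mul, nat_val hp hB hpd] at h3
        rw [hE1]
        refine le_antisymm hE0 ?_
        calc (1 : B.ValueGroup) = B.valuation (1 - z) *
              B.valuation (∑ i ∈ range (orderOf ψ), ∑ j ∈ range i, z ^ j) := h3.symm
          _ ≤ B.valuation (1 - z) * 1 := mul_le_mul_right hw _
          _ = B.valuation (1 - z) := mul_one _
      · have h1 : B.valuation (ψ (p : ZMod N) * (p : ℂ) ^ (m - 1)) < 1 := by
          rw [map_mul, map_pow]
          have h2 : B.valuation (ψ (p : ZMod N)) ≤ 1 :=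
            (B.valuation_le_one_iff _).2 (char_mem B (by omega : N ≠ 0) ψ _)
          calc B.valuation (ψ (p : ZMod N)) * B.valuation (p : ℂ) ^ (m - 1)
              ≤ 1 * B.valuation (p : ℂ) ^ (m - 1) := mul_le_mul_left h2 _
            _ = B.valuation (p : ℂ) ^ (m - 1) := one_mul _
            _ < 1 := pow_lt_one' hB (by omega)
        rw [hE, Valuation.map_sub_swap]
        have h3 := Valuation.map_sub_eq_of_lt_right (v := B.valuation)
          (x := ψ (p : ZMod N) * (p : ℂ) ^ (m - 1)) (y := (1 : ℂ)) (by rw [map_one]; exact h1)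
        rw [h3, map_one]
    rw [map_div₀, map_mul, map_mul, map_mul, hEv, hTv, nat_val hp hB hpN, nat_val hp hB hpm, nat_val hp hB hpf]
    simp
  refine unit_of_val hp ?_ hval
  intro h1
  obtain ⟨B, hB⟩ := exists_over hp
  have h2 := hval B hB
  rw [h1, map_zero] at h2
  exact zero_ne_one h2

lemma card_badR' {N m s r : ℕ} (hN1 : 1 < N) (hm2 : 1 ≤ m) (hN : N ≤ 2 ^ s) (hm : m ≤ 2 ^ s) :
    r * (badR N m r).card ≤ N * (s * (3 * m + 2)) := by
  classical
  have : NeZero N := ⟨by omega⟩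
  rw [badR_eq]
  set T : DirichletCharacter ℂ N → Finset ℕ :=
    fun ψ => (DG m ψ).natAbs.primeFactors.filter fun p => p ^ r ∣ (DG m ψ).natAbs with hT
  set U := (PP N m).biUnion T with hU
  set L := s * (3 * m + 2) with hL
  have hone : ∀ p ∈ U, (1 : ℚ) ≤ ∑ ψ ∈ PP N m,
      if p ∈ T ψ then (((orderOf ψ).totient : ℕ) : ℚ)⁻¹ else 0 := by
    intro p hp
    rw [hU, mem_biUnion] at hp
    obtain ⟨ψ, hψ, hpψ⟩ := hp
    have hψ' := (mem_filter.1 hψ).2
    have hd0 := order_pos ψ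
    set J := (range (orderOf ψ)).filter (fun j => (orderOf ψ).Coprime j) with hJ
    have hJc : J.card = (orderOf ψ).totient := by
      rw [hJ, Nat.totient_eq_card_coprime]
    set S := J.image (fun j => ψ ^ j) with hS
    have hSc : S.card = (orderOf ψ).totient := by
      rw [hS, card_image_of_injOn, hJc]
      intro i hi j hj hij
      have hi' := mem_range.1 (mem_filter.1 (mem_coe.1 hi)).1
      have hj' := mem_range.1 (mem_filter.1 (mem_coe.1 hj)).1
      exact pow_injOn_Iio_orderOf hi' hj' hij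
    have hSsub : S ⊆ PP N m := by
      intro χ hχ
      obtain ⟨j, hj, rfl⟩ := mem_image.1 hχ
      exact mem_filter.2 ⟨mem_univ _, pow_good ψ hψ'.1 hψ'.2 (mem_filter.1 hj).2.symm⟩
    calc (1 : ℚ) = ∑ χ ∈ S, (((orderOf ψ).totient : ℕ) : ℚ)⁻¹ := by
          rw [sum_const, hSc, nsmul_eq_mul, mul_inv_cancel₀]
          exact_mod_cast (Nat.totient_pos.2 hd0).ne'
      _ = ∑ χ ∈ S, if p ∈ T χ then (((orderOf χ).totient : ℕ) : ℚ)⁻¹ else 0 := by
          refine sum_congr rfl fun χ hχ => ?_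
          obtain ⟨j, hj, rfl⟩ := mem_image.1 hχ
          have hj' := (mem_filter.1 hj).2
          have hTT : T (ψ ^ j) = T ψ := by
            simp only [hT]
            rw [DG_pow m ψ hj'.symm]
          rw [hTT, if_pos hpψ, Nat.Coprime.orderOf_pow hj']
      _ ≤ ∑ χ ∈ PP N m, if p ∈ T χ then (((orderOf χ).totient : ℕ) : ℚ)⁻¹ else 0 := by
          refine sum_le_sum_of_subset_of_nonneg hSsub fun χ _ _ => ?_
          split_ifs
          · positivity
          · exact le_rfl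
  have h1 : (r : ℚ) * (U.card : ℚ) ≤ ((PP N m).card : ℚ) * L := by
    calc (r : ℚ) * (U.card : ℚ) = r * ∑ p ∈ U, (1 : ℚ) := by simp
      _ ≤ r * ∑ p ∈ U, ∑ ψ ∈ PP N m,
          (if p ∈ T ψ then (((orderOf ψ).totient : ℕ) : ℚ)⁻¹ else 0) :=
          mul_le_mul_of_nonneg_left (sum_le_sum hone) (by positivity)
      _ = ∑ ψ ∈ PP N m, r * ∑ p ∈ U,
          (if p ∈ T ψ then (((orderOf ψ).totient : ℕ) : ℚ)⁻¹ else 0) := by rw [sum_comm, mul_sum]
      _ ≤ ∑ ψ ∈ PP N m, (L : ℚ) := by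
          refine sum_le_sum fun ψ hψ => ?_
          have hψ' := (mem_filter.1 hψ).2
          have hd0 := order_pos ψ
          have ht : (0 : ℚ) < (((orderOf ψ).totient : ℕ) : ℚ) := by exact_mod_cast Nat.totient_pos.2 hd0
          obtain ⟨hne, -⟩ := DG_ne_zero' hN1 ψ hψ'.1 hm2 hψ'.2
          have h2 : r * (T ψ).card ≤ L * (orderOf ψ).totient := by
            refine card_pf_pow (Int.natAbs_ne_zero.2 hne) ?_
            calc (DG m ψ).natAbs ≤ (BB m N) ^ (orderOf ψ).totient := DG_le m ψ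
              _ ≤ (2 ^ L) ^ (orderOf ψ).totient := Nat.pow_le_pow_left (BB_le' hN hm) _
              _ = 2 ^ (L * (orderOf ψ).totient) := by rw [← pow_mul]
          rw [← sum_filter, sum_const, nsmul_eq_mul]
          have h3 : (r : ℚ) * ((U.filter fun p => p ∈ T ψ).card : ℚ) ≤ L * (orderOf ψ).totient := by
            have h4 : r * (U.filter fun p => p ∈ T ψ).card ≤ L * (orderOf ψ).totient :=
              (Nat.mul_le_mul_left r (card_le_card fun p hp => (mem_filter.1 hp).2)).trans h2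
            exact_mod_cast h4
          calc (r : ℚ) * (((U.filter fun p => p ∈ T ψ).card : ℚ) * (((orderOf ψ).totient : ℕ) : ℚ)⁻¹)
              = ((r : ℚ) * ((U.filter fun p => p ∈ T ψ).card : ℚ)) * (((orderOf ψ).totient : ℕ) : ℚ)⁻¹ := by ring
            _ ≤ (L * (orderOf ψ).totient) * (((orderOf ψ).totient : ℕ) : ℚ)⁻¹ :=
                mul_le_mul_of_nonneg_right h3 (by positivity)
            _ = L := by field_simp
      _ = ((PP N m).card : ℚ) * L := by rw [sum_const, nsmul_eq_mul]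
  have h2 : r * U.card ≤ (PP N m).card * L := by exact_mod_cast h1
  exact h2.trans (Nat.mul_le_mul_right _ (PP_card N m))

end Pool.Agent.Y18.GX
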