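import Pool.Agent.Y18.GX.Euler
import Pool.Agent.Y18.GX.Bern

/-!
# Values at negative integers of `L`-functions which are units at `p`
-/

set_option autoImplicit false

namespace Pool.Agent.Y18.GX

open Finset Polynomial

/-- `z` is a unit at all places above `p`: up to integers prime to `p`, `z` and its inverse are algebraic
integers -/
def IsUnitAt (p : ℕ) (z : ℂ) : Prop :=
  z ≠ 0 ∧ ∃ c : ℤ, IsCoprime (p : ℤ) c ∧ IsIntegral ℤ ((c : ℂ) * z) ∧ IsIntegral ℤ ((c : ℂ) * z⁻¹)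

theorem int_of_val {p : ℕ} (hp : p.Prime) {u : ℂ}
    (h : ∀ B : ValuationSubring ℂ, B.valuation (p : ℂ) < 1 → B.valuation u ≤ 1) :
    ∃ n : ℤ, IsCoprime (p : ℤ) n ∧ IsIntegral ℤ ((n : ℂ) * u) := by
  by_cases hu : u = 0
  · refine ⟨1, isCoprime_one_right, ?_⟩
    rw [hu, mul_zero]
    exact isIntegral_zero
  have hx : u⁻¹ ≠ 0 := inv_ne_zero hu
  let _ : Invertible u⁻¹ := invertibleOfNonzero hx
  have hinv : ⅟(u⁻¹) = u := by
    rw [invOf_eq_inv, inv_inv]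
  let A := Algebra.adjoin ℤ {u⁻¹}
  let y : A := ⟨u⁻¹, Algebra.subset_adjoin rfl⟩
  let I : Ideal ℤ := Ideal.span {(p : ℤ)}
  have hI : I ≠ ⊤ := by
    intro h1
    rw [Ideal.span_singleton_eq_top, Int.isUnit_iff] at h1
    have := hp.two_le
    omega
  by_cases htop : I.map (algebraMap ℤ A) ⊔ Ideal.span {y} = ⊤
  · obtain ⟨f, hf, hf0⟩ :=
      Algebra.exists_aeval_invOf_eq_zero_of_idealMap_adjoin_sup_span_eq_top u⁻¹ I hI htop
    rw [hinv] at hf0
    refine ⟨f.leadingCoeff, ?_, ?_⟩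
    · rw [Ideal.mem_span_singleton] at hf
      obtain ⟨c, hc⟩ := hf
      exact ⟨-c, 1, by linarith⟩
    · have h1 := isIntegral_leadingCoeff_smul f u hf0
      rwa [zsmul_eq_mul] at h1
  · obtain ⟨V, -, hV2⟩ := Ideal.image_subset_nonunits_valuationSubring (A := A.toSubring) _ htop
    have h2 : V.valuation (p : ℂ) < 1 := by
      apply V.mem_nonunits_iff.1
      apply hV2
      refine ⟨algebraMap ℤ A (p : ℤ), le_sup_left (α := Ideal A)
        (Ideal.mem_map_of_mem _ (Ideal.mem_span_singleton_self _)), ?_⟩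
      show ((algebraMap ℤ A (p : ℤ) : A) : ℂ) = p
      simp
    have h3 : V.valuation u⁻¹ < 1 := by
      apply V.mem_nonunits_iff.1
      apply hV2
      exact ⟨y, le_sup_right (α := Ideal A) (Ideal.mem_span_singleton_self y), rfl⟩
    have h4 := h V h2
    rw [map_inv₀] at h3
    have h5 : V.valuation u ≠ 0 := (Valuation.ne_zero_iff _).2 hu
    have h6 : (1 : V.ValueGroup) ≤ (V.valuation u)⁻¹ :=
      (one_le_inv₀ (zero_lt_iff.2 h5)).2 h4
    exact absurd h3 (not_lt.2 h6)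

theorem unit_of_val {p : ℕ} (hp : p.Prime) {u : ℂ} (h0 : u ≠ 0)
    (h : ∀ B : ValuationSubring ℂ, B.valuation (p : ℂ) < 1 → B.valuation u = 1) : IsUnitAt p u := by
  obtain ⟨n, hn, h1⟩ := int_of_val hp (fun B hB => (h B hB).le)
  obtain ⟨m, hm, h2⟩ := int_of_val (u := u⁻¹) hp (fun B hB => by rw [map_inv₀, h B hB, inv_one])
  refine ⟨h0, n * m, hn.mul_right hm, ?_, ?_⟩
  · have h3 : ((n * m : ℤ) : ℂ) * u = ((m : ℤ) : ℂ) * ((n : ℂ) * u) := by push_cast; ring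
    rw [h3]
    exact (isIntegral_algebraMap (x := m)).mul h1
  · have h3 : ((n * m : ℤ) : ℂ) * u⁻¹ = ((n : ℤ) : ℂ) * ((m : ℂ) * u⁻¹) := by push_cast; ring
    rw [h3]
    exact (isIntegral_algebraMap (x := n)).mul h2

section
variable (B : ValuationSubring ℂ)

lemma mem_of_pow {z : ℂ} {n : ℕ} (hn : n ≠ 0) (h : z ^ n = 1) : z ∈ B := by
  rcases B.mem_or_inv_mem z with h1 | h1
  · exact h1
  · have h2 : z = (z⁻¹) ^ (n - 1) := by
      have hz : z ≠ 0 := by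
        rintro rfl
        rw [zero_pow hn] at h
        exact zero_ne_one h
      rw [inv_pow]
      apply eq_inv_of_mul_eq_one_left
      rw [← pow_succ']
      convert! h using 2
      omega
    rw [h2]
    exact pow_mem h1 _

lemma val_of_res (x : B) (h : IsLocalRing.residue B x ≠ 0) : B.valuation (x : ℂ) = 1 :=
  (B.valuation_eq_one_iff x).1 ((IsLocalRing.residue_ne_zero_iff_isUnit x).1 h)

lemma charP_res {p : ℕ} (hp : p.Prime) (hB : B.valuation (p : ℂ) < 1) :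
    CharP (IsLocalRing.ResidueField B) p := by
  have h0 : ((p : ℕ) : IsLocalRing.ResidueField B) = 0 := by
    have h1 : ((p : ℕ) : IsLocalRing.ResidueField B) = IsLocalRing.residue B ((p : ℕ) : B) := by
      rw [map_natCast]
    rw [h1]
    by_contra h2
    have h3 := val_of_res B _ h2
    have h4 : (((p : ℕ) : B) : ℂ) = p := by simp
    rw [h4] at h3
    exact hB.ne h3
  exact (CharP.charP_iff_prime_eq_zero hp).2 h0

/-- a character with values in `B` -/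
noncomputable def liftChar {N : ℕ} (ψ : MulChar (ZMod N) ℂ) (h : ∀ a, ψ a ∈ B) : MulChar (ZMod N) B where
  toFun a := ⟨ψ a, h a⟩
  map_one' := Subtype.ext (map_one ψ)
  map_mul' a b := Subtype.ext (map_mul ψ a b)
  map_nonunit' a ha := Subtype.ext (ψ.map_nonunit ha)

lemma char_mem {N : ℕ} (hN : N ≠ 0) (ψ : MulChar (ZMod N) ℂ) (a : ZMod N) : ψ a ∈ B := by
  by_cases ha : IsUnit a
  · obtain ⟨U, rfl⟩ := ha
    have : NeZero N := ⟨hN⟩
    refine mem_of_pow B (n := N.totient) (Nat.totient_pos.2 (Nat.pos_of_ne_zero hN)).ne' ?_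
    rw [← map_pow, ← Units.val_pow_eq_pow_val, ZMod.pow_totient, Units.val_one, map_one]
  · rw [ψ.map_nonunit ha]
    exact B.zero_mem

end

lemma exists_over {p : ℕ} (hp : p.Prime) : ∃ V : ValuationSubring ℂ, V.valuation (p : ℂ) < 1 := by
  have h1 : (p : ℂ)⁻¹ ∉ (integralClosure ℤ ℂ).toSubring := by
    intro h
    have h2 : IsIntegral ℤ ((p : ℂ)⁻¹) := h
    have h5 : IsIntegral ℤ ((p : ℚ)⁻¹) := by
      rw [← isIntegral_algebraMap_iff (algebraMap ℚ ℂ).injective]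
      simpa using h2
    obtain ⟨y, hy⟩ := IsIntegrallyClosed.isIntegral_iff.mp h5
    have h6 : (y : ℚ) * p = 1 := by
      have : (y : ℚ) = (p : ℚ)⁻¹ := hy
      rw [this, inv_mul_cancel₀ (by exact_mod_cast hp.ne_zero)]
    have h7 : y * p = 1 := by exact_mod_cast h6
    have h8 : IsUnit (p : ℤ) := IsUnit.of_mul_eq_one y (by rw [mul_comm]; exact h7)
    rw [Int.isUnit_iff] at h8
    have := hp.two_le
    omega
  obtain ⟨V, -, hV⟩ := Subring.exists_le_valuationSubring_of_isIntegrallyClosedIn h1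
  refine ⟨V, ?_⟩
  rw [← ValuationSubring.valuation_le_one_iff, not_le, map_inv₀] at hV
  exact (one_lt_inv₀ (zero_lt_iff.mpr ((Valuation.ne_zero_iff _).mpr (by exact_mod_cast hp.ne_zero)))).mp hV

section
variable {p : ℕ} (hp : p.Prime)

include hp in
lemma nat_val {B : ValuationSubring ℂ} (hB : B.valuation (p : ℂ) < 1) {n : ℕ} (hn : ¬ p ∣ n) :
    B.valuation (n : ℂ) = 1 := by
  have := charP_res B hp hB
  have h1 : IsLocalRing.residue B (n : B) ≠ 0 := by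
    rw [map_natCast]
    intro h
    exact hn ((CharP.cast_eq_zero_iff (IsLocalRing.ResidueField B) p n).1 h)
  have h2 := val_of_res B _ h1
  simpa using h2

include hp in
/-- roots of unity of order prime to `p` which are not `1` have a reduction which is not `1` -/
lemma red_ne_one {B : ValuationSubring ℂ} (hB : B.valuation (p : ℂ) < 1) {n : ℕ} (hn : ¬ p ∣ n)
    (z : B) (hz : z ^ n = 1) (hz1 : z ≠ 1) : IsLocalRing.residue B z ≠ 1 := by
  have := charP_res B hp hB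
  intro h
  have h1 : (z - 1) * ∑ j ∈ range n, z ^ j = 0 := by
    have := geom_sum_mul z n
    rw [mul_comm, this, hz, sub_self]
  rcases mul_eq_zero.1 h1 with h2 | h2
  · exact hz1 (sub_eq_zero.1 h2)
  · have h3 := congrArg (IsLocalRing.residue B) h2
    rw [map_sum, map_zero] at h3
    simp only [map_pow, h, one_pow, Finset.sum_const, card_range, nsmul_eq_mul, mul_one] at h3
    exact hn ((CharP.cast_eq_zero_iff (IsLocalRing.ResidueField B) p n).1 h3)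

include hp in
/-- from the nonvanishing of the sums in characteristic `p` to the values -/
theorem unit_gen {ℓ K N₁ g m : ℕ} (ψ₁ : MulChar (ZMod N₁) ℂ) (ψ₂ : MulChar (ZMod (ℓ ^ K)) ℂ)
    (hℓ : ℓ.Prime) (hK : 2 ≤ K) (hψ₁ : ∀ a, ψ₁ a ^ p ^ g = ψ₁ a)
    (hprim : ψ₂ ((1 + ℓ ^ (K - 1) : ℕ) : ZMod (ℓ ^ K)) ≠ 1)
    (hpN : ¬ p ∣ N₁) (hpℓ : p ≠ ℓ)
    (hpar : ψ₁ (-1) * ψ₂ (-1) = (-1) ^ m)
    (hm1 : 1 ≤ m) (hmp : m < p)
    (hcore : ∀ (k : Type) [Field k] [CharP k p] (χ₁ : MulChar (ZMod N₁) k) (χ₂ : MulChar (ZMod (ℓ ^ K)) k),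
      (∀ a, χ₁ a ^ p ^ g = χ₁ a) → χ₂ ((1 + ℓ ^ (K - 1) : ℕ) : ZMod (ℓ ^ K)) ≠ 1 →
      χ₁ (-1) * χ₂ (-1) = (-1) ^ m →
      (∑ a ∈ range (N₁ * ℓ ^ K), χ₁ (a : ZMod N₁) * χ₂ (a : ZMod (ℓ ^ K)) *
        Polynomial.aeval ((a : k) / (N₁ * ℓ ^ K : ℕ)) (FF m) ≠ 0) ∧
      (m = 1 → χ₁ (p : ZMod N₁) * χ₂ (p : ZMod (ℓ ^ K)) ≠ 1))
    (hsum : ∑ a ∈ range (N₁ * ℓ ^ K), ψ₁ (a : ZMod N₁) * ψ₂ (a : ZMod (ℓ ^ K)) = 0) :
    IsUnitAt p ((1 - ψ₁ (p : ZMod N₁) * ψ₂ (p : ZMod (ℓ ^ K)) * (p : ℂ) ^ (m - 1)) *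
      (((N₁ * ℓ ^ K : ℕ) : ℂ) ^ (m - 1) * ∑ a ∈ range (N₁ * ℓ ^ K), ψ₁ (a : ZMod N₁) * ψ₂ (a : ZMod (ℓ ^ K)) *
        (((Polynomial.bernoulli m).eval ((a : ℚ) / (N₁ * ℓ ^ K : ℕ)) : ℚ) : ℂ)) / m) := by
  have : Fact p.Prime := ⟨hp⟩
  have hN0 : N₁ ≠ 0 := by
    rintro rfl
    exact hpN (dvd_zero _)
  set N := N₁ * ℓ ^ K with hN
  have hpℓd : ¬ p ∣ ℓ := fun h => hpℓ ((Nat.prime_dvd_prime_iff_eq hp hℓ).1 h)
  have hpN' : ¬ p ∣ N := by
    intro h
    rcases (hp.dvd_mul).1 h with h | h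
    · exact hpN h
    · exact hpℓd (hp.dvd_of_dvd_pow h)
  have hN0' : N ≠ 0 := by
    intro h
    rw [h] at hpN'
    exact hpN' (dvd_zero _)
  have hpm : ¬ p ∣ m := fun h => by
    have := Nat.le_of_dvd (by omega) h
    omega
  have hpf : ¬ p ∣ m.factorial := fun h => by
    have := (hp.dvd_factorial).1 h
    omega
  -- the sum in terms of `FF`
  have hT : ((m.factorial : ℕ) : ℂ) * ∑ a ∈ range N, ψ₁ (a : ZMod N₁) * ψ₂ (a : ZMod (ℓ ^ K)) *
      (((Polynomial.bernoulli m).eval ((a : ℚ) / (N : ℕ)) : ℚ) : ℂ) =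
      ∑ a ∈ range N, ψ₁ (a : ZMod N₁) * ψ₂ (a : ZMod (ℓ ^ K)) * aeval ((a : ℂ) / (N : ℕ)) (FF m) := by
    have h1 : ∀ a : ℕ, aeval ((a : ℂ) / (N : ℕ)) (FF m) = ((m.factorial : ℕ) : ℂ) *
        ((((Polynomial.bernoulli m).eval ((a : ℚ) / (N : ℕ)) : ℚ) : ℂ) - ((_root_.bernoulli m : ℚ) : ℂ)) := by
      intro a
      rw [← FF_eval]
      push_cast
      rfl
    simp only [h1]
    have h2 : ∑ a ∈ range N, ψ₁ (a : ZMod N₁) * ψ₂ (a : ZMod (ℓ ^ K)) * (((m.factorial : ℕ) : ℂ) *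
        ((((Polynomial.bernoulli m).eval ((a : ℚ) / (N : ℕ)) : ℚ) : ℂ) - ((_root_.bernoulli m : ℚ) : ℂ))) =
        ((m.factorial : ℕ) : ℂ) * ∑ a ∈ range N, ψ₁ (a : ZMod N₁) * ψ₂ (a : ZMod (ℓ ^ K)) *
      (((Polynomial.bernoulli m).eval ((a : ℚ) / (N : ℕ)) : ℚ) : ℂ) -
      ((m.factorial : ℕ) : ℂ) * ((_root_.bernoulli m : ℚ) : ℂ) *
        ∑ a ∈ range N, ψ₁ (a : ZMod N₁) * ψ₂ (a : ZMod (ℓ ^ K)) := by
      rw [Finset.mul_sum, Finset.mul_sum, ← Finset.sum_sub_distrib]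
      refine Finset.sum_congr rfl fun a _ => ?_
      ring
    rw [h2, hsum, mul_zero, sub_zero]
  set S := ∑ a ∈ range N, ψ₁ (a : ZMod N₁) * ψ₂ (a : ZMod (ℓ ^ K)) *
      (((Polynomial.bernoulli m).eval ((a : ℚ) / (N : ℕ)) : ℚ) : ℂ) with hS
  set T := ∑ a ∈ range N, ψ₁ (a : ZMod N₁) * ψ₂ (a : ZMod (ℓ ^ K)) * aeval ((a : ℂ) / (N : ℕ)) (FF m) with hTd
  set E := 1 - ψ₁ (p : ZMod N₁) * ψ₂ (p : ZMod (ℓ ^ K)) * (p : ℂ) ^ (m - 1) with hE
  -- the valuations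
  have hval : ∀ B : ValuationSubring ℂ, B.valuation (p : ℂ) < 1 → B.valuation T = 1 ∧ B.valuation E = 1 := by
    intro B hB
    have hch := charP_res B hp hB
    have hm1' : ∀ a, ψ₁ a ∈ B := char_mem B hN0 ψ₁
    have hm2' : ∀ a, ψ₂ a ∈ B := char_mem B (pow_ne_zero _ hℓ.ne_zero) ψ₂
    set χ₁ := liftChar B ψ₁ hm1' with hχ₁
    set χ₂ := liftChar B ψ₂ hm2' with hχ₂
    set ρ := IsLocalRing.residue B with hρ
    have hck1 : ∀ a, (χ₁.ringHomComp ρ) a = ρ (χ₁ a) := fun a => rfl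
    have hck2 : ∀ a, (χ₂.ringHomComp ρ) a = ρ (χ₂ a) := fun a => rfl
    have hc1 : ∀ a, ((χ₁ a : B) : ℂ) = ψ₁ a := fun a => rfl
    have hc2 : ∀ a, ((χ₂ a : B) : ℂ) = ψ₂ a := fun a => rfl
    have hnk : ∀ n : ℕ, ¬ p ∣ n → ((n : ℕ) : IsLocalRing.ResidueField B) ≠ 0 := fun n hn h =>
      hn ((CharP.cast_eq_zero_iff (IsLocalRing.ResidueField B) p n).1 h)
    -- properties of the reductions
    have hψ₁' : ∀ a, (χ₁.ringHomComp ρ) a ^ p ^ g = (χ₁.ringHomComp ρ) a := by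
      intro a
      rw [hck1, ← map_pow]
      congr 1
      apply Subtype.ext
      exact hψ₁ a
    have hprim' : (χ₂.ringHomComp ρ) ((1 + ℓ ^ (K - 1) : ℕ) : ZMod (ℓ ^ K)) ≠ 1 := by
      rw [hck2]
      refine red_ne_one hp hB hpℓd _ ?_ ?_
      · apply Subtype.ext
        have h1 := psi_M_pow ψ₂ (n := 1) (by omega)
        rw [pow_one] at h1
        exact h1
      · intro h
        exact hprim (congrArg Subtype.val h)
    have hpar' : (χ₁.ringHomComp ρ) (-1) * (χ₂.ringHomComp ρ) (-1) = (-1) ^ m := by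
      have h1 : χ₁ (-1) * χ₂ (-1) = (-1) ^ m := by
        apply Subtype.ext
        push_cast
        rw [hc1, hc2]
        exact hpar
      rw [hck1, hck2, ← map_mul, h1, map_pow, map_neg, map_one]
    constructor
    · -- `T`
      have hNB : IsUnit (N : B) := by
        rw [← IsLocalRing.residue_ne_zero_iff_isUnit, map_natCast]
        exact hnk N hpN'
      obtain ⟨ν, hν⟩ := hNB.exists_right_inv
      have hνC : ∀ a : ℕ, (((a : B) * ν : B) : ℂ) = (a : ℂ) / (N : ℕ) := by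
        intro a
        have h1 : (N : ℂ) * (ν : ℂ) = 1 := by
          have := congrArg (Subtype.val) hν
          push_cast at this
          exact this
        have h2 : (N : ℂ) ≠ 0 := by exact_mod_cast hN0'
        push_cast
        field_simp
        linear_combination (a : ℂ) * h1
      have hνk : ∀ a : ℕ, ρ ((a : B) * ν) = (a : IsLocalRing.ResidueField B) / (N : ℕ) := by
        intro a
        have h1 : (N : IsLocalRing.ResidueField B) * ρ ν = 1 := by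
          have := congrArg ρ hν
          rwa [map_mul, map_natCast, map_one] at this
        have h2 := hnk N hpN'
        rw [map_mul, map_natCast]
        field_simp
        linear_combination (a : IsLocalRing.ResidueField B) * h1
      set TB : B := ∑ a ∈ range N, χ₁ (a : ZMod N₁) * χ₂ (a : ZMod (ℓ ^ K)) * aeval ((a : B) * ν) (FF m)
        with hTB
      have e1 : (TB : ℂ) = T := by
        have h1 : (TB : ℂ) = B.subtype TB := rfl
        rw [h1, hTB, hTd, map_sum]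
        refine Finset.sum_congr rfl fun a _ => ?_
        rw [map_mul, map_mul]
        have h2 : B.subtype (aeval ((a : B) * ν) (FF m)) = aeval (B.subtype ((a : B) * ν)) (FF m) :=
          (Polynomial.aeval_algHom_apply B.subtype.toIntAlgHom ((a : B) * ν) (FF m)).symm
        rw [h2]
        have h4 : B.subtype ((a : B) * ν) = (a : ℂ) / (N : ℕ) := hνC a
        rw [h4]
        rfl
      have e2 : ρ TB = ∑ a ∈ range N, (χ₁.ringHomComp ρ) (a : ZMod N₁) * (χ₂.ringHomComp ρ) (a : ZMod (ℓ ^ K)) *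
          aeval ((a : IsLocalRing.ResidueField B) / (N : ℕ)) (FF m) := by
        rw [hTB, map_sum]
        refine Finset.sum_congr rfl fun a _ => ?_
        rw [map_mul, map_mul]
        have h2 : ρ (aeval ((a : B) * ν) (FF m)) = aeval (ρ ((a : B) * ν)) (FF m) :=
          (Polynomial.aeval_algHom_apply ρ.toIntAlgHom ((a : B) * ν) (FF m)).symm
        rw [h2, hνk]
        rfl
      rw [← e1]
      apply val_of_res
      rw [e2]
      exact (hcore _ (χ₁.ringHomComp ρ) (χ₂.ringHomComp ρ) hψ₁' hprim' hpar').1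
    · -- the Euler factor
      have h1 : ((1 - χ₁ (p : ZMod N₁) * χ₂ (p : ZMod (ℓ ^ K)) * (p : B) ^ (m - 1) : B) : ℂ) = E := by
        rw [hE]
        push_cast
        rfl
      rw [← h1]
      apply val_of_res
      have hp0 : ((p : ℕ) : IsLocalRing.ResidueField B) = 0 :=
        (CharP.cast_eq_zero_iff (IsLocalRing.ResidueField B) p p).2 dvd_rfl
      have h2 : IsLocalRing.residue B (1 - χ₁ (p : ZMod N₁) * χ₂ (p : ZMod (ℓ ^ K)) * (p : B) ^ (m - 1)) =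
          1 - (χ₁.ringHomComp ρ) (p : ZMod N₁) * (χ₂.ringHomComp ρ) (p : ZMod (ℓ ^ K)) *
            ((p : ℕ) : IsLocalRing.ResidueField B) ^ (m - 1) := by
        rw [hck1, hck2, hρ, map_sub, map_one, map_mul (IsLocalRing.residue B), map_mul (IsLocalRing.residue B),
          map_pow, map_natCast (IsLocalRing.residue B)]
      rw [h2, hp0]
      rcases Nat.lt_or_ge 1 m with h4 | h4
      · rw [zero_pow (by omega), mul_zero, sub_zero]
        exact one_ne_zero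
      · have h5 : m = 1 := by omega
        subst h5
        rw [Nat.sub_self, pow_zero, mul_one]
        intro h6
        exact (hcore _ (χ₁.ringHomComp ρ) (χ₂.ringHomComp ρ) hψ₁' hprim' hpar').2 rfl (sub_eq_zero.1 h6).symm
  -- the conclusion
  have hz : E * ((N : ℂ) ^ (m - 1) * S) / m = E * (N : ℂ) ^ (m - 1) * T / (((m.factorial : ℕ) : ℂ) * m) := by
    rw [← hT]
    have h1 : ((m.factorial : ℕ) : ℂ) ≠ 0 := by exact_mod_cast (Nat.factorial_pos m).ne'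
    field_simp
  rw [hz]
  have hv1 : ∀ B : ValuationSubring ℂ, B.valuation (p : ℂ) < 1 →
      B.valuation (E * (N : ℂ) ^ (m - 1) * T / (((m.factorial : ℕ) : ℂ) * m)) = 1 := by
    intro B hB
    obtain ⟨h1, h2⟩ := hval B hB
    rw [map_div₀, map_mul, map_mul, map_mul, map_pow, h1, h2, nat_val hp hB hpN', nat_val hp hB hpm,
      nat_val hp hB hpf]
    simp
  refine unit_of_val hp ?_ hv1
  intro h0
  obtain ⟨B, hB⟩ := exists_over hp
  have h1 := hv1 B hB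
  rw [h0, map_zero] at h1
  exact zero_ne_one h1


include hp in
/-- the main theorem for `ψ = ψ₁ ψ₂` -/
theorem unit_main {ℓ n K N₁ g m u : ℕ} (ψ₁ : MulChar (ZMod N₁) ℂ) (ψ₂ : MulChar (ZMod (ℓ ^ K)) ℂ)
    (hp2 : p ≠ 2) (hA : Adm ℓ (p ^ g)) (hn1 : 1 ≤ n) (hn : 2 * n ≤ K) (h3 : 3 ≤ ℓ ^ n)
    (hq : p ^ g - 1 = ℓ ^ n * u) (hu : u.Coprime ℓ) (hψ₁ : ∀ a, ψ₁ a ^ p ^ g = ψ₁ a)
    (hprim : ψ₂ ((1 + ℓ ^ (K - 1) : ℕ) : ZMod (ℓ ^ K)) ≠ 1)
    (hN₁ : N₁.Coprime ℓ) (hpN : ¬ p ∣ N₁) (hpℓ : p ≠ ℓ)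
    (hpar : ψ₁ (-1) * ψ₂ (-1) = (-1) ^ m)
    (hm1 : 1 ≤ m) (hmp : m < p) (hsize : m * N₁ * ℓ ^ (2 * n) ≤ ℓ ^ K)
    (hsum : ∑ a ∈ range (N₁ * ℓ ^ K), ψ₁ (a : ZMod N₁) * ψ₂ (a : ZMod (ℓ ^ K)) = 0) :
    IsUnitAt p ((1 - ψ₁ (p : ZMod N₁) * ψ₂ (p : ZMod (ℓ ^ K)) * (p : ℂ) ^ (m - 1)) *
      (((N₁ * ℓ ^ K : ℕ) : ℂ) ^ (m - 1) * ∑ a ∈ range (N₁ * ℓ ^ K), ψ₁ (a : ZMod N₁) * ψ₂ (a : ZMod (ℓ ^ K)) *
        (((Polynomial.bernoulli m).eval ((a : ℚ) / (N₁ * ℓ ^ K : ℕ)) : ℚ) : ℂ)) / m) := by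
  have hℓ := hA.prime
  have : Fact p.Prime := ⟨hp⟩
  have hN0 : N₁ ≠ 0 := by
    rintro rfl
    exact hpN (dvd_zero _)
  refine unit_gen hp ψ₁ ψ₂ hℓ (by omega) hψ₁ hprim hpN hpℓ hpar hm1 hmp ?_ hsum
  intro k _ _ χ₁ χ₂ h1 h2 h4
  have hnk : ∀ n : ℕ, ¬ p ∣ n → ((n : ℕ) : k) ≠ 0 := fun n hn h =>
    hn ((CharP.cast_eq_zero_iff k p n).1 h)
  have hpℓd : ¬ p ∣ ℓ := fun h => hpℓ ((Nat.prime_dvd_prime_iff_eq hp hℓ).1 h)
  have hpf : ¬ p ∣ m.factorial := fun h => by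
    have := (hp.dvd_factorial).1 h
    omega
  refine ⟨core χ₁ χ₂ hp2 hA hn1 hn h3 hq hu h1 h2 hN₁ hN0
        (hnk N₁ hpN) (hnk ℓ hpℓd) (FF m) _ (fun x => FF_aeval_refl m x) h4 (FF_natDegree m)
        (by
          rw [FF_coeff m hm1]
          have := hnk _ hpf
          push_cast
          exact this) hm1 hmp hsize, fun hm => ?_⟩
  subst hm
  exact euler χ₁ χ₂ hA hn1 hn h3 hq hu h1 h2 hpℓ (by simpa using hsize)

end

end Pool.Agent.Y18.GX
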