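import Pool.Agent.Y18.GX.Dec

/-!
# The prime `5` and the levels `3^K`
-/

set_option autoImplicit false

namespace Pool.Agent.Y18.GX

open Finset Polynomial

lemma zc_eq {m i : ℕ} (h : i < m) {z : ℤ}
    (hz : ((m.factorial : ℕ) : ℚ) * (_root_.bernoulli i * (m.choose i : ℚ)) = z) : zc m i = z := by
  have := zc_spec h
  rw [hz] at this
  exact_mod_cast this

lemma bernoulli_three' : _root_.bernoulli 3 = 0 := bernoulli_eq_zero_of_odd (by decide) (by norm_num)

section
variable {k : Type*} [CommRing k]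

lemma FF_two (x : k) : aeval x (FF 2) = 2 * x ^ 2 - 2 * x := by
  have h0 : zc 2 0 = 2 := zc_eq (by norm_num) (by norm_num [Nat.factorial])
  have h1 : zc 2 1 = -2 := zc_eq (by norm_num) (by norm_num [Nat.factorial])
  rw [FF, Finset.sum_range_succ, Finset.sum_range_succ, Finset.sum_range_zero, h0, h1]
  simp [aeval_monomial]
  ring

lemma FF_three (x : k) : aeval x (FF 3) = 6 * x ^ 3 - 9 * x ^ 2 + 3 * x := by
  have h0 : zc 3 0 = 6 := zc_eq (by norm_num) (by norm_num [Nat.factorial])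
  have h1 : zc 3 1 = -9 := zc_eq (by norm_num) (by norm_num [Nat.factorial])
  have h2 : zc 3 2 = 3 := zc_eq (by norm_num) (by norm_num [Nat.factorial, Nat.choose])
  rw [FF, Finset.sum_range_succ, Finset.sum_range_succ, Finset.sum_range_succ, Finset.sum_range_zero, h0, h1, h2]
  simp [aeval_monomial]
  ring

lemma FF_four (x : k) : aeval x (FF 4) = 24 * x ^ 4 - 48 * x ^ 3 + 24 * x ^ 2 := by
  have h0 : zc 4 0 = 24 := zc_eq (by norm_num) (by norm_num [Nat.factorial])
  have h1 : zc 4 1 = -48 := zc_eq (by norm_num) (by norm_num [Nat.factorial])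
  have h2 : zc 4 2 = 24 := zc_eq (by norm_num) (by norm_num [Nat.factorial, Nat.choose])
  have h3 : zc 4 3 = 0 := zc_eq (by norm_num) (by rw [bernoulli_three']; norm_num)
  rw [FF, Finset.sum_range_succ, Finset.sum_range_succ, Finset.sum_range_succ, Finset.sum_range_succ,
    Finset.sum_range_zero, h0, h1, h2, h3]
  simp [aeval_monomial]
  ring

end

section
variable {k : Type*} [Field k] [CharP k 5]

lemma five : (5 : k) = 0 := by
  have := CharP.cast_eq_zero k 5
  exact_mod_cast this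

lemma ne_of_not_dvd (n : ℕ) (h : ¬ 5 ∣ n) : (n : k) ≠ 0 := fun h1 => h ((CharP.cast_eq_zero_iff k 5 n).1 h1)

/-- the sums for the small conductors -/
lemma small {K m : ℕ} (hKm : (K = 2 ∧ (m = 2 ∨ m = 3 ∨ m = 4)) ∨ (K = 3 ∧ m = 4))
    (χ₁ : MulChar (ZMod 1) k) (χ₂ : MulChar (ZMod (3 ^ K)) k)
    (hprim : χ₂ ((1 + 3 ^ (K - 1) : ℕ) : ZMod (3 ^ K)) ≠ 1) (hpar : χ₁ (-1) * χ₂ (-1) = (-1) ^ m) :
    ∑ a ∈ range (1 * 3 ^ K), χ₁ (a : ZMod 1) * χ₂ (a : ZMod (3 ^ K)) *
      Polynomial.aeval ((a : k) / (1 * 3 ^ K : ℕ)) (FF m) ≠ 0 := by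
  intro hS
  have : Fact (Nat.Prime 5) := ⟨by norm_num⟩
  have hχ : ∀ x : ZMod 1, χ₁ x = 1 := fun x => by rw [Subsingleton.elim x 1, map_one]
  have h3k : ((3 : ℕ) : k) ≠ 0 := ne_of_not_dvd 3 (by norm_num)
  have h5 := five (k := k)
  have key := class_zero (p := 5) (ℓ := 3) (n := 1) (K := K) (N₁ := 1) (g := 2) (m := m) (u := 8) χ₁ χ₂
    (by norm_num) (Or.inl ⟨rfl, by norm_num⟩) le_rfl (by omega) (by norm_num) (by norm_num) (by norm_num)
    (fun a => by rw [hχ, one_pow]) hprim (by norm_num) (by norm_num) (by simp) h3k (FF m) _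
    (fun x => FF_aeval_refl m x) hpar hS 1 (Nat.one_lt_pow (by omega) (by norm_num)) (by norm_num)
  have hξ3 := psi_M_pow (n := 1) χ₂ (by omega)
  rw [pow_one] at hξ3
  set ξ := χ₂ ((1 + 3 ^ (K - 1) : ℕ) : ZMod (3 ^ K)) with hξ
  have hξ2 : ξ ^ 2 + ξ + 1 = 0 := by
    have h1 : (ξ - 1) * (ξ ^ 2 + ξ + 1) = 0 := by linear_combination hξ3
    rcases mul_eq_zero.1 h1 with h2 | h2
    · exact absurd (sub_eq_zero.1 h2) hprim
    · exact h2
  have h2k : (2 : k) ≠ 0 := by exact_mod_cast ne_of_not_dvd (k := k) 2 (by norm_num)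
  simp only [hχ, one_mul, pow_one, Finset.sum_range_succ, Finset.sum_range_zero, zero_add, pow_zero,
    mul_zero, add_zero, mul_one] at key
  rcases hKm with ⟨rfl, hm⟩ | ⟨rfl, rfl⟩
  · have e0 : ((1 : ℕ) : k) / ((3 ^ 2 : ℕ) : k) = 4 := by
      rw [div_eq_iff (by exact_mod_cast ne_of_not_dvd (k := k) (3 ^ 2) (by norm_num))]
      push_cast
      linear_combination (-7 : k) * h5
    have e1 : ((1 + 3 ^ (2 - 1) : ℕ) : k) / ((3 ^ 2 : ℕ) : k) = 1 := by
      rw [div_eq_iff (by exact_mod_cast ne_of_not_dvd (k := k) (3 ^ 2) (by norm_num))]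
      push_cast
      linear_combination (-1 : k) * h5
    have e2 : ((1 + 3 ^ (2 - 1) * 2 : ℕ) : k) / ((3 ^ 2 : ℕ) : k) = 3 := by
      rw [div_eq_iff (by exact_mod_cast ne_of_not_dvd (k := k) (3 ^ 2) (by norm_num))]
      push_cast
      linear_combination (-4 : k) * h5
    rw [e0, e1, e2] at key
    rcases hm with rfl | rfl | rfl
    · rw [FF_two, FF_two, FF_two] at key
      have h1 : 2 * (ξ - 1) = 0 := by
        linear_combination (-1 : k) * key + (12 : k) * hξ2 + (2 - 2 * ξ : k) * h5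
      rcases mul_eq_zero.1 h1 with h2 | h2
      · exact h2k h2
      · exact hprim (sub_eq_zero.1 h2)
    · rw [FF_three, FF_three, FF_three] at key
      apply h2k
      linear_combination key - (50 + 18 * ξ ^ 2 : k) * h5
    · rw [FF_four, FF_four, FF_four] at key
      have h1 : ξ ^ 2 = 1 := by
        linear_combination (-1 : k) * key + (691 + 173 * ξ ^ 2 : k) * h5
      apply hprim
      have h2 : ξ = ξ ^ 3 := by linear_combination (-ξ) * h1
      rw [h2, hξ3]
  · have e0 : ((1 : ℕ) : k) / ((3 ^ 3 : ℕ) : k) = 3 := by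
      rw [div_eq_iff (by exact_mod_cast ne_of_not_dvd (k := k) (3 ^ 3) (by norm_num))]
      push_cast
      linear_combination (-16 : k) * h5
    have e1 : ((1 + 3 ^ (3 - 1) : ℕ) : k) / ((3 ^ 3 : ℕ) : k) = 0 := by
      rw [div_eq_iff (by exact_mod_cast ne_of_not_dvd (k := k) (3 ^ 3) (by norm_num))]
      push_cast
      linear_combination (2 : k) * h5
    have e2 : ((1 + 3 ^ (3 - 1) * 2 : ℕ) : k) / ((3 ^ 3 : ℕ) : k) = 2 := by
      rw [div_eq_iff (by exact_mod_cast ne_of_not_dvd (k := k) (3 ^ 3) (by norm_num))]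
      push_cast
      linear_combination (-7 : k) * h5
    rw [e0, e1, e2] at key
    rw [FF_four, FF_four, FF_four] at key
    have h1 : ξ ^ 2 = 1 := by
      linear_combination key + (-173 - 19 * ξ ^ 2 : k) * h5
    apply hprim
    have h2 : ξ = ξ ^ 3 := by linear_combination (-ξ) * h1
    rw [h2, hξ3]

end

end Pool.Agent.Y18.GX
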