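import Mathlib

/-!
# Sums over the Frobenius orbit of a root of unity
-/

set_option autoImplicit false

namespace Pool.Agent.Y18.GX

/-- the two admissible cases: `ℓ = 3` and `q = 1` modulo `3`, or `ℓ = 2` and `q = 1` modulo `4` -/
def Adm (ℓ Q : ℕ) : Prop := (ℓ = 3 ∧ Q % 3 = 1) ∨ (ℓ = 2 ∧ Q % 4 = 1)

lemma Adm.prime {ℓ Q : ℕ} (h : Adm ℓ Q) : ℓ.Prime := by
  rcases h with h | h <;> rw [h.1] <;> norm_num

lemma Adm.pow {ℓ Q : ℕ} (h : Adm ℓ Q) (j : ℕ) : Adm ℓ (Q ^ j) := by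
  rcases h with ⟨h1, h2⟩ | ⟨h1, h2⟩
  · exact Or.inl ⟨h1, by rw [Nat.pow_mod, h2, one_pow]; rfl⟩
  · exact Or.inr ⟨h1, by rw [Nat.pow_mod, h2, one_pow]; rfl⟩

lemma Adm.mod {ℓ Q : ℕ} (h : Adm ℓ Q) : ∃ u, Q = 1 + ℓ * u := by
  rcases h with ⟨h1, h2⟩ | ⟨h1, h2⟩
  · exact ⟨Q / 3, by subst h1; omega⟩
  · exact ⟨Q / 2, by subst h1; omega⟩

/-- `1 + Q + ... + Q^(ℓ-1)` is `ℓ` times a number prime to `ℓ` -/
lemma Adm.geom {ℓ Q : ℕ} (h : Adm ℓ Q) :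
    ∃ v, ∑ r ∈ Finset.range ℓ, Q ^ r = ℓ * v ∧ v.Coprime ℓ := by
  rcases h with ⟨rfl, h2⟩ | ⟨rfl, h2⟩
  · obtain ⟨u, hu⟩ : ∃ u, Q = 1 + 3 * u := ⟨Q / 3, by omega⟩
    refine ⟨1 + 3 * (u + u ^ 2), ?_, ?_⟩
    · rw [Finset.sum_range_succ, Finset.sum_range_succ, Finset.sum_range_succ, Finset.sum_range_zero, hu]
      ring
    · simp [Nat.coprime_add_mul_left_left]
  · obtain ⟨u, hu⟩ : ∃ u, Q = 1 + 4 * u := ⟨Q / 4, by omega⟩
    refine ⟨1 + 2 * u, ?_, ?_⟩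
    · rw [Finset.sum_range_succ, Finset.sum_range_succ, Finset.sum_range_zero, hu]
      ring
    · simp [Nat.coprime_add_mul_left_left]

lemma periodic_shift {k : Type*} [AddCommGroup k] (f : ℕ → k) (J : ℕ) (hf : ∀ j, f (j + J) = f j) (i : ℕ) :
    ∑ j ∈ Finset.range J, f (j + i) = ∑ j ∈ Finset.range J, f j := by
  induction i with
  | zero => simp
  | succ i ih =>
    rw [← ih]
    have h1 : ∑ j ∈ Finset.range (J + 1), f (j + i) = ∑ j ∈ Finset.range J, f (j + 1 + i) + f (0 + i) :=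
      Finset.sum_range_succ' (fun j => f (j + i)) J
    have h2 : ∑ j ∈ Finset.range (J + 1), f (j + i) = ∑ j ∈ Finset.range J, f (j + i) + f (J + i) :=
      Finset.sum_range_succ (fun j => f (j + i)) J
    have h3 : f (J + i) = f (0 + i) := by rw [zero_add, add_comm, hf]
    have h4 : ∀ j, f (j + (i + 1)) = f (j + 1 + i) := fun j => by congr 1; ring
    simp only [h4]
    have h5 := h1.symm.trans h2
    rw [h3] at h5
    exact add_right_cancel h5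

lemma pow_sub_one_geom (Q n : ℕ) (hQ : 1 ≤ Q) :
    Q ^ n - 1 = (Q - 1) * ∑ r ∈ Finset.range n, Q ^ r := by
  zify [Nat.one_le_pow n Q hQ, hQ]
  rw [mul_comm]
  exact (geom_sum_mul (Q : ℤ) n).symm

section
variable {k : Type*} [Field k]

/-- the trace of `z` vanishes if `z^(q-1)` is not `1` -/
theorem trace_zero {ℓ q R : ℕ} (hA : Adm ℓ q) (z : k) (hz : z ≠ 0)
    (h1 : z ^ (q - 1) ≠ 1) (hR : (z ^ (q - 1)) ^ ℓ ^ R = 1) :
    ∑ j ∈ Finset.range (ℓ ^ R), z ^ q ^ j = 0 := by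
  have hq1 : 1 ≤ q := by rcases hA with h | h <;> omega
  have hℓ := hA.prime
  -- the values `z ^ (q ^ (ℓ ^ i) - 1)`
  have hstep : ∀ i, q ^ ℓ ^ (i + 1) - 1 = (q ^ ℓ ^ i - 1) * ∑ r ∈ Finset.range ℓ, (q ^ ℓ ^ i) ^ r := by
    intro i
    rw [← pow_sub_one_geom _ _ (Nat.one_le_pow _ _ hq1), ← pow_mul, pow_succ]
  have hdiv : ∀ i, ∃ c, q ^ ℓ ^ i - 1 = (q - 1) * ℓ ^ i * c := by
    intro i
    induction i with
    | zero => exact ⟨1, by simp⟩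
    | succ i ih =>
      obtain ⟨c, hc⟩ := ih
      obtain ⟨v, hv, -⟩ := (hA.pow (ℓ ^ i)).geom
      refine ⟨c * v, ?_⟩
      rw [hstep, hv, hc]
      ring
  have hend : z ^ (q ^ ℓ ^ R - 1) = 1 := by
    obtain ⟨c, hc⟩ := hdiv R
    rw [hc, pow_mul, pow_mul, hR, one_pow]
  have hex : ∃ i, z ^ (q ^ ℓ ^ i - 1) = 1 := ⟨R, hend⟩
  classical
  obtain ⟨i, hi1, hi2⟩ : ∃ i, z ^ (q ^ ℓ ^ i - 1) ≠ 1 ∧ z ^ (q ^ ℓ ^ (i + 1) - 1) = 1 := by
    have h0 : Nat.find hex ≠ 0 := by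
      intro h
      have := Nat.find_spec hex
      rw [h, pow_zero, pow_one] at this
      exact h1 this
    obtain ⟨i, hi⟩ := Nat.exists_eq_succ_of_ne_zero h0
    refine ⟨i, Nat.find_min hex (by omega), ?_⟩
    have := Nat.find_spec hex
    rwa [hi] at this
  set Q := q ^ ℓ ^ i with hQ
  have hQ1 : 1 ≤ Q := Nat.one_le_pow _ _ hq1
  set η := z ^ (Q - 1) with hη
  obtain ⟨v, hv, hvc⟩ := (hA.pow (ℓ ^ i)).geom
  have e1 : (η ^ ℓ) ^ v = 1 := by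
    rw [← pow_mul, ← hv, hη, ← pow_mul, ← hstep]
    exact hi2
  have e2 : (η ^ ℓ) ^ ℓ ^ R = 1 := by
    obtain ⟨c, hc⟩ := hdiv i
    rw [hη, hQ, hc]
    rw [← pow_mul, ← pow_mul, show (q - 1) * ℓ ^ i * c * (ℓ * ℓ ^ R) = (q - 1) * ℓ ^ R * (ℓ ^ i * c * ℓ) by ring,
      pow_mul z ((q - 1) * ℓ ^ R) (ℓ ^ i * c * ℓ), pow_mul z (q - 1) (ℓ ^ R), hR, one_pow]
  have e3 : η ^ ℓ = 1 := by
    have h3 : orderOf (η ^ ℓ) ∣ v := orderOf_dvd_of_pow_eq_one e1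
    have h4 : orderOf (η ^ ℓ) ∣ ℓ ^ R := orderOf_dvd_of_pow_eq_one e2
    have h5 : orderOf (η ^ ℓ) ∣ 1 := by
      rw [← (Nat.Coprime.pow_right R hvc)]
      exact Nat.dvd_gcd h3 h4
    exact orderOf_eq_one_iff.1 (Nat.dvd_one.1 h5)
  have e4 : ∀ j, η ^ q ^ j = η := by
    intro j
    obtain ⟨u, hu⟩ := (hA.pow j).mod
    rw [hu, pow_add, pow_one, pow_mul, e3, one_pow, mul_one]
  have e5 : z ^ Q = z * η := by
    rw [hη, ← pow_succ', Nat.sub_add_cancel hQ1]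
  have hper : ∀ j, z ^ q ^ (j + ℓ ^ R) = z ^ q ^ j := by
    intro j
    rw [pow_add, mul_comm, pow_mul]
    congr 1
    calc z ^ q ^ ℓ ^ R = z ^ (q ^ ℓ ^ R - 1 + 1) := by
          rw [Nat.sub_add_cancel (Nat.one_le_pow _ _ hq1)]
      _ = z := by rw [pow_succ, hend, one_mul]
  have h6 := periodic_shift (fun j => z ^ q ^ j) (ℓ ^ R) hper (ℓ ^ i)
  have h7 : ∀ j, z ^ q ^ (j + ℓ ^ i) = η * z ^ q ^ j := by
    intro j
    rw [pow_add, mul_comm, pow_mul, ← hQ, e5, mul_pow, e4, mul_comm]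
  simp only [h7] at h6
  rw [← Finset.mul_sum] at h6
  have h8 : (η - 1) * ∑ j ∈ Finset.range (ℓ ^ R), z ^ q ^ j = 0 := by
    rw [sub_mul, one_mul, h6, sub_self]
  rcases mul_eq_zero.1 h8 with h9 | h9
  · exact absurd (sub_eq_zero.1 h9) hi1
  · exact h9

theorem trace_one {q J : ℕ} (z : k) (hq : 1 ≤ q) (h1 : z ^ (q - 1) = 1) :
    ∑ j ∈ Finset.range J, z ^ q ^ j = (J : k) * z := by
  have h : ∀ j, z ^ q ^ j = z := by
    intro j
    induction j with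
    | zero => simp
    | succ j ih =>
      rw [pow_succ, pow_mul, ih]
      calc z ^ q = z ^ (q - 1 + 1) := by rw [Nat.sub_add_cancel hq]
        _ = z := by rw [pow_succ, h1, one_mul]
  simp only [h, Finset.sum_const, Finset.card_range, nsmul_eq_mul]

end

end Pool.Agent.Y18.GX
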